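import Pool.Agent.OneRel.Final

/-!
# One-relator groups of every derived length at least three and every rank at least two
-/

set_option autoImplicit false

namespace Pool.Agent.OneRel.AllN

open scoped commutatorElement

section Words

/-- Substitute words for the letters of a word. -/
def subst {k l : ℕ} (V : Fin k → List (Fin l × Bool)) (w : List (Fin k × Bool)) :
    List (Fin l × Bool) :=
  w.flatMap fun p => cond p.2 (V p.1) (FreeGroup.invRev (V p.1))

theorem mk_subst {k l : ℕ} (V : Fin k → List (Fin l × Bool)) (w : List (Fin k × Bool)) :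
    FreeGroup.mk (subst V w) = FreeGroup.lift (fun i => FreeGroup.mk (V i)) (FreeGroup.mk w) := by
  rw [FreeGroup.lift_mk]
  induction w with
  | nil => simp [subst, FreeGroup.one_eq_mk]
  | cons p w ih =>
    have h1 : subst V (p :: w) = cond p.2 (V p.1) (FreeGroup.invRev (V p.1)) ++ subst V w := by
      simp [subst, List.flatMap_cons]
    rw [h1, ← FreeGroup.mul_mk, ih, List.map_cons, List.prod_cons]
    congr 1
    cases p.2
    · simp [FreeGroup.inv_mk]
    · simp

theorem computable_subst {k l : ℕ} (V : Fin k → List (Fin l × Bool)) :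
    Computable (subst V) := by
  have h : Primrec (fun p : Fin k × Bool => cond p.2 (V p.1) (FreeGroup.invRev (V p.1))) :=
    Primrec.dom_finite _
  exact (Primrec.list_flatMap Primrec.id (h.comp Primrec.snd).to₂).to_comp

end Words

section Series

theorem mem_map_ds {G H : Type*} [Group G] [Group H] (f : G →* H) {n : ℕ} {z : G}
    (h : z ∈ derivedSeries G n) : f z ∈ derivedSeries H n :=
  map_derivedSeries_le_derivedSeries f n ⟨z, h, rfl⟩

/-- A homomorphism into the commutator subgroup raises the derived length by one. -/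
theorem map_ds_succ {G H : Type*} [Group G] [Group H] (f : G →* H)
    (hf : ∀ z, f z ∈ derivedSeries H 1) (n : ℕ) :
    (derivedSeries G n).map f ≤ derivedSeries H (n + 1) := by
  induction n with
  | zero =>
    rintro _ ⟨z, _, rfl⟩
    exact hf z
  | succ n ih =>
    rw [derivedSeries_succ, Subgroup.map_commutator, derivedSeries_succ H (n + 1)]
    exact Subgroup.commutator_mono ih ih

theorem map_nc_le {G H : Type*} [Group G] [Group H] (f : G →* H) (r : G) :
    (Subgroup.normalClosure {r}).map f ≤ Subgroup.normalClosure {f r} := by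
  rw [Subgroup.map_le_iff_le_comap]
  apply Subgroup.normalClosure_le_normal
  rintro _ rfl
  exact Subgroup.subset_normalClosure rfl

theorem nc_le_ker {G H : Type*} [Group G] [Group H] (f : G →* H) {r : G} (h : f r = 1) :
    Subgroup.normalClosure {r} ≤ f.ker := by
  apply Subgroup.normalClosure_le_normal
  rintro _ rfl
  exact h

end Series

section Wreath

variable {G : Type*} [Group G]

/-- The unrestricted wreath product with the integers. -/
abbrev W (G : Type*) := RegularWreathProduct G (Multiplicative ℤ)

/-- Elements of the base with all coordinates in a term of the derived series. -/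
def S (G : Type*) [Group G] (j : ℕ) : Subgroup (W G) where
  carrier := {q | q.right = 1 ∧ ∀ z, q.left z ∈ derivedSeries G j}
  one_mem' := ⟨rfl, fun z => Subgroup.one_mem _⟩
  mul_mem' := by
    rintro a b ⟨a1, a2⟩ ⟨b1, b2⟩
    refine ⟨by simp [a1, b1], fun z => ?_⟩
    simp only [RegularWreathProduct.mul_left, Pi.mul_apply]
    exact Subgroup.mul_mem _ (a2 z) (b2 _)
  inv_mem' := by
    rintro a ⟨a1, a2⟩
    refine ⟨by simp [a1], fun z => ?_⟩
    simp only [RegularWreathProduct.inv_left, Pi.inv_apply]
    exact Subgroup.inv_mem _ (a2 _)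

theorem ds_le_S (j : ℕ) : derivedSeries (W G) (j + 1) ≤ S G j := by
  induction j with
  | zero =>
    intro q hq
    rw [zero_add, derivedSeries_one] at hq
    refine ⟨?_, fun z => by simp⟩
    exact Abelianization.commutator_subset_ker
      (RegularWreathProduct.rightHom : W G →* Multiplicative ℤ) hq
  | succ j ih =>
    rw [derivedSeries_succ]
    refine (Subgroup.commutator_mono ih ih).trans ?_
    rw [Subgroup.commutator_le]
    rintro a ⟨a1, a2⟩ b ⟨b1, b2⟩
    refine ⟨by simp [commutatorElement_def, a1, b1], fun z => ?_⟩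
    rw [derivedSeries_succ]
    have h : (⁅a, b⁆ : W G).left z = ⁅a.left z, b.left z⁆ := by
      simp [commutatorElement_def, a1, b1, mul_assoc]
    rw [h]
    exact Subgroup.commutator_mem_commutator (a2 z) (b2 z)

theorem ds_W {n : ℕ} (h : derivedSeries G n = ⊥) : derivedSeries (W G) (n + 1) = ⊥ := by
  rw [eq_bot_iff]
  intro q hq
  obtain ⟨h1, h2⟩ := ds_le_S n hq
  rw [Subgroup.mem_bot]
  ext z
  · have := h2 z
    rw [h, Subgroup.mem_bot] at this
    simpa using this
  · simpa using h1

/-- The base. -/
def base : (Multiplicative ℤ → G) →* W G where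
  toFun f := ⟨f, 1⟩
  map_one' := rfl
  map_mul' f g := by
    ext z
    · simp
    · simp

end Wreath

section Step

/-- The substitution. -/
def phi : F →* F := FreeGroup.lift ![c, y * c * y⁻¹]

theorem phi_x : phi x = c := by simp [phi, x]
theorem phi_y : phi y = y * c * y⁻¹ := by simp [phi, y]

theorem phi_mem (z : F) : phi z ∈ derivedSeries F 1 := by
  have h : phi.range ≤ derivedSeries F 1 := by
    rw [phi, FreeGroup.range_lift_eq_closure, Subgroup.closure_le]
    rintro _ ⟨i, rfl⟩
    fin_cases i
    · exact c_mem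
    · exact (derivedSeries_normal F 1).conj_mem c c_mem y
  exact h ⟨z, rfl⟩

variable {G : Type*} [Group G]

/-- The two coordinate functions. -/
def dd (X Y : G) (z : Multiplicative ℤ) : G :=
  if z.toAdd = 0 then Y else if z.toAdd = 1 then X else 1

/-- The function of the first generator. -/
def ff (X Y : G) (z : Multiplicative ℤ) : G :=
  if z.toAdd < 0 then 1 else if z.toAdd = 0 then Y else X * Y

/-- The shift. -/
def tt (G : Type*) [Group G] : W G := ⟨1, Multiplicative.ofAdd 1⟩

/-- The homomorphism to the wreath product. -/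
def psi (X Y : G) : F →* W G := FreeGroup.lift ![⟨ff X Y, 1⟩, tt G]

theorem psi_x (X Y : G) : psi X Y x = ⟨ff X Y, 1⟩ := by simp [psi, x]
theorem psi_y (X Y : G) : psi X Y y = tt G := by simp [psi, y]

theorem toAdd_shift (z : Multiplicative ℤ) :
    ((Multiplicative.ofAdd 1)⁻¹ * z).toAdd = z.toAdd - 1 := by
  rw [toAdd_mul, toAdd_inv, toAdd_ofAdd]
  ring

theorem psi_c (X Y : G) : psi X Y c = base (dd X Y) := by
  rw [c, map_mul, map_mul, map_mul, map_inv, map_inv, psi_x, psi_y]
  ext z
  · simp only [RegularWreathProduct.mul_left, RegularWreathProduct.inv_left, tt, base,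
      MonoidHom.coe_mk, OneHom.coe_mk, Pi.mul_apply, Pi.inv_apply, Pi.one_apply, inv_one, one_mul,
      mul_one, RegularWreathProduct.mul_right, RegularWreathProduct.inv_right]
    unfold ff dd
    rw [toAdd_shift]
    split_ifs <;> first
      | (exfalso; omega)
      | simp
  · simp [tt, base]

/-- The shifted function. -/
def sh (f : Multiplicative ℤ → G) (z : Multiplicative ℤ) : G := f ((Multiplicative.ofAdd 1)⁻¹ * z)

theorem tt_conj (f : Multiplicative ℤ → G) : tt G * base f * (tt G)⁻¹ = base (sh f) := by
  ext z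
  · simp [tt, base, sh]
  · simp [tt, base]

/-- The coordinates of the image of the substitution. -/
def DD (X Y : G) : F →* (Multiplicative ℤ → G) := FreeGroup.lift ![dd X Y, sh (dd X Y)]

theorem psi_phi (X Y : G) (w : F) : psi X Y (phi w) = base (DD X Y w) := by
  have h : (psi X Y).comp phi = base.comp (DD X Y) := by
    ext1 i
    fin_cases i
    · change psi X Y (phi x) = base (DD X Y x)
      rw [phi_x, psi_c]
      congr 1
      simp [DD, x]
    · change psi X Y (phi y) = base (DD X Y y)
      rw [phi_y, map_mul, map_mul, map_inv, psi_y, psi_c, tt_conj]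
      congr 1
      simp [DD, y]
  exact DFunLike.congr_fun h w

theorem DD_apply (X Y : G) (w : F) (z : Multiplicative ℤ) :
    DD X Y w z = FreeGroup.lift ![dd X Y z, sh (dd X Y) z] w := by
  have h : (Pi.evalMonoidHom (fun _ : Multiplicative ℤ => G) z).comp (DD X Y) =
      FreeGroup.lift ![dd X Y z, sh (dd X Y) z] := by
    ext1 i
    fin_cases i
    · simp [DD]
    · simp [DD]
  exact DFunLike.congr_fun h w

theorem pos_of_mem {r : F} (hr : r ∈ derivedSeries F 1) : pos r = 1 := by
  rw [derivedSeries_one] at hr
  exact Abelianization.commutator_subset_ker pos hr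

theorem lift_left (g : G) {r : F} (hr : pos r = 1) : FreeGroup.lift ![g, 1] r = 1 := by
  let e : Multiplicative (ℤ × ℤ) →* Multiplicative ℤ := AddMonoidHom.toMultiplicative
    (AddMonoidHom.fst ℤ ℤ)
  have h : FreeGroup.lift ![g, 1] = (zpowersHom G g).comp (e.comp pos) := by
    ext1 i
    fin_cases i
    · simp [pos, e]
    · simp [pos, e]
  rw [h]
  simp [hr]

theorem lift_right (g : G) {r : F} (hr : pos r = 1) : FreeGroup.lift ![1, g] r = 1 := by
  let e : Multiplicative (ℤ × ℤ) →* Multiplicative ℤ := AddMonoidHom.toMultiplicative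
    (AddMonoidHom.snd ℤ ℤ)
  have h : FreeGroup.lift ![1, g] = (zpowersHom G g).comp (e.comp pos) := by
    ext1 i
    fin_cases i
    · simp [pos, e]
    · simp [pos, e]
  rw [h]
  simp [hr]

theorem DD_one (X Y : G) (w : F) : DD X Y w (Multiplicative.ofAdd 1) = FreeGroup.lift ![X, Y] w := by
  have h1 : dd X Y (Multiplicative.ofAdd 1) = X := by simp [dd]
  have h2 : sh (dd X Y) (Multiplicative.ofAdd 1) = Y := by simp [sh, dd]
  rw [DD_apply, h1, h2]

theorem DD_rel (X Y : G) {r : F} (hr : pos r = 1) (h : FreeGroup.lift ![X, Y] r = 1) :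
    DD X Y r = 1 := by
  funext z
  rw [Pi.one_apply]
  by_cases h1 : z.toAdd = 1
  · have : z = Multiplicative.ofAdd 1 := by rw [← h1, ofAdd_toAdd]
    rw [this, DD_one, h]
  rw [DD_apply]
  by_cases h0 : z.toAdd = 0
  · have h2 : sh (dd X Y) z = 1 := by
      unfold sh dd
      rw [toAdd_shift, if_neg (by omega), if_neg (by omega)]
    rw [h2]
    exact lift_left _ hr
  · have h2 : dd X Y z = 1 := by
      unfold dd
      rw [if_neg h0, if_neg h1]
    rw [h2]
    exact lift_right _ hr

/-- **One step up in the derived length.** -/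
theorem step_iff (n : ℕ) {r : F} (hr : r ∈ derivedSeries F 1) (w : F) :
    w ∈ derivedSeries F n ⊔ Subgroup.normalClosure {r} ↔
      phi w ∈ derivedSeries F (n + 1) ⊔ Subgroup.normalClosure {phi r} := by
  constructor
  · intro h
    have h1 : (derivedSeries F n ⊔ Subgroup.normalClosure {r}).map phi ≤
        derivedSeries F (n + 1) ⊔ Subgroup.normalClosure {phi r} := by
      rw [Subgroup.map_sup]
      exact sup_le_sup (map_ds_succ phi phi_mem n) (map_nc_le phi r)
    exact h1 ⟨w, h, rfl⟩
  · intro h
    have hn : (derivedSeries F n).Normal := derivedSeries_normal F n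
    let N : Subgroup F := derivedSeries F n ⊔ Subgroup.normalClosure {r}
    have hN : N.Normal := inferInstance
    let q : F →* F ⧸ N := QuotientGroup.mk' N
    have hq : Function.Surjective q := QuotientGroup.mk'_surjective N
    have hds : derivedSeries (F ⧸ N) n = ⊥ := by
      rw [← map_derivedSeries_eq hq, eq_bot_iff]
      rintro _ ⟨z, hz, rfl⟩
      rw [Subgroup.mem_bot]
      exact (QuotientGroup.eq_one_iff z).2 (Subgroup.mem_sup_left hz)
    have hW := ds_W hds
    have hlift : FreeGroup.lift ![q x, q y] = q := by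
      ext1 i
      fin_cases i
      · simp [x]
      · simp [y]
    have hr1 : q r = 1 := (QuotientGroup.eq_one_iff r).2
      (Subgroup.mem_sup_right (Subgroup.subset_normalClosure rfl))
    have hker : derivedSeries F (n + 1) ⊔ Subgroup.normalClosure {phi r} ≤
        (psi (q x) (q y)).ker := by
      apply sup_le
      · intro z hz
        have := mem_map_ds (psi (q x) (q y)) hz
        rw [hW, Subgroup.mem_bot] at this
        exact this
      · apply nc_le_ker
        rw [psi_phi, DD_rel _ _ (pos_of_mem hr) (by rw [hlift, hr1]), map_one]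
    have h1 : psi (q x) (q y) (phi w) = 1 := hker h
    rw [psi_phi] at h1
    have h2 : DD (q x) (q y) w = 1 := congrArg RegularWreathProduct.left h1
    have h3 : DD (q x) (q y) w (Multiplicative.ofAdd 1) = 1 := by rw [h2]; rfl
    rw [DD_one, hlift] at h3
    exact (QuotientGroup.eq_one_iff w).1 h3

end Step

section Rank

variable {k l : ℕ}

/-- More generators. -/
def up (h : k ≤ l) : FreeGroup (Fin k) →* FreeGroup (Fin l) :=
  FreeGroup.lift fun i => FreeGroup.of (Fin.castLE h i)

/-- The retraction. -/
def down (k l : ℕ) : FreeGroup (Fin l) →* FreeGroup (Fin k) :=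
  FreeGroup.lift fun i => if h : i.1 < k then FreeGroup.of ⟨i.1, h⟩ else 1

theorem down_up (h : k ≤ l) (w : FreeGroup (Fin k)) : down k l (up h w) = w := by
  have e : (down k l).comp (up h) = MonoidHom.id _ := by
    ext1 i
    simp [down, up]
  exact DFunLike.congr_fun e w

theorem rank_iff (h : k ≤ l) (n : ℕ) (r w : FreeGroup (Fin k)) :
    w ∈ derivedSeries (FreeGroup (Fin k)) n ⊔ Subgroup.normalClosure {r} ↔
      up h w ∈ derivedSeries (FreeGroup (Fin l)) n ⊔ Subgroup.normalClosure {up h r} := by
  constructor
  · intro hw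
    have h1 : (derivedSeries (FreeGroup (Fin k)) n ⊔ Subgroup.normalClosure {r}).map (up h) ≤
        derivedSeries (FreeGroup (Fin l)) n ⊔ Subgroup.normalClosure {up h r} := by
      rw [Subgroup.map_sup]
      exact sup_le_sup (map_derivedSeries_le_derivedSeries _ n) (map_nc_le _ r)
    exact h1 ⟨w, hw, rfl⟩
  · intro hw
    have h1 : (derivedSeries (FreeGroup (Fin l)) n ⊔ Subgroup.normalClosure {up h r}).map
        (down k l) ≤ derivedSeries (FreeGroup (Fin k)) n ⊔ Subgroup.normalClosure {r} := by
      rw [Subgroup.map_sup]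
      refine sup_le_sup (map_derivedSeries_le_derivedSeries _ n) ?_
      have := map_nc_le (down k l) (up h r)
      rwa [down_up] at this
    have h2 := h1 ⟨_, hw, rfl⟩
    rwa [down_up] at h2

end Rank

section Hard

/-- The word problem. -/
def WP (n k : ℕ) (r : FreeGroup (Fin k)) (w : List (Fin k × Bool)) : Prop :=
  FreeGroup.mk w ∈ derivedSeries (FreeGroup (Fin k)) n ⊔ Subgroup.normalClosure {r}

/-- Every recursively enumerable set of numbers is many-one reducible to the word problem. -/
def Hard (n k : ℕ) (r : FreeGroup (Fin k)) : Prop :=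
  ∀ p : ℕ → Prop, REPred p → p ≤₀ WP n k r

theorem hard_of_subst {n n' k l : ℕ} {r : FreeGroup (Fin k)} {r' : FreeGroup (Fin l)}
    (V : Fin k → List (Fin l × Bool))
    (h : ∀ w : FreeGroup (Fin k), w ∈ derivedSeries (FreeGroup (Fin k)) n ⊔
      Subgroup.normalClosure {r} ↔ FreeGroup.lift (fun i => FreeGroup.mk (V i)) w ∈
        derivedSeries (FreeGroup (Fin l)) n' ⊔ Subgroup.normalClosure {r'})
    (hr : Hard n k r) : Hard n' l r' := by
  intro p hp
  refine (hr p hp).trans ⟨subst V, computable_subst V, fun w => ?_⟩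
  unfold WP
  rw [mk_subst, h]

theorem hard_step {n : ℕ} {r : F} (hr : r ∈ derivedSeries F 1) (h : Hard n 2 r) :
    Hard (n + 1) 2 (phi r) := by
  refine hard_of_subst (n' := n + 1) (r' := phi r)
    ![[(0, true), (1, true), (0, false), (1, false)],
      [(1, true), (0, true), (1, true), (0, false), (1, false), (1, false)]] (fun w => ?_) h
  have e : FreeGroup.lift (fun i => FreeGroup.mk ((![[(0, true), (1, true), (0, false),
      (1, false)], [(1, true), (0, true), (1, true), (0, false), (1, false), (1, false)]] :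
      Fin 2 → List (Fin 2 × Bool)) i)) = phi := by
    ext1 i
    fin_cases i
    · simp [phi, c, x, y, FreeGroup.of, FreeGroup.mul_mk, FreeGroup.inv_mk, FreeGroup.invRev]
    · simp [phi, c, x, y, FreeGroup.of, FreeGroup.mul_mk, FreeGroup.inv_mk, FreeGroup.invRev]
  rw [e]
  exact step_iff n hr w

theorem hard_rank {n k l : ℕ} (hkl : k ≤ l) {r : FreeGroup (Fin k)} (h : Hard n k r) :
    Hard n l (up hkl r) := by
  refine hard_of_subst (r' := up hkl r) (fun i => [(Fin.castLE hkl i, true)]) (fun w => ?_) h
  exact rank_iff hkl n r w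

theorem rel_mem {ι : Type} [Fintype ι] (R : Rules ι) : rel R ∈ derivedSeries F 1 := by
  have hn : (derivedSeries F 1).Normal := derivedSeries_normal F 1
  unfold rel
  refine mul_mem s_mem (inv_mem (Subgroup.list_prod_mem _ ?_))
  intro z hz
  rw [List.mem_map] at hz
  obtain ⟨i, _, rfl⟩ := hz
  exact E_mem _ (sg_mem _)

/-- The halting problem is many-one complete. -/
theorem halting_hard (p : ℕ → Prop) (hp : REPred p) :
    p ≤₀ fun c : Nat.Partrec.Code => (c.eval 0).Dom := by
  have h1 : Partrec fun m : ℕ => (Part.assert (p m.unpair.1) fun _ => Part.some (0 : ℕ)) := by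
    have h2 : Partrec fun m : ℕ => Part.assert (p m.unpair.1) fun _ => Part.some () :=
      hp.comp (Primrec.fst.comp Primrec.unpair).to_comp
    exact (h2.map (Computable.const 0).to₂).of_eq fun m => by
      ext
      simp [eq_comm]
  obtain ⟨c, hc⟩ := Nat.Partrec.Code.exists_code.1 (Partrec.nat_iff.1 h1)
  refine ⟨fun n => Nat.Partrec.Code.curry c n,
    (Nat.Partrec.Code.primrec₂_curry.comp (Primrec.const c) Primrec.id).to_comp, fun n => ?_⟩
  change p n ↔ ((Nat.Partrec.Code.curry c n).eval 0).Dom
  rw [Nat.Partrec.Code.eval_curry, hc]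
  have h2 : (Nat.unpair (Nat.pair n 0)).1 = n := by rw [Nat.unpair_pair]
  exact ⟨fun h => ⟨h2.symm ▸ h, trivial⟩, fun ⟨h, _⟩ => h2 ▸ h⟩

theorem hard_base : ∃ r : F, r ∈ derivedSeries F 1 ∧ Hard 3 2 r := by
  classical
  let f : ℕ →. ℕ := fun m => (Denumerable.ofNat Nat.Partrec.Code m).eval 0
  have hf : Partrec f :=
    Nat.Partrec.Code.eval_part.comp (Computable.ofNat _) (Computable.const 0)
  obtain ⟨c, hc⟩ := Turing.ToPartrec.Code.exists_code (Nat.Partrec'.part_iff₁.2 hf)
  obtain ⟨Γ, Λ, i1, i2, i3, i4, i5, M, g0, gb, hM⟩ := exists_tm c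
  have : Finite (snake M).Idx := inferInstance
  have : Fintype (snake M).Idx := Fintype.ofFinite _
  let e : Sym Γ Λ ≃ Fin (Fintype.card (Sym Γ Λ)) := Fintype.equivFin _
  refine ⟨rel ((snake M).rules e).toRules, rel_mem _, fun p hp => ?_⟩
  refine (halting_hard p hp).trans (ManyOneReducible.trans
    (q := fun m : ℕ => (f m).Dom) ⟨Encodable.encode, Computable.encode, fun a => by simp [f]⟩ ?_)
  refine ⟨_, (primrec_rword (Fintype.card (Sym Γ Λ)) (e (true, Role.E, blank))
      (e (true, Role.D, blank)) (e (true, Role.D, (some default, g0)))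
      (e (true, Role.L, blank)) (fun b => (e (true, Role.D, (none, gb b)) : ℕ))).to_comp,
      fun n => ?_⟩
  refine Iff.trans (Iff.trans ?_ (hM n).symm) (rword_iff g0 gb n M e).symm
  change (f n).Dom ↔ (c.eval [n]).Dom
  have h1 := hc ⟨[n], rfl⟩
  have h2 : c.eval [n] = pure <$> f n := h1
  rw [h2]
  rfl

theorem hard_two (n : ℕ) (hn : 3 ≤ n) : ∃ r : F, r ∈ derivedSeries F 1 ∧ Hard n 2 r := by
  induction n, hn using Nat.le_induction with
  | base => exact hard_base
  | succ n _ ih =>
    obtain ⟨r, h1, h2⟩ := ih
    exact ⟨phi r, phi_mem r, hard_step h1 h2⟩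

/-- **For every `n ≥ 3` and every rank `k ≥ 2` some one-relator group of the variety of soluble
groups of derived length at most `n` has a many-one complete word problem.** -/
theorem hard_all (n k : ℕ) (hn : 3 ≤ n) (hk : 2 ≤ k) : ∃ r : FreeGroup (Fin k), Hard n k r := by
  obtain ⟨r, _, h⟩ := hard_two n hn
  exact ⟨_, hard_rank hk h⟩

/-- A many-one complete word problem is not computable. -/
theorem not_computable {n k : ℕ} {r : FreeGroup (Fin k)} (h : Hard n k r) :
    ¬ ComputablePred (WP n k r) := by
  intro hc
  have h1 : REPred fun m : ℕ => ((Denumerable.ofNat Nat.Partrec.Code m).eval 0).Dom :=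
    (Nat.Partrec.Code.eval_part.comp (Computable.ofNat _) (Computable.const 0)).dom_re
  have h2 := ComputablePred.computable_of_manyOneReducible (h _ h1) hc
  apply ComputablePred.halting_problem 0
  have h3 : ComputablePred fun c : Nat.Partrec.Code =>
      ((Denumerable.ofNat Nat.Partrec.Code (Encodable.encode c)).eval 0).Dom :=
    ComputablePred.computable_of_manyOneReducible
      ⟨Encodable.encode, Computable.encode, fun _ => Iff.rfl⟩ h2
  refine h3.of_eq fun c => ?_
  simp

end Hard

end Pool.Agent.OneRel.AllN
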