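import Mathlib

/-!
# One-relator groups in the variety of soluble groups of derived length three

Basic definitions: the free group of rank two, its commutator `c`, the conjugates of `c`,
the operators `op`, the relator attached to a finite family of rules.
-/

set_option autoImplicit false

namespace Pool.Agent.OneRel

open scoped commutatorElement

/-- The free group of rank two. -/
abbrev F : Type := FreeGroup (Fin 2)

def x : F := FreeGroup.of 0
def y : F := FreeGroup.of 1
/-- The commutator of the two generators. -/
def c : F := x * y * x⁻¹ * y⁻¹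
/-- The square of the commutator of the two generators. -/
def s : F := c * c
/-- The normal form `x ^ i * y ^ j`. -/
def g (u : ℤ × ℤ) : F := x ^ u.1 * y ^ u.2
/-- The conjugate of `c` by `g u`. -/
def cw (u : ℤ × ℤ) : F := g u * c * (g u)⁻¹

/-- The multiplicative form of the operator `1 + c_u` (flag `true`) or `1 - c_u`
(flag `false`). -/
def op (p : (ℤ × ℤ) × Bool) (W : F) : F :=
  W * (if p.2 then cw p.1 * W * (cw p.1)⁻¹ else (cw p.1 * W * (cw p.1)⁻¹)⁻¹)

/-- Product of the operators `op`. -/
def E (L : List ((ℤ × ℤ) × Bool)) (W : F) : F := L.foldr op W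

/-- A family of rules indexed by `ι`: a list of conditions and a move. -/
structure Rules (ι : Type) where
  L : ι → List ((ℤ × ℤ) × Bool)
  h : ι → ℤ × ℤ

/-- The conjugate of `s` at the position `v`. -/
def sg (v : ℤ × ℤ) : F := g v * s * (g v)⁻¹

/-- The relator attached to a family of rules. -/
noncomputable def rel {ι : Type} [Fintype ι] (R : Rules ι) : F :=
  s * ((Finset.univ.toList.map fun i => E (R.L i) (sg (R.h i))).prod)⁻¹

/-- Translate a list of conditions. -/
def shift (v : ℤ × ℤ) (L : List ((ℤ × ℤ) × Bool)) : List ((ℤ × ℤ) × Bool) :=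
  L.map fun p => (v + p.1, p.2)

/-- The position of an element of the free group. -/
def pos : F →* Multiplicative (ℤ × ℤ) :=
  FreeGroup.lift ![Multiplicative.ofAdd (1, 0), Multiplicative.ofAdd (0, 1)]

theorem pos_x : pos x = Multiplicative.ofAdd (1, 0) := by simp [pos, x]
theorem pos_y : pos y = Multiplicative.ofAdd (0, 1) := by simp [pos, y]

theorem pos_g (u : ℤ × ℤ) : pos (g u) = Multiplicative.ofAdd u := by
  rw [g, map_mul, map_zpow, map_zpow, pos_x, pos_y, ← ofAdd_zsmul, ← ofAdd_zsmul, ← ofAdd_add]
  congr 1
  ext <;> simp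

/-- Modulo the derived subgroup every element is determined by its position. -/
theorem mk_eq_of_pos (a b : F) (h : pos a = pos b) : a⁻¹ * b ∈ commutator F := by
  let f : Multiplicative (ℤ × ℤ) →* Abelianization F :=
    { toFun := fun u => Abelianization.of x ^ (u.toAdd).1 * Abelianization.of y ^ (u.toAdd).2
      map_one' := by simp
      map_mul' := by
        intro u v
        simp only [toAdd_mul, Prod.fst_add, Prod.snd_add, zpow_add]
        exact mul_mul_mul_comm _ _ _ _ }
  have hf : (Abelianization.of : F →* Abelianization F) = f.comp pos := by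
    ext i
    fin_cases i
    · have := pos_x
      simp only [x] at this
      simp [f, this, x]
    · have := pos_y
      simp only [y] at this
      simp [f, this, y]
  have h2 : Abelianization.of (a⁻¹ * b) = 1 := by
    rw [hf, MonoidHom.comp_apply, map_mul pos, map_inv pos, h, inv_mul_cancel, map_one]
  have h3 : a⁻¹ * b ∈ (Abelianization.of (G := F)).ker := h2
  rwa [Abelianization.ker_of] at h3

theorem c_mem : c ∈ derivedSeries F 1 := by
  rw [derivedSeries_one]
  exact Subgroup.commutator_mem_commutator (Subgroup.mem_top x) (Subgroup.mem_top y)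

theorem s_mem : s ∈ derivedSeries F 1 := mul_mem c_mem c_mem

theorem cw_mem (u : ℤ × ℤ) : cw u ∈ derivedSeries F 1 :=
  (derivedSeries_normal F 1).conj_mem _ c_mem _

theorem sg_mem (u : ℤ × ℤ) : sg u ∈ derivedSeries F 1 :=
  (derivedSeries_normal F 1).conj_mem _ s_mem _

theorem op_mem {N : Subgroup F} [hN : N.Normal] (p : (ℤ × ℤ) × Bool) {W : F} (hW : W ∈ N) :
    op p W ∈ N := by
  unfold op
  refine mul_mem hW ?_
  split_ifs
  · exact hN.conj_mem _ hW _
  · exact inv_mem (hN.conj_mem _ hW _)

theorem E_mem {N : Subgroup F} [hN : N.Normal] (L : List ((ℤ × ℤ) × Bool)) {W : F} (hW : W ∈ N) :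
    E L W ∈ N := by
  induction L with
  | nil => exact hW
  | cons p L ih => exact op_mem p ih

theorem E_mem_two (L : List ((ℤ × ℤ) × Bool)) (hL : ∃ u, (u, false) ∈ L) {W : F}
    (hW : W ∈ derivedSeries F 1) : E L W ∈ derivedSeries F 2 := by
  have hn1 : (derivedSeries F 1).Normal := derivedSeries_normal F 1
  have hn2 : (derivedSeries F 2).Normal := derivedSeries_normal F 2
  obtain ⟨u, hu⟩ := hL
  induction L with
  | nil => simp at hu
  | cons p L ih =>
    rcases List.mem_cons.mp hu with h | h
    · subst h
      have h1 : E L W ∈ derivedSeries F 1 := E_mem L hW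
      have h2 : E ((u, false) :: L) W = ⁅E L W, cw u⁆ := by
        change op (u, false) (E L W) = _
        rw [op, commutatorElement_def]
        simp only [Bool.false_eq_true, if_false]
        group
      rw [h2, derivedSeries_succ]
      exact Subgroup.commutator_mem_commutator h1 (cw_mem u)
    · exact op_mem p (ih h)

/-- Modulo the second derived subgroup, the relator is the element `s`. -/
theorem rel_eq_s {ι : Type} [Fintype ι] (R : Rules ι) (hR : ∀ i, ∃ u, (u, false) ∈ R.L i) :
    ∃ d ∈ derivedSeries F 2, rel R = s * d := by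
  refine ⟨_, ?_, rfl⟩
  apply inv_mem
  apply Subgroup.list_prod_mem
  intro w hw
  rw [List.mem_map] at hw
  obtain ⟨i, _, rfl⟩ := hw
  exact E_mem_two _ (hR i) (sg_mem _)

end Pool.Agent.OneRel
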