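import Pool.Agent.OneRel.Raw

/-!
# Undecidability for a one-relator group of derived length three
-/

set_option autoImplicit false

namespace Pool.Agent.OneRel

open Turing

section Final

variable {Γ Λ : Type} [Inhabited Γ] [Inhabited Λ]

theorem mk1_nth_nat (l : List Γ) (i : ℕ) : (Tape.mk₁ l).nth (i : ℤ) = l.getI i := by
  rw [Tape.mk₁, Tape.mk₂]
  have := Tape.mk'_nth_nat (ListBlank.mk ([] : List Γ)) (ListBlank.mk l) i
  rw [ListBlank.nth_mk] at this
  exact this

theorem mk1_nth_neg (l : List Γ) (i : ℤ) (hi : i < 0) : (Tape.mk₁ l).nth i = default := by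
  obtain ⟨k, rfl⟩ : ∃ k : ℕ, i = Int.negSucc k := by
    cases i with
    | ofNat k => exact absurd hi (by simp)
    | negSucc k => exact ⟨k, rfl⟩
  rw [Tape.mk₁, Tape.mk₂, Tape.mk']
  simp [Tape.nth, ListBlank.nth_mk]

/-- The input tape. -/
def inp (g0 : Γ) (gb : Bool → Γ) (n : ℕ) : List Γ := g0 :: (Nat.bits n).reverse.map gb

variable (g0 : Γ) (gb : Bool → Γ) (n : ℕ)

theorem inp_far (X : ℤ) (hX : X < 0 + 2 ∨ ((Nat.bits n).length : ℤ) + 5 - 2 < X) :
    (Tape.mk₁ (inp g0 gb n)).nth (X - 2) = default := by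
  rcases hX with hX | hX
  · exact mk1_nth_neg _ _ (by omega)
  · obtain ⟨i, hi⟩ : ∃ i : ℕ, (i : ℤ) = X - 2 := ⟨(X - 2).toNat, by omega⟩
    rw [← hi, mk1_nth_nat, List.getI_eq_default]
    simp only [inp, List.length_cons, List.length_map, List.length_reverse]
    omega

theorem inv_init : Inv (TM0.init (inp g0 gb n) : TM0.Cfg Γ Λ) 0 ((Nat.bits n).length + 5) 2 :=
  ⟨by omega, by omega, fun X hX => inp_far g0 gb n X hX⟩

/-- The symbols of the first row. -/
def fsym (Λ : Type) [Inhabited Λ] (X : ℕ) : Sym Γ Λ :=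
  rowSym 0 0 ((Nat.bits n).length + 5) (cellOf (TM0.init (inp g0 gb n) : TM0.Cfg Γ Λ) 2) X

theorem fsym_eq (X : ℕ) (hX : X ≤ (Nat.bits n).length + 5) {K : ℕ} (e : Sym Γ Λ ≃ Fin K) :
    ((e (fsym g0 gb n Λ X)) : ℕ) = val (e (true, Role.E, blank)) (e (true, Role.D, blank))
      (e (true, Role.D, (some default, g0))) (e (true, Role.L, blank))
      (fun b => (e (true, Role.D, (none, gb b)) : ℕ)) n X := by
  have hd : dir 0 = true := by decide
  have hf : fsym g0 gb n Λ X = (true, if (X : ℤ) = 0 then Role.E else if (X : ℤ) =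
      ((Nat.bits n).length : ℤ) + 5 then Role.L else Role.D,
      (if (X : ℤ) = 2 then some default else none, (Tape.mk₁ (inp g0 gb n)).nth (X - 2))) := by
    simp only [fsym, rowSym, hd, if_true, cellOf, TM0.init]
  rw [hf, val]
  by_cases h0 : X = 0
  · subst h0
    rw [mk1_nth_neg _ _ (by norm_num)]
    simp [blank]
  by_cases h1 : X = 1
  · subst h1
    rw [mk1_nth_neg _ _ (by norm_num)]
    have : ¬ ((1 : ℤ) = ((Nat.bits n).length : ℤ) + 5) := by omega
    simp [blank, this]
  by_cases h2 : X = 2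
  · subst h2
    have : ¬ ((2 : ℤ) = ((Nat.bits n).length : ℤ) + 5) := by omega
    have h3 : ((2 : ℕ) : ℤ) - 2 = ((0 : ℕ) : ℤ) := by norm_num
    rw [h3, mk1_nth_nat]
    simp [this, inp]
  have e0 : ¬ ((X : ℤ) = 0) := by omega
  have e2 : ¬ ((X : ℤ) = 2) := by omega
  rw [if_neg h0, if_neg h1, if_neg h2, if_neg e0, if_neg e2]
  by_cases h3 : X = (Nat.bits n).length + 5
  · have e3 : (X : ℤ) = ((Nat.bits n).length : ℤ) + 5 := by omega
    rw [if_pos h3, if_pos e3, inp_far g0 gb n _ (by omega)]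
    rfl
  · have e3 : ¬ ((X : ℤ) = ((Nat.bits n).length : ℤ) + 5) := by omega
    rw [if_neg h3, if_neg e3]
    obtain ⟨i, rfl⟩ : ∃ i, X = i + 3 := ⟨X - 3, by omega⟩
    have h4 : ((i + 3 : ℕ) : ℤ) - 2 = ((i + 1 : ℕ) : ℤ) := by push_cast; ring
    rw [h4, mk1_nth_nat, inp, List.getI_cons_succ, Nat.add_sub_cancel, List.getI_eq_getElem?_getD,
      List.getElem?_map]
    cases (Nat.bits n).reverse[i]? <;> rfl

variable (Λ) in
/-- The first row. -/
def frow {K : ℕ} (e : Sym Γ Λ ≃ Fin K) : List ((ℤ × ℤ) × Fin K) :=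
  (List.range ((Nat.bits n).length + 6)).map
    fun X : ℕ => (((X : ℤ), (0 : ℤ)), e (fsym g0 gb n Λ X))

theorem mk_rword {K : ℕ} (e : Sym Γ Λ ≃ Fin K) :
    FreeGroup.mk (rword K (e (true, Role.E, blank)) (e (true, Role.D, blank))
      (e (true, Role.D, (some default, g0))) (e (true, Role.L, blank))
      (fun b => (e (true, Role.D, (none, gb b)) : ℕ)) n) =
    word (frow Λ g0 gb n e) ((Nat.bits n).length + 5, 0) := by
  rw [rword, mk_rE, word]
  congr 1
  · rw [rL, frow, List.map_flatMap, List.flatMap_map]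
    apply List.flatMap_congr
    intro X hX
    rw [List.mem_range] at hX
    rw [← fsym_eq g0 gb n X (by omega) e, blk, List.map_map]
    rw [← List.map_coe_finRange_eq_range, List.map_map]
    apply List.map_congr_left
    intro j _
    simp only [Function.comp_apply, Prod.mk.injEq, true_and]
    refine ⟨?_, ?_⟩
    · push_cast; ring_nf; try simp
    · rw [← decide_not]
      apply decide_eq_decide.mpr
      rw [ne_eq, Fin.ext_iff]
  · rw [mk_rconj, mk_rx, ← FreeGroup.mul_mk, mk_rc0, sg, s, micro]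
    push_cast
    simp

theorem frow_mem {K : ℕ} (e : Sym Γ Λ ≃ Fin K) (X : ℤ) (h0 : 0 ≤ X)
    (h1 : X ≤ (Nat.bits n).length + 5) :
    ((X, (0 : ℤ)), e (rowSym 0 0 ((Nat.bits n).length + 5)
      (cellOf (TM0.init (inp g0 gb n) : TM0.Cfg Γ Λ) 2) X)) ∈ frow Λ g0 gb n e := by
  obtain ⟨i, rfl⟩ : ∃ i : ℕ, X = (i : ℤ) := ⟨X.toNat, by omega⟩
  rw [frow, List.mem_map]
  exact ⟨i, by rw [List.mem_range]; omega, rfl⟩

theorem rword_iff (M : TM0.Machine Γ Λ) [Fintype (Sym Γ Λ)] [Fintype (snake M).Idx] {K : ℕ}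
    (e : Sym Γ Λ ≃ Fin K) :
    (FreeGroup.mk (rword K (e (true, Role.E, blank)) (e (true, Role.D, blank))
      (e (true, Role.D, (some default, g0))) (e (true, Role.L, blank))
      (fun b => (e (true, Role.D, (none, gb b)) : ℕ)) n) ∈
      derivedSeries F 3 ⊔ Subgroup.normalClosure {rel ((snake M).rules e).toRules}) ↔
    (StateTransition.eval (TM0.step M) (TM0.init (inp g0 gb n))).Dom := by
  rw [mk_rword]
  constructor
  · intro h
    by_contra hdom
    refine snake_word_not_mem M ((TM0.init (inp g0 gb n) : TM0.Cfg Γ Λ), 2) 0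
      ((Nat.bits n).length + 5) ?_ (inv_init g0 gb n) e (frow Λ g0 gb n e) ?_ h
    · intro b hb hb2
      apply hdom
      have : b ∈ StateTransition.eval (TM0.step M) (TM0.init (inp g0 gb n)) :=
        StateTransition.mem_eval.2 ⟨hb, hb2⟩
      exact this.1
    · intro q hq
      rw [frow, List.mem_map] at hq
      obtain ⟨X, hX, rfl⟩ := hq
      rw [List.mem_range] at hX
      have := diag_row M ((TM0.init (inp g0 gb n) : TM0.Cfg Γ Λ), 2) 0
        ((Nat.bits n).length + 5) 0 X (by omega) (by omega)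
      simp only [Nat.cast_zero, sub_zero, add_zero] at this
      rw [this]
      rfl
  · intro hdom
    obtain ⟨b, hb⟩ := Part.dom_iff_mem.1 hdom
    rw [StateTransition.mem_eval] at hb
    have key := dies_of_halts M e _ b hb.1 hb.2 0 0 ((Nat.bits n).length + 5) 2
      {q | q ∈ frow Λ g0 gb n e} (inv_init g0 gb n) (fun X h0 h1 => frow_mem g0 gb n e X h0 h1)
    have hd : dir 0 = true := by decide
    simp only [hd, xpos, if_true, zero_add, sub_zero, Nat.cast_zero] at key
    exact word_mem _ (Walker.reqs_ne (snake M) e) _ _ key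

end Final

/-- There is an element of the free group of rank two for which the word problem in the variety
of soluble groups of derived length at most three is undecidable. -/
theorem main : ∃ r : FreeGroup (Fin 2),
    ¬ ComputablePred (fun w : List (Fin 2 × Bool) =>
        FreeGroup.mk w ∈ derivedSeries (FreeGroup (Fin 2)) 3 ⊔ Subgroup.normalClosure {r}) := by
  classical
  obtain ⟨Γ, Λ, i1, i2, i3, i4, i5, M, g0, gb, hM⟩ := exists_universal
  haveI : Finite (snake M).Idx := inferInstance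
  haveI : Fintype (snake M).Idx := Fintype.ofFinite _
  let e : Sym Γ Λ ≃ Fin (Fintype.card (Sym Γ Λ)) := Fintype.equivFin _
  refine ⟨rel ((snake M).rules e).toRules, fun hc => hM ?_⟩
  refine (ComputablePred.computable_of_manyOneReducible
    ⟨_, (primrec_rword (Fintype.card (Sym Γ Λ)) (e (true, Role.E, blank))
      (e (true, Role.D, blank)) (e (true, Role.D, (some default, g0)))
      (e (true, Role.L, blank)) (fun b => (e (true, Role.D, (none, gb b)) : ℕ))).to_comp,
      fun n => Iff.rfl⟩ hc).of_eq ?_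
  intro n
  exact rword_iff g0 gb n M e

end Pool.Agent.OneRel
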