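import Pool.Agent.OneRel.Basic

/-!
# The negative direction: an infinite walk gives a non-trivial word
-/

set_option autoImplicit false

namespace Pool.Agent.OneRel

open scoped commutatorElement

/-- Bi-infinite orbits. -/
theorem exists_orbit {α : Type} (f : ℤ → Equiv.Perm α) (a0 : α) :
    ∃ a : ℤ → α, a 0 = a0 ∧ ∀ j, a (j + 1) = f j (a j) := by
  let up : ℕ → α := fun n => Nat.rec a0 (fun n b => f n b) n
  let dn : ℕ → α := fun n => Nat.rec a0 (fun n b => (f (-(n : ℤ) - 1)).symm b) n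
  refine ⟨fun j => if 0 ≤ j then up j.toNat else dn (-j).toNat, by simp [up], ?_⟩
  intro j
  rcases lt_trichotomy j (-1) with h | h | h
  · have h1 : ¬ (0 ≤ j + 1) := by omega
    have h2 : ¬ (0 ≤ j) := by omega
    simp only [h1, h2, if_false]
    obtain ⟨m, hm⟩ : ∃ m : ℕ, j = -(m : ℤ) - 1 := ⟨(-j - 1).toNat, by omega⟩
    have h3 : (-(j + 1)).toNat = m := by omega
    have h4 : (-j).toNat = m + 1 := by omega
    rw [h3, h4]
    change dn m = f j ((f (-(m : ℤ) - 1)).symm (dn m))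
    rw [← hm]; simp
  · subst h
    have h2 : ¬ (0 ≤ (-1 : ℤ)) := by omega
    simp only [h2, if_false]
    have h4 : (-(-1) : ℤ).toNat = 1 := by simp
    rw [h4]
    change a0 = f (-1) ((f (-((0 : ℕ) : ℤ) - 1)).symm a0)
    have h5 : (-((0 : ℕ) : ℤ) - 1) = -1 := by simp
    rw [h5]; simp
  · have h1 : 0 ≤ j + 1 := by omega
    have h2 : 0 ≤ j := by omega
    simp only [h1, h2, if_true]
    obtain ⟨m, hm⟩ : ∃ m : ℕ, j = (m : ℤ) := ⟨j.toNat, by omega⟩
    subst hm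
    have h3 : ((m : ℤ) + 1).toNat = m + 1 := by omega
    rw [h3, Int.toNat_natCast]

/-- Affine weighted shifts on functions `ℤ × ℤ → ℚ`. -/
@[ext]
structure WS where
  p : ℤ × ℤ
  w : ℤ × ℤ → ℚˣ
  t : ℤ × ℤ → ℚ

namespace WS

instance : Mul WS := ⟨fun a b => ⟨a.p + b.p, fun v => a.w v * b.w (v + a.p),
  fun v => a.w v * b.t (v + a.p) + a.t v⟩⟩
instance : One WS := ⟨⟨0, 1, 0⟩⟩
instance : Inv WS := ⟨fun a => ⟨-a.p, fun v => (a.w (v - a.p))⁻¹,
  fun v => -(((a.w (v - a.p))⁻¹ : ℚˣ) : ℚ) * a.t (v - a.p)⟩⟩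

@[simp] theorem mul_p (a b : WS) : (a * b).p = a.p + b.p := rfl
@[simp] theorem mul_w (a b : WS) (v : ℤ × ℤ) : (a * b).w v = a.w v * b.w (v + a.p) := rfl
@[simp] theorem mul_t (a b : WS) (v : ℤ × ℤ) :
    (a * b).t v = a.w v * b.t (v + a.p) + a.t v := rfl
@[simp] theorem one_p : (1 : WS).p = 0 := rfl
@[simp] theorem one_w (v : ℤ × ℤ) : (1 : WS).w v = 1 := rfl
@[simp] theorem one_t (v : ℤ × ℤ) : (1 : WS).t v = 0 := rfl
@[simp] theorem inv_p (a : WS) : a⁻¹.p = -a.p := rfl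
@[simp] theorem inv_w (a : WS) (v : ℤ × ℤ) : a⁻¹.w v = (a.w (v - a.p))⁻¹ := rfl
@[simp] theorem inv_t (a : WS) (v : ℤ × ℤ) :
    a⁻¹.t v = -(((a.w (v - a.p))⁻¹ : ℚˣ) : ℚ) * a.t (v - a.p) := rfl

theorem ext' {a b : WS} (h1 : a.p = b.p) (h2 : ∀ v, a.w v = b.w v) (h3 : ∀ v, a.t v = b.t v) :
    a = b := WS.ext h1 (funext h2) (funext h3)

instance : Group WS where
  mul_assoc a b c := by
    refine ext' ?_ ?_ ?_
    · simp [add_assoc]
    · intro v; simp [mul_assoc, add_assoc]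
    · intro v
      simp only [mul_t, mul_w, mul_p, Units.val_mul, add_assoc]
      ring
  one_mul a := by
    refine ext' ?_ ?_ ?_ <;> simp
  mul_one a := by
    refine ext' ?_ ?_ ?_ <;> simp
  inv_mul_cancel a := by
    refine ext' ?_ ?_ ?_
    · simp
    · intro v; simp [sub_eq_add_neg]
    · intro v; simp [sub_eq_add_neg]

/-- The position, as a homomorphism. -/
def pW : WS →* Multiplicative (ℤ × ℤ) where
  toFun a := Multiplicative.ofAdd a.p
  map_one' := rfl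
  map_mul' _ _ := rfl

/-- Forget the translation part. -/
def forget : WS →* WS where
  toFun a := ⟨a.p, a.w, 0⟩
  map_one' := rfl
  map_mul' a b := by
    refine ext' rfl (fun _ => rfl) (fun v => ?_)
    simp

/-- Translations. -/
def tr (τ : ℤ × ℤ → ℚ) : WS := ⟨0, 1, τ⟩

@[simp] theorem tr_p (τ : ℤ × ℤ → ℚ) : (tr τ).p = 0 := rfl
@[simp] theorem tr_w (τ : ℤ × ℤ → ℚ) (v : ℤ × ℤ) : (tr τ).w v = 1 := rfl
@[simp] theorem tr_t (τ : ℤ × ℤ → ℚ) (v : ℤ × ℤ) : (tr τ).t v = τ v := rfl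

theorem tr_mul (τ τ' : ℤ × ℤ → ℚ) : tr τ * tr τ' = tr (τ + τ') := by
  refine ext' ?_ ?_ ?_
  · simp
  · simp
  · intro v; simp [add_comm]

theorem tr_inv (τ : ℤ × ℤ → ℚ) : (tr τ)⁻¹ = tr (-τ) := by
  refine ext' ?_ ?_ ?_ <;> simp

theorem tr_zero : tr 0 = 1 := rfl

theorem conj_tr (a : WS) (τ : ℤ × ℤ → ℚ) :
    a * tr τ * a⁻¹ = tr (fun v => a.w v * τ (v + a.p)) := by
  refine ext' ?_ ?_ ?_
  · simp
  · intro v; simp
  · intro v
    have h : ((a.w v : ℚˣ) : ℚ) ≠ 0 := Units.ne_zero _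
    simp

theorem derived_one {a : WS} (ha : a ∈ derivedSeries WS 1) : a.p = 0 := by
  have h1 : derivedSeries WS 1 ≤ pW.ker := by
    rw [derivedSeries_one, commutator_def, Subgroup.commutator_le]
    intro a _ b _
    rw [MonoidHom.mem_ker, map_commutatorElement]
    exact commutatorElement_eq_one_iff_mul_comm.mpr (mul_comm _ _)
  have h2 : pW a = 1 := h1 ha
  exact Multiplicative.ofAdd.injective h2

/-- Elements with trivial linear part. -/
def K2 : Subgroup WS where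
  carrier := {a | a.p = 0 ∧ ∀ v, a.w v = 1}
  one_mem' := ⟨rfl, fun _ => rfl⟩
  mul_mem' := by
    rintro a b ⟨ha, ha'⟩ ⟨hb, hb'⟩
    exact ⟨by simp [ha, hb], fun v => by simp [ha', hb']⟩
  inv_mem' := by
    rintro a ⟨ha, ha'⟩
    exact ⟨by simp [ha], fun v => by simp [ha']⟩

theorem derived_two : derivedSeries WS 2 ≤ K2 := by
  rw [derivedSeries_succ, Subgroup.commutator_le]
  intro a ha b hb
  have ha' := derived_one ha
  have hb' := derived_one hb
  refine ⟨?_, fun v => ?_⟩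
  · simp [commutatorElement_def, ha', hb']
  · simp [commutatorElement_def, ha', hb']

theorem derived_three : derivedSeries WS 3 = ⊥ := by
  rw [derivedSeries_succ, eq_bot_iff, Subgroup.commutator_le]
  intro a ha b hb
  obtain ⟨ha1, ha2⟩ := derived_two ha
  obtain ⟨hb1, hb2⟩ := derived_two hb
  rw [Subgroup.mem_bot, commutatorElement_eq_one_iff_mul_comm]
  refine ext' ?_ ?_ ?_
  · simp [ha1, hb1]
  · intro v; simp [ha2, hb2]
  · intro v; simp [ha1, hb1, ha2, hb2, add_comm]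

end WS

open WS

/-- Signs. -/
def sgn (b : Bool) : ℚˣ := if b then 1 else -1

theorem sgn_mul_self (b : Bool) : sgn b * sgn b = 1 := by cases b <;> simp [sgn]
theorem sgn_inv (b : Bool) : (sgn b)⁻¹ = sgn b := by
  rw [inv_eq_iff_mul_eq_one]; exact sgn_mul_self b

/-- The homomorphism given by weights `a` and a translation `η`. -/
noncomputable def Phi (a : ℤ × ℤ → ℚˣ) (η : ℤ × ℤ → ℚ) : F →* WS :=
  FreeGroup.lift ![⟨(1, 0), a, η⟩, ⟨(0, 1), 1, 0⟩]

theorem Phi_x (a : ℤ × ℤ → ℚˣ) (η : ℤ × ℤ → ℚ) : Phi a η x = ⟨(1, 0), a, η⟩ := by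
  simp [Phi, x]
theorem Phi_y (a : ℤ × ℤ → ℚˣ) (η : ℤ × ℤ → ℚ) : Phi a η y = ⟨(0, 1), 1, 0⟩ := by
  simp [Phi, y]

theorem Phi_p (a : ℤ × ℤ → ℚˣ) (η : ℤ × ℤ → ℚ) (z : F) : (Phi a η z).p = (pos z).toAdd := by
  have h : pW.comp (Phi a η) = pos := by
    apply FreeGroup.ext_hom
    intro i
    fin_cases i
    · have := Phi_x a η
      have h2 := pos_x
      simp only [x] at this h2
      simp [this, h2, pW]
    · have := Phi_y a η
      have h2 := pos_y
      simp only [y] at this h2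
      simp [this, h2, pW]
  have h2 := DFunLike.congr_fun h z
  rw [← h2]; rfl

theorem Phi_w (a : ℤ × ℤ → ℚˣ) (η : ℤ × ℤ → ℚ) (z : F) : (Phi a η z).w = (Phi a 0 z).w := by
  have h : forget.comp (Phi a η) = forget.comp (Phi a 0) := by
    apply FreeGroup.ext_hom
    intro i
    fin_cases i
    · have := Phi_x a η
      have h2 := Phi_x a 0
      simp only [x] at this h2
      simp [this, h2, forget]
    · have := Phi_y a η
      have h2 := Phi_y a 0
      simp only [y] at this h2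
      simp [this, h2, forget]
  have h2 := congrArg WS.w (DFunLike.congr_fun h z)
  exact h2

/-- The weight of a list of conditions at a position. -/
def wt (χ : ℤ × ℤ → Bool) (L : List ((ℤ × ℤ) × Bool)) (v : ℤ × ℤ) : ℚ :=
  (L.map fun p => (1 : ℚ) + (sgn p.2 : ℚ) * (sgn (χ (v + p.1)) : ℚ)).prod

section

variable (χ : ℤ × ℤ → Bool) (a : ℤ × ℤ → ℚˣ) (ha : ∀ v, a (v + (0, 1)) = sgn (χ v) * a v)
  (φ η : ℤ × ℤ → ℚ) (hη : ∀ v, η v - (sgn (χ v) : ℚ) * η (v + (0, 1)) = φ v / 2)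
  (hφ : ∀ v, φ v ≠ 0 → χ v = true)

include ha hη in
theorem Phi_c : Phi a η c = ⟨0, fun v => sgn (χ v), fun v => φ v / 2⟩ := by
  have key : ∀ v, a v * (a (v + (0, 1)))⁻¹ = sgn (χ v) := by
    intro v
    rw [ha, mul_inv_rev, mul_inv_cancel_left, sgn_inv]
  rw [c, map_mul, map_mul, map_mul, map_inv, map_inv, Phi_x, Phi_y]
  have e1 : ∀ v : ℤ × ℤ, v + ((1, 0) + (0, 1)) - (1, 0) = v + (0, 1) := by
    intro v; ext <;> simp
  refine ext' ?_ ?_ ?_
  · simp
  · intro v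
    simp only [mul_w, inv_w, mul_p, Pi.one_apply, mul_one, inv_one, e1]
    exact key v
  · intro v
    simp only [mul_w, inv_w, mul_p, mul_t, inv_t, Pi.one_apply, Pi.zero_apply, mul_one, inv_one,
      mul_zero, zero_add, e1]
    rw [← hη v, ← key v]
    push_cast
    ring

include ha hη hφ in
theorem Phi_s : Phi a η s = tr φ := by
  rw [s, map_mul, Phi_c χ a ha φ η hη]
  refine ext' ?_ ?_ ?_
  · simp
  · intro v
    simp [sgn_mul_self]
  · intro v
    by_cases h : φ v = 0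
    · simp [h]
    · simp [hφ v h, sgn]

include ha hη hφ in
theorem Phi_sg (z : F) : Phi a η (z * s * z⁻¹) =
    tr (fun v => ((Phi a 0 z).w v : ℚ) * φ (v + (pos z).toAdd)) := by
  rw [map_mul, map_mul, map_inv, Phi_s χ a ha φ η hη hφ, conj_tr, Phi_w, Phi_p]

include ha hη in
theorem Phi_cw (u : ℤ × ℤ) : (Phi a η (cw u)).p = 0 ∧
    ∀ v, (Phi a η (cw u)).w v = sgn (χ (v + u)) := by
  rw [cw, map_mul, map_mul, map_inv, Phi_c χ a ha φ η hη]
  refine ⟨by simp, fun v => ?_⟩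
  have h1 : (Phi a η (g u)).p = u := by rw [Phi_p, pos_g, toAdd_ofAdd]
  simp only [mul_w, inv_w, mul_p, h1, add_zero, add_sub_cancel_right]
  rw [mul_comm, ← mul_assoc, inv_mul_cancel, one_mul]

include ha hη in
theorem Phi_op (p : (ℤ × ℤ) × Bool) (W : F) (τ : ℤ × ℤ → ℚ) (hW : Phi a η W = tr τ) :
    Phi a η (op p W) = tr (fun v => (1 + (sgn p.2 : ℚ) * (sgn (χ (v + p.1)) : ℚ)) * τ v) := by
  obtain ⟨u, b⟩ := p
  obtain ⟨h1, h2⟩ := Phi_cw χ a ha φ η hη u
  have h3 : Phi a η (cw u * W * (cw u)⁻¹) = tr (fun v => (sgn (χ (v + u)) : ℚ) * τ v) := by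
    rw [map_mul, map_mul, map_inv, hW, conj_tr]
    congr 1
    funext v
    rw [h2, h1, add_zero]
  cases b
  · simp only [op, Bool.false_eq_true, if_false]
    rw [map_mul, map_inv, h3, hW, tr_inv, tr_mul]
    congr 1
    funext v
    simp [sgn]
    ring
  · simp only [op, if_true]
    rw [map_mul, h3, hW, tr_mul]
    congr 1
    funext v
    simp [sgn]
    ring

include ha hη in
theorem Phi_E (L : List ((ℤ × ℤ) × Bool)) (W : F) (τ : ℤ × ℤ → ℚ) (hW : Phi a η W = tr τ) :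
    Phi a η (E L W) = tr (fun v => wt χ L v * τ v) := by
  induction L with
  | nil => simp [E, wt, hW]
  | cons p L ih =>
    have h1 : E (p :: L) W = op p (E L W) := rfl
    rw [h1, Phi_op χ a ha φ η hη p _ _ ih]
    congr 1
    funext v
    simp only [wt, List.map_cons, List.prod_cons]
    ring

include ha hη hφ in
theorem Phi_rel {ι : Type} [Fintype ι] (R : Rules ι)
    (hφ2 : ∀ v, φ v = ∑ i, wt χ (R.L i) v * (((Phi a 0 (g (R.h i))).w v : ℚ) *
      φ (v + R.h i))) : Phi a η (rel R) = 1 := by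
  have h1 : ∀ i, Phi a η (E (R.L i) (sg (R.h i))) =
      tr (fun v => wt χ (R.L i) v * (((Phi a 0 (g (R.h i))).w v : ℚ) * φ (v + R.h i))) := by
    intro i
    have h2 := Phi_E χ a ha φ η hη (R.L i) (sg (R.h i)) _ (Phi_sg χ a ha φ η hη hφ (g (R.h i)))
    rw [h2]
    congr 1
    funext v
    rw [pos_g, toAdd_ofAdd]
  have h2 : ∀ l : List ι, (l.map fun i => Phi a η (E (R.L i) (sg (R.h i)))).prod =
      tr (fun v => (l.map fun i => wt χ (R.L i) v *
        (((Phi a 0 (g (R.h i))).w v : ℚ) * φ (v + R.h i))).sum) := by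
    intro l
    induction l with
    | nil => simp only [List.map_nil, List.prod_nil, List.sum_nil]; rfl
    | cons i l ih =>
      rw [List.map_cons, List.prod_cons, ih, h1, tr_mul]
      congr 1
  rw [rel, map_mul, map_inv, map_list_prod, List.map_map]
  have h3 := h2 Finset.univ.toList
  have h4 : (List.map (⇑(Phi a η) ∘ fun i => E (R.L i) (sg (R.h i))) Finset.univ.toList).prod =
      (List.map (fun i => Phi a η (E (R.L i) (sg (R.h i)))) Finset.univ.toList).prod := rfl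
  rw [h4, h3, Phi_s χ a ha φ η hη hφ, tr_inv, tr_mul, ← tr_zero]
  congr 1
  funext v
  simp only [Finset.sum_map_toList, Pi.add_apply, Pi.neg_apply, Pi.zero_apply]
  rw [← hφ2 v]
  ring

end

theorem exists_eta (χ : ℤ × ℤ → Bool) (φ : ℤ × ℤ → ℚ) :
    ∃ η : ℤ × ℤ → ℚ, ∀ v, η v - (sgn (χ v) : ℚ) * η (v + (0, 1)) = φ v / 2 := by
  have h : ∀ i : ℤ, ∃ b : ℤ → ℚ, ∀ j, b (j + 1) = (sgn (χ (i, j)) : ℚ) * (b j - φ (i, j) / 2) := by
    intro i
    let f : ℤ → Equiv.Perm ℚ := fun j =>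
      (Equiv.subRight (φ (i, j) / 2)).trans (Units.mulLeft (sgn (χ (i, j))))
    obtain ⟨b, _, hb⟩ := exists_orbit f 0
    exact ⟨b, fun j => hb j⟩
  choose b hb using h
  refine ⟨fun v => b v.1 v.2, fun v => ?_⟩
  obtain ⟨i, j⟩ := v
  have h1 : (i, j) + ((0, 1) : ℤ × ℤ) = (i, j + 1) := by ext <;> simp
  rw [h1]
  change b i j - (sgn (χ (i, j)) : ℚ) * b i (j + 1) = _
  rw [hb i j]
  have h2 : (sgn (χ (i, j)) : ℚ) * (sgn (χ (i, j)) : ℚ) = 1 := by
    rw [← Units.val_mul, sgn_mul_self, Units.val_one]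
  rw [← mul_assoc, h2]
  ring

theorem exists_weights (χ : ℤ × ℤ → Bool) :
    ∃ a : ℤ × ℤ → ℚˣ, ∀ v, a (v + (0, 1)) = sgn (χ v) * a v := by
  have h : ∀ i : ℤ, ∃ b : ℤ → ℚˣ, ∀ j, b (j + 1) = sgn (χ (i, j)) * b j := by
    intro i
    let f : ℤ → Equiv.Perm ℚˣ := fun j => Equiv.mulLeft (sgn (χ (i, j)))
    obtain ⟨b, _, hb⟩ := exists_orbit f 1
    exact ⟨b, fun j => hb j⟩
  choose b hb using h
  refine ⟨fun v => b v.1 v.2, fun v => ?_⟩
  obtain ⟨i, j⟩ := v
  have h1 : (i, j) + ((0, 1) : ℤ × ℤ) = (i, j + 1) := by ext <;> simp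
  rw [h1]
  exact hb i j

/-- The negative direction, in terms of a function `φ`. -/
theorem not_mem_of_phi {ι : Type} [Fintype ι] (R : Rules ι) (χ : ℤ × ℤ → Bool)
    (a : ℤ × ℤ → ℚˣ) (ha : ∀ v, a (v + (0, 1)) = sgn (χ v) * a v)
    (φ : ℤ × ℤ → ℚ) (hφ : ∀ v, φ v ≠ 0 → χ v = true)
    (hφ2 : ∀ v, φ v = ∑ i, wt χ (R.L i) v * (((Phi a 0 (g (R.h i))).w v : ℚ) *
      φ (v + R.h i)))
    (S : List ((ℤ × ℤ) × Bool)) (v : ℤ × ℤ) (hS : ∀ p ∈ S, χ p.1 = p.2) (hv : φ v ≠ 0) :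
    E S (sg v) ∉ derivedSeries F 3 ⊔ Subgroup.normalClosure {rel R} := by
  obtain ⟨η, hη⟩ := exists_eta χ φ
  intro hmem
  have hle : derivedSeries F 3 ⊔ Subgroup.normalClosure {rel R} ≤ (Phi a η).ker := by
    apply sup_le
    · intro z hz
      have := map_derivedSeries_le_derivedSeries (Phi a η) 3 (Subgroup.mem_map_of_mem _ hz)
      rw [derived_three] at this
      exact this
    · apply Subgroup.normalClosure_le_normal
      rw [Set.singleton_subset_iff]
      exact Phi_rel χ a ha φ η hη hφ R hφ2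
  have h1 : Phi a η (E S (sg v)) = 1 := hle hmem
  rw [sg, Phi_E χ a ha φ η hη S _ _ (Phi_sg χ a ha φ η hη hφ (g v))] at h1
  have h2 := congrFun (congrArg WS.t h1) 0
  simp only [tr_t, one_t, pos_g, toAdd_ofAdd, zero_add] at h2
  have h3 : wt χ S 0 ≠ 0 := by
    unfold wt
    apply List.prod_ne_zero
    intro h0
    rw [List.mem_map] at h0
    obtain ⟨p, hp, hp2⟩ := h0
    rw [zero_add, hS p hp, ← Units.val_mul, sgn_mul_self] at hp2
    norm_num at hp2
  have h4 : ((Phi a 0 (g v)).w 0 : ℚ) ≠ 0 := Units.ne_zero _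
  exact (mul_ne_zero h3 (mul_ne_zero h4 hv)) h2

theorem wt_eq_zero (χ : ℤ × ℤ → Bool) (L : List ((ℤ × ℤ) × Bool)) (v : ℤ × ℤ)
    (h : ∃ p ∈ L, χ (v + p.1) ≠ p.2) : wt χ L v = 0 := by
  obtain ⟨p, hp, hne⟩ := h
  apply List.prod_eq_zero
  rw [List.mem_map]
  refine ⟨p, hp, ?_⟩
  have : sgn (χ (v + p.1)) = - sgn p.2 := by
    cases h1 : χ (v + p.1) <;> cases h2 : p.2 <;> simp_all [sgn]
  rw [this, Units.val_neg, mul_neg, ← Units.val_mul, sgn_mul_self]
  simp

theorem wt_ne_zero (χ : ℤ × ℤ → Bool) (L : List ((ℤ × ℤ) × Bool)) (v : ℤ × ℤ)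
    (h : ∀ p ∈ L, χ (v + p.1) = p.2) : wt χ L v ≠ 0 := by
  unfold wt
  apply List.prod_ne_zero
  intro h0
  rw [List.mem_map] at h0
  obtain ⟨p, hp, hp2⟩ := h0
  rw [h p hp, ← Units.val_mul, sgn_mul_self] at hp2
  norm_num at hp2

/-- The negative direction, in terms of an infinite walk. -/
theorem not_mem_of_path {ι : Type} [Fintype ι] (R : Rules ι) (χ : ℤ × ℤ → Bool)
    (path : ℕ → ℤ × ℤ) (rule : ℕ → ι) (hinj : Function.Injective path)
    (hstep : ∀ n, path (n + 1) = path n + R.h (rule n))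
    (hmatch : ∀ n, ∀ p ∈ R.L (rule n), χ (path n + p.1) = p.2)
    (hother : ∀ n i, i ≠ rule n → ∃ p ∈ R.L i, χ (path n + p.1) ≠ p.2)
    (hoff : ∀ v, v ∉ Set.range path → ∀ i,
      (∃ p ∈ R.L i, χ (v + p.1) ≠ p.2) ∨ v + R.h i ∉ Set.range path)
    (hχ : ∀ n, χ (path n) = true)
    (S : List ((ℤ × ℤ) × Bool)) (hS : ∀ p ∈ S, χ p.1 = p.2) :
    E S (sg (path 0)) ∉ derivedSeries F 3 ⊔ Subgroup.normalClosure {rel R} := by
  classical
  obtain ⟨a, ha⟩ := exists_weights χ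
  let om : ι → ℤ × ℤ → ℚ := fun i v => ((Phi a 0 (g (R.h i))).w v : ℚ)
  have hom : ∀ i v, om i v ≠ 0 := fun i v => Units.ne_zero _
  let ψ : ℕ → ℚ := fun n => Nat.rec 1
    (fun n b => b / (wt χ (R.L (rule n)) (path n) * om (rule n) (path n))) n
  have hψ : ∀ n, ψ n = wt χ (R.L (rule n)) (path n) * (om (rule n) (path n) * ψ (n + 1)) := by
    intro n
    have h1 := wt_ne_zero χ _ _ (hmatch n)
    have h2 := hom (rule n) (path n)
    change ψ n = wt χ (R.L (rule n)) (path n) * (om (rule n) (path n) *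
      (ψ n / (wt χ (R.L (rule n)) (path n) * om (rule n) (path n))))
    field_simp
  have hψ0 : ∀ n, ψ n ≠ 0 := by
    intro n
    induction n with
    | zero => exact one_ne_zero
    | succ n ih =>
      exact div_ne_zero ih (mul_ne_zero (wt_ne_zero χ _ _ (hmatch n)) (hom _ _))
  let φ : ℤ × ℤ → ℚ := fun v => if h : ∃ n, path n = v then ψ (Classical.choose h) else 0
  have hφpath : ∀ n, φ (path n) = ψ n := by
    intro n
    have h : ∃ m, path m = path n := ⟨n, rfl⟩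
    have h2 : φ (path n) = ψ (Classical.choose h) := dif_pos h
    rw [h2]
    congr 1
    exact hinj (Classical.choose_spec h)
  have hφoff : ∀ v, v ∉ Set.range path → φ v = 0 := fun v hv => dif_neg (fun h => hv h)
  refine not_mem_of_phi R χ a ha φ ?_ ?_ S (path 0) hS ?_
  · intro v hv
    by_contra hcon
    apply hv
    apply hφoff
    rintro ⟨n, rfl⟩
    exact hcon (hχ n)
  · intro v
    by_cases hv : v ∈ Set.range path
    · obtain ⟨n, rfl⟩ := hv
      rw [Finset.sum_eq_single (rule n)]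
      · rw [← hstep, hφpath, hφpath]
        exact hψ n
      · intro i _ hi
        rw [wt_eq_zero χ _ _ (hother n i hi), zero_mul]
      · intro h; exact absurd (Finset.mem_univ _) h
    · rw [hφoff v hv]
      symm
      apply Finset.sum_eq_zero
      intro i _
      rcases hoff v hv i with h | h
      · rw [wt_eq_zero χ _ _ h, zero_mul]
      · rw [hφoff _ h, mul_zero, mul_zero]
  · rw [hφpath]; exact hψ0 0

end Pool.Agent.OneRel
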