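import Pool.Agent.OneRel.Positive
import Pool.Agent.OneRel.Negative

/-!
# Symbols encoded by blocks of signs
-/

set_option autoImplicit false

namespace Pool.Agent.OneRel

/-- Rules on cells carrying symbols from `Fin K`. -/
structure MRules (ι : Type) (K : ℕ) where
  reqs : ι → List ((ℤ × ℤ) × Fin K)
  mv : ι → ℤ × ℤ

/-- The block of conditions saying that the cell `z` carries the symbol `k`. -/
def blk {K : ℕ} (q : (ℤ × ℤ) × Fin K) : List ((ℤ × ℤ) × Bool) :=
  (List.finRange K).map fun j : Fin K =>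
    ((((K : ℤ) + 1) * q.1.1 + 1 + ((j : ℕ) : ℤ), q.1.2), decide (j ≠ q.2))

/-- The site of a cell. -/
def micro (K : ℕ) (z : ℤ × ℤ) : ℤ × ℤ := (((K : ℤ) + 1) * z.1, z.2)

theorem micro_add (K : ℕ) (z z' : ℤ × ℤ) : micro K (z + z') = micro K z + micro K z' := by
  ext <;> simp [micro, mul_add]

theorem micro_injective (K : ℕ) : Function.Injective (micro K) := by
  intro z z' h
  simp only [micro, Prod.mk.injEq] at h
  have h0 : ((K : ℤ) + 1) ≠ 0 := by omega
  exact Prod.ext (mul_left_cancel₀ h0 h.1) h.2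

def MRules.toRules {ι : Type} {K : ℕ} (R : MRules ι K) : Rules ι where
  L i := (R.reqs i).flatMap blk
  h i := micro K (R.mv i)

/-- Translate a list of requirements. -/
def shiftM {K : ℕ} (Z : ℤ × ℤ) (L : List ((ℤ × ℤ) × Fin K)) : List ((ℤ × ℤ) × Fin K) :=
  L.map fun q => (Z + q.1, q.2)

theorem shift_blk {K : ℕ} (Z : ℤ × ℤ) (q : (ℤ × ℤ) × Fin K) :
    shift (micro K Z) (blk q) = blk (Z + q.1, q.2) := by
  simp only [shift, blk, List.map_map]
  apply List.map_congr_left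
  intro j _
  simp only [Function.comp_apply, Prod.mk.injEq, and_true]
  ext
  · simp [micro]; ring
  · simp [micro]

theorem shift_flatMap {K : ℕ} (Z : ℤ × ℤ) (L : List ((ℤ × ℤ) × Fin K)) :
    shift (micro K Z) (L.flatMap blk) = (shiftM Z L).flatMap blk := by
  induction L with
  | nil => rfl
  | cons q L ih =>
    have h1 : shift (micro K Z) ((q :: L).flatMap blk) =
        shift (micro K Z) (blk q) ++ shift (micro K Z) (L.flatMap blk) := by
      simp [shift, List.flatMap_cons]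
    rw [h1, ih, shift_blk]
    simp [shiftM, List.flatMap_cons]

/-- The dying predicate at the level of symbols. -/
inductive DiesM {ι : Type} {K : ℕ} (R : MRules ι K) : Set ((ℤ × ℤ) × Fin K) → ℤ × ℤ → Prop
  | intro (S : Set ((ℤ × ℤ) × Fin K)) (Z : ℤ × ℤ)
      (conf : ι → Prop)
      (h1 : ∀ i, conf i → ∃ z k k', k ≠ k' ∧ (z, k) ∈ S ∧ (z, k') ∈ shiftM Z (R.reqs i))
      (h2 : ∀ i, ¬ conf i → DiesM R (S ∪ {p | p ∈ shiftM Z (R.reqs i)}) (Z + R.mv i)) :
      DiesM R S Z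

/-- The set of micro conditions. -/
def microSet {K : ℕ} (S : Set ((ℤ × ℤ) × Fin K)) : Set ((ℤ × ℤ) × Bool) :=
  {p | ∃ q ∈ S, p ∈ blk q}

theorem dies_of_diesM {ι : Type} {K : ℕ} (R : MRules ι K) (S : Set ((ℤ × ℤ) × Fin K))
    (Z : ℤ × ℤ) (hd : DiesM R S Z) : Dies R.toRules (microSet S) (micro K Z) := by
  induction hd with
  | intro S Z conf h1 h2 ih =>
    refine Dies.intro _ _ conf ?_ ?_
    · intro i hi
      obtain ⟨z, k, k', hk, hS, hi'⟩ := h1 i hi
      refine ⟨(((K : ℤ) + 1) * z.1 + 1 + ((k : ℕ) : ℤ), z.2), false, ?_, ?_⟩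
      · refine ⟨(z, k), hS, ?_⟩
        simp only [blk, List.mem_map]
        exact ⟨k, List.mem_finRange k, by simp⟩
      · have h3 : (R.toRules).L i = (R.reqs i).flatMap blk := rfl
        rw [h3, shift_flatMap, List.mem_flatMap]
        refine ⟨(z, k'), hi', ?_⟩
        simp only [blk, List.mem_map]
        exact ⟨k, List.mem_finRange k, by simp [hk]⟩
    · intro i hi
      have h3 := ih i hi
      have h4 : microSet (S ∪ {p | p ∈ shiftM Z (R.reqs i)}) =
          microSet S ∪ {p | p ∈ shift (micro K Z) ((R.toRules).L i)} := by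
        have h5 : (R.toRules).L i = (R.reqs i).flatMap blk := rfl
        rw [h5, shift_flatMap]
        ext p
        simp only [microSet, Set.mem_ofPred_eq, Set.mem_union, List.mem_flatMap]
        constructor
        · rintro ⟨q, hq | hq, hp⟩
          · exact Or.inl ⟨q, hq, hp⟩
          · exact Or.inr ⟨q, hq, hp⟩
        · rintro (⟨q, hq, hp⟩ | ⟨q, hq, hp⟩)
          · exact ⟨q, Or.inl hq, hp⟩
          · exact ⟨q, Or.inr hq, hp⟩
      rw [h4, micro_add] at h3
      exact h3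

/-- The word attached to a list of cells with symbols and a position. -/
def word {K : ℕ} (S : List ((ℤ × ℤ) × Fin K)) (Z : ℤ × ℤ) : F :=
  E (S.flatMap blk) (sg (micro K Z))

theorem toRules_hR {ι : Type} {K : ℕ} (R : MRules ι K) (hR : ∀ i, R.reqs i ≠ []) (i : ι) :
    ∃ u, (u, false) ∈ R.toRules.L i := by
  obtain ⟨q, hq⟩ := List.exists_mem_of_ne_nil _ (hR i)
  refine ⟨(((K : ℤ) + 1) * q.1.1 + 1 + ((q.2 : ℕ) : ℤ), q.1.2), ?_⟩
  have h3 : (R.toRules).L i = (R.reqs i).flatMap blk := rfl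
  rw [h3, List.mem_flatMap]
  refine ⟨q, hq, ?_⟩
  simp only [blk, List.mem_map]
  exact ⟨q.2, List.mem_finRange _, by simp⟩

/-- Positive direction. -/
theorem word_mem {ι : Type} [Fintype ι] {K : ℕ} (R : MRules ι K) (hR : ∀ i, R.reqs i ≠ [])
    (S : List ((ℤ × ℤ) × Fin K)) (Z : ℤ × ℤ) (hd : DiesM R {q | q ∈ S} Z) :
    word S Z ∈ derivedSeries F 3 ⊔ Subgroup.normalClosure {rel R.toRules} := by
  apply E_mem_of_dies _ (toRules_hR R hR)
  have h := dies_of_diesM R _ _ hd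
  have h2 : microSet {q | q ∈ S} = {p | p ∈ S.flatMap blk} := by
    ext p
    simp [microSet, List.mem_flatMap]
  rw [h2] at h
  exact h

/-- The signs attached to a configuration of symbols. -/
def chi {K : ℕ} (X : ℤ × ℤ → Option (Fin K)) (v : ℤ × ℤ) : Bool :=
  decide (¬ ∃ k : Fin K, X (v.1 / ((K : ℤ) + 1), v.2) = some k ∧
    v.1 % ((K : ℤ) + 1) = ((k : ℕ) : ℤ) + 1)

theorem chi_site {K : ℕ} (X : ℤ × ℤ → Option (Fin K)) (z : ℤ × ℤ) (j : Fin K) :
    chi X (((K : ℤ) + 1) * z.1 + 1 + ((j : ℕ) : ℤ), z.2) = decide (X z ≠ some j) := by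
  have hj := j.2
  have h1 : (((K : ℤ) + 1) * z.1 + 1 + ((j : ℕ) : ℤ)) / ((K : ℤ) + 1) = z.1 := by
    rw [add_assoc, Int.add_comm, Int.add_mul_ediv_left _ _ (by omega)]
    rw [Int.ediv_eq_zero_of_lt (by omega) (by omega)]
    simp
  have h2 : (((K : ℤ) + 1) * z.1 + 1 + ((j : ℕ) : ℤ)) % ((K : ℤ) + 1) = ((j : ℕ) : ℤ) + 1 := by
    rw [add_assoc, Int.add_comm, Int.add_mul_emod_self_left]
    rw [Int.emod_eq_of_lt (by omega) (by omega)]
    omega
  simp only [chi, h1, h2]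
  apply decide_eq_decide.mpr
  rw [not_iff_not]
  constructor
  · rintro ⟨k, hk, hk2⟩
    have : k = j := by apply Fin.ext; omega
    rw [← this]; exact hk
  · intro h
    exact ⟨j, h, rfl⟩

theorem chi_micro {K : ℕ} (X : ℤ × ℤ → Option (Fin K)) (z : ℤ × ℤ) : chi X (micro K z) = true := by
  simp only [chi, micro]
  apply decide_eq_true
  rintro ⟨k, _, hk⟩
  rw [Int.mul_emod_right] at hk
  omega

theorem chi_blk {K : ℕ} (X : ℤ × ℤ → Option (Fin K)) (q : (ℤ × ℤ) × Fin K)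
    (h : X q.1 = some q.2) : ∀ p ∈ blk q, chi X p.1 = p.2 := by
  intro p hp
  simp only [blk, List.mem_map] at hp
  obtain ⟨j, _, rfl⟩ := hp
  rw [chi_site, h]
  apply decide_eq_decide.mpr
  simp [eq_comm]

theorem chi_blk_ne {K : ℕ} (X : ℤ × ℤ → Option (Fin K)) (q : (ℤ × ℤ) × Fin K)
    (h : X q.1 ≠ some q.2) : ∃ p ∈ blk q, chi X p.1 ≠ p.2 := by
  refine ⟨((((K : ℤ) + 1) * q.1.1 + 1 + ((q.2 : ℕ) : ℤ), q.1.2), false), ?_, ?_⟩
  · simp only [blk, List.mem_map]
    exact ⟨q.2, List.mem_finRange _, by simp⟩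
  · rw [chi_site]
    simp [h]

theorem shift_match {K : ℕ} (X : ℤ × ℤ → Option (Fin K)) (Z : ℤ × ℤ)
    (L : List ((ℤ × ℤ) × Fin K)) (h : ∀ q ∈ L, X (Z + q.1) = some q.2) :
    ∀ p ∈ L.flatMap blk, chi X (micro K Z + p.1) = p.2 := by
  intro p hp
  have h1 : (micro K Z + p.1, p.2) ∈ shift (micro K Z) (L.flatMap blk) := by
    simp only [shift, List.mem_map]
    exact ⟨p, hp, rfl⟩
  rw [shift_flatMap, List.mem_flatMap] at h1
  obtain ⟨q, hq, hq2⟩ := h1
  simp only [shiftM, List.mem_map] at hq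
  obtain ⟨q', hq', rfl⟩ := hq
  exact chi_blk X _ (h q' hq') _ hq2

theorem shift_mismatch {K : ℕ} (X : ℤ × ℤ → Option (Fin K)) (Z : ℤ × ℤ)
    (L : List ((ℤ × ℤ) × Fin K)) (h : ∃ q ∈ L, X (Z + q.1) ≠ some q.2) :
    ∃ p ∈ L.flatMap blk, chi X (micro K Z + p.1) ≠ p.2 := by
  obtain ⟨q, hq, hne⟩ := h
  obtain ⟨p, hp, hp2⟩ := chi_blk_ne X (Z + q.1, q.2) hne
  have h1 : p ∈ shift (micro K Z) (blk q) := by rw [shift_blk]; exact hp
  simp only [shift, List.mem_map] at h1
  obtain ⟨p', hp', rfl⟩ := h1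
  exact ⟨p', List.mem_flatMap.mpr ⟨q, hq, hp'⟩, hp2⟩

/-- Negative direction. -/
theorem word_not_mem {ι : Type} [Fintype ι] {K : ℕ} (R : MRules ι K)
    (X : ℤ × ℤ → Option (Fin K)) (path : ℕ → ℤ × ℤ) (rule : ℕ → ι)
    (hinj : Function.Injective path)
    (hstep : ∀ n, path (n + 1) = path n + R.mv (rule n))
    (hmatch : ∀ n, ∀ q ∈ R.reqs (rule n), X (path n + q.1) = some q.2)
    (hother : ∀ n i, i ≠ rule n → ∃ q ∈ R.reqs i, X (path n + q.1) ≠ some q.2)
    (hoff : ∀ Z, Z ∉ Set.range path → ∀ i, ∃ q ∈ R.reqs i, X (Z + q.1) ≠ some q.2)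
    (S : List ((ℤ × ℤ) × Fin K)) (hS : ∀ q ∈ S, X q.1 = some q.2) :
    word S (path 0) ∉ derivedSeries F 3 ⊔ Subgroup.normalClosure {rel R.toRules} := by
  refine not_mem_of_path R.toRules (chi X) (fun n => micro K (path n)) rule ?_ ?_ ?_ ?_ ?_ ?_
    (S.flatMap blk) ?_
  · exact (micro_injective K).comp hinj
  · intro n
    change micro K (path (n + 1)) = micro K (path n) + micro K (R.mv (rule n))
    rw [hstep, micro_add]
  · intro n
    exact shift_match X (path n) _ (hmatch n)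
  · intro n i hi
    exact shift_mismatch X (path n) _ (hother n i hi)
  · intro v hv i
    by_cases hal : v.1 % ((K : ℤ) + 1) = 0
    · left
      have h1 : v = micro K (v.1 / ((K : ℤ) + 1), v.2) := by
        ext
        · simp only [micro]
          exact (Int.mul_ediv_cancel' (Int.dvd_of_emod_eq_zero hal)).symm
        · rfl
      have h2 := shift_mismatch X (v.1 / ((K : ℤ) + 1), v.2) (R.reqs i) (hoff _ (by
        rintro ⟨n, hn⟩
        apply hv
        exact ⟨n, by rw [h1, ← hn]⟩) i)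
      rw [← h1] at h2
      exact h2
    · right
      rintro ⟨n, hn⟩
      apply hal
      have h1 := congrArg Prod.fst hn
      change ((K : ℤ) + 1) * (path n).1 = v.1 + ((K : ℤ) + 1) * (R.mv i).1 at h1
      have h2 : v.1 = ((K : ℤ) + 1) * ((path n).1 - (R.mv i).1) := by
        rw [mul_sub]; omega
      rw [h2, Int.mul_emod_right]
  · intro n
    exact chi_micro X _
  · intro p hp
    rw [List.mem_flatMap] at hp
    obtain ⟨q, hq, hp⟩ := hp
    exact chi_blk X q (hS q hq) p hp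

end Pool.Agent.OneRel
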