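import Pool.Agent.OneRel.Basic

/-!
# The positive direction: a dying walker gives a trivial word
-/

set_option autoImplicit false

namespace Pool.Agent.OneRel

open scoped commutatorElement

/-- A walker at position `v` with knowledge `S` dies: for each rule, the rule conflicts with the
knowledge, or the walker dies after applying the rule. -/
inductive Dies {ι : Type} (R : Rules ι) : Set ((ℤ × ℤ) × Bool) → ℤ × ℤ → Prop
  | intro (S : Set ((ℤ × ℤ) × Bool)) (v : ℤ × ℤ)
      (conf : ι → Prop)
      (h1 : ∀ i, conf i → ∃ u b, (u, b) ∈ S ∧ (u, !b) ∈ shift v (R.L i))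
      (h2 : ∀ i, ¬ conf i → Dies R (S ∪ {p | p ∈ shift v (R.L i)}) (v + R.h i)) : Dies R S v

section Abstract

variable {M : Type} [AddCommGroup M] (C : ℤ × ℤ → AddMonoid.End M)

/-- One factor. -/
def fac (p : (ℤ × ℤ) × Bool) : AddMonoid.End M := if p.2 then 1 + C p.1 else 1 - C p.1

/-- Product of the factors. -/
def EE (L : List ((ℤ × ℤ) × Bool)) : AddMonoid.End M := (L.map (fac C)).prod

variable (hC : ∀ u v, Commute (C u) (C v)) (hC2 : ∀ u, C u * C u = 1)

theorem EE_append (L L' : List ((ℤ × ℤ) × Bool)) : EE C (L ++ L') = EE C L * EE C L' := by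
  simp [EE]

include hC in
theorem fac_commute (p q : (ℤ × ℤ) × Bool) : Commute (fac C p) (fac C q) := by
  unfold fac
  have h := hC p.1 q.1
  split_ifs
  · exact ((Commute.one_left _).add_left ((Commute.one_right _).add_right h))
  · exact ((Commute.one_left _).add_left ((Commute.one_right _).sub_right h))
  · exact ((Commute.one_left _).sub_left ((Commute.one_right _).add_right h))
  · exact ((Commute.one_left _).sub_left ((Commute.one_right _).sub_right h))

include hC in
theorem fac_EE_commute (p : (ℤ × ℤ) × Bool) (L : List ((ℤ × ℤ) × Bool)) :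
    Commute (fac C p) (EE C L) := by
  unfold EE
  apply Commute.list_prod_right
  intro q hq
  rw [List.mem_map] at hq
  obtain ⟨q', _, rfl⟩ := hq
  exact fac_commute C hC p q'

include hC2 in
theorem fac_mul_fac_not (u : ℤ × ℤ) (b : Bool) : fac C (u, b) * fac C (u, !b) = 0 := by
  unfold fac
  cases b
  · simp [mul_add, sub_mul, hC2]
  · simp only [Bool.not_true, Bool.false_eq_true, if_false, if_true]
    rw [mul_sub, add_mul, add_mul, hC2]
    simp only [mul_one, one_mul]
    abel

include hC in
theorem EE_split (p : (ℤ × ℤ) × Bool) (L : List ((ℤ × ℤ) × Bool)) (h : p ∈ L) :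
    ∃ X : AddMonoid.End M, EE C L = fac C p * X ∧ EE C L = X * fac C p := by
  obtain ⟨L1, L2, rfl⟩ := List.append_of_mem h
  refine ⟨EE C L1 * EE C L2, ?_, ?_⟩
  · have h1 : EE C (L1 ++ p :: L2) = EE C L1 * (fac C p * EE C L2) := by
      simp [EE]
    rw [h1, ← mul_assoc, ← (fac_EE_commute C hC p L1).eq, mul_assoc]
  · have h1 : EE C (L1 ++ p :: L2) = EE C L1 * (fac C p * EE C L2) := by
      simp [EE]
    rw [h1, (fac_EE_commute C hC p L2).eq, mul_assoc]

include hC hC2 in
theorem EE_mul_eq_zero (L L' : List ((ℤ × ℤ) × Bool)) (u : ℤ × ℤ) (b : Bool)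
    (h : (u, b) ∈ L) (h' : (u, !b) ∈ L') : EE C L * EE C L' = 0 := by
  obtain ⟨X, _, hX⟩ := EE_split C hC _ L h
  obtain ⟨Y, hY, _⟩ := EE_split C hC _ L' h'
  rw [hX, hY]
  calc X * fac C (u, b) * (fac C (u, !b) * Y) = X * (fac C (u, b) * fac C (u, !b)) * Y := by
        simp only [mul_assoc]
    _ = 0 := by rw [fac_mul_fac_not C hC2]; simp

include hC hC2 in
/-- The abstract vanishing statement. -/
theorem vanish {ι : Type} [Fintype ι] (R : Rules ι) (e : F → M)
    (hrel : ∀ a : F, e a = ∑ i, EE C (shift (pos a).toAdd (R.L i)) (e (a * g (R.h i))))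
    (S : Set ((ℤ × ℤ) × Bool)) (v : ℤ × ℤ) (hd : Dies R S v) :
    ∀ (T : List ((ℤ × ℤ) × Bool)), (∀ q ∈ S, q ∈ T) → ∀ a : F, (pos a).toAdd = v →
      EE C T (e a) = 0 := by
  induction hd with
  | intro S v conf h1 h2 ih =>
    intro T hT a ha
    rw [hrel a, map_sum]
    apply Finset.sum_eq_zero
    intro i _
    by_cases hc : conf i
    · obtain ⟨u, b, hu, hu'⟩ := h1 i hc
      rw [ha]
      have := EE_mul_eq_zero C hC hC2 T (shift v (R.L i)) u b (hT _ hu) hu'
      have h3 := DFunLike.congr_fun this (e (a * g (R.h i)))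
      exact h3
    · have h3 := ih i hc (T ++ shift v (R.L i)) (by
        intro q hq
        rw [List.mem_append]
        rcases hq with hq | hq
        · exact Or.inl (hT q hq)
        · exact Or.inr hq) (a * g (R.h i)) (by
        rw [map_mul, toAdd_mul, ha, pos_g, toAdd_ofAdd])
      rw [EE_append] at h3
      rw [ha]
      exact h3

end Abstract

section Concrete

variable {Q : Type} [Group Q] (π : F →* Q) (hπ : derivedSeries F 3 ≤ π.ker)

/-- The image of the second derived subgroup. -/
abbrev AA : Subgroup Q := (derivedSeries F 2).map π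

include hπ in
theorem AA_comm (a b : AA π) : a * b = b * a := by
  obtain ⟨_, a, ha, rfl⟩ := a
  obtain ⟨_, b, hb, rfl⟩ := b
  apply Subtype.ext
  change π a * π b = π b * π a
  rw [← commutatorElement_eq_one_iff_mul_comm, ← map_commutatorElement]
  apply hπ
  rw [derivedSeries_succ]
  exact Subgroup.commutator_mem_commutator ha hb

/-- Conjugation by the image of an element of `F`. -/
def act (a : F) : AA π →* AA π where
  toFun q := ⟨π a * q.1 * (π a)⁻¹, by
    obtain ⟨_, b, hb, rfl⟩ := q
    refine ⟨a * b * a⁻¹, (derivedSeries_normal F 2).conj_mem _ hb _, ?_⟩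
    simp⟩
  map_one' := by ext; simp
  map_mul' q q' := by ext; simp

theorem act_val (a : F) (q : AA π) : (act π a q : Q) = π a * q.1 * (π a)⁻¹ := rfl

theorem act_mul (a b : F) (q : AA π) : act π (a * b) q = act π a (act π b q) := by
  ext; simp [act_val, mul_assoc]

include hπ in
theorem act_of_mem (a : F) (ha : π a ∈ AA π) (q : AA π) : act π a q = q := by
  ext
  rw [act_val]
  have := AA_comm π hπ ⟨π a, ha⟩ q
  have h2 : π a * q.1 = q.1 * π a := congrArg Subtype.val this
  rw [h2]; group

include hπ in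
/-- Elements of the derived subgroup act through commuting operators. -/
theorem act_comm (a b : F) (ha : a ∈ derivedSeries F 1) (hb : b ∈ derivedSeries F 1)
    (q : AA π) : act π (a * b) q = act π (b * a) q := by
  have h1 : a * b = ⁅a, b⁆ * (b * a) := by rw [commutatorElement_def]; group
  rw [h1, act_mul]
  apply act_of_mem π hπ
  refine ⟨_, ?_, rfl⟩
  rw [derivedSeries_succ]
  exact Subgroup.commutator_mem_commutator ha hb

include hπ in
/-- Conjugating an element of the derived subgroup by elements with the same position gives the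
same operator. -/
theorem act_conj (a b n : F) (hab : pos a = pos b) (hn : n ∈ derivedSeries F 1) (q : AA π) :
    act π (a * n * a⁻¹) q = act π (b * n * b⁻¹) q := by
  have h1 : a⁻¹ * b ∈ derivedSeries F 1 := by
    rw [derivedSeries_one]; exact mk_eq_of_pos a b hab
  -- `b = a * m`
  have h2 : b * n * b⁻¹ = a * ((a⁻¹ * b) * n * (a⁻¹ * b)⁻¹) * a⁻¹ := by group
  rw [h2]
  simp only [act_mul]
  congr 1
  have h3 : ∀ q : AA π, act π n q = act π ((a⁻¹ * b) * n * (a⁻¹ * b)⁻¹) q := by
    intro q
    have h4 : act π ((a⁻¹ * b) * n * (a⁻¹ * b)⁻¹) q = act π (n * (a⁻¹ * b) * (a⁻¹ * b)⁻¹) q := by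
      rw [act_mul, act_comm π hπ _ _ h1 hn, ← act_mul]
    rw [h4, mul_inv_cancel_right]
  rw [h3]
  simp only [act_mul]

/-- The commutative group structure on the image of the second derived subgroup. -/
@[instance_reducible] def commGroupAA : CommGroup (AA π) :=
  { (inferInstance : Group (AA π)) with mul_comm := AA_comm π hπ }

include hπ in
theorem E_eq_one_of_dies {ι : Type} [Fintype ι] (R : Rules ι) (hR : ∀ i, ∃ u, (u, false) ∈ R.L i)
    (hr : π (rel R) = 1) (S : List ((ℤ × ℤ) × Bool)) (v : ℤ × ℤ) (hd : Dies R {p | p ∈ S} v) :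
    π (E S (sg v)) = 1 := by
  let _ := commGroupAA π hπ
  have hs : π s ∈ AA π := by
    obtain ⟨d, hd, hrd⟩ := rel_eq_s R hR
    rw [hrd, map_mul, mul_eq_one_iff_eq_inv] at hr
    rw [hr]
    exact inv_mem ⟨d, hd, rfl⟩
  have hA : ∀ (a : F) (q : Q), q ∈ AA π → π a * q * (π a)⁻¹ ∈ AA π := fun a q hq =>
    (act π a ⟨q, hq⟩).2
  have hsa : ∀ a : F, π (a * s * a⁻¹) ∈ AA π := by
    intro a
    rw [map_mul, map_mul, map_inv]
    exact hA a _ hs
  let M := Additive (AA π)
  let C : ℤ × ℤ → AddMonoid.End M := fun u => MonoidHom.toAdditive (act π (cw u))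
  let e : F → M := fun a => Additive.ofMul ⟨π (a * s * a⁻¹), hsa a⟩
  have hCapp : ∀ u (q : AA π), C u (Additive.ofMul q) = Additive.ofMul (act π (cw u) q) :=
    fun u q => rfl
  have hC : ∀ u v, Commute (C u) (C v) := by
    intro u v
    refine DFunLike.ext _ _ (fun m => ?_)
    change Additive.ofMul (act π (cw u) (act π (cw v) m.toMul)) =
      Additive.ofMul (act π (cw v) (act π (cw u) m.toMul))
    rw [← act_mul, ← act_mul, act_comm π hπ _ _ (cw_mem u) (cw_mem v)]
  have hC2 : ∀ u, C u * C u = 1 := by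
    intro u
    refine DFunLike.ext _ _ (fun m => ?_)
    change Additive.ofMul (act π (cw u) (act π (cw u) m.toMul)) = m
    rw [← act_mul]
    have h1 : cw u * cw u = g u * s * (g u)⁻¹ := by simp only [cw, s]; group
    rw [h1, act_of_mem π hπ _ (hsa _)]
    rfl
  have key : ∀ (L : List ((ℤ × ℤ) × Bool)) (W : F) (hW : π W ∈ AA π),
      ∃ h' : π (E L W) ∈ AA π, EE C L (Additive.ofMul ⟨π W, hW⟩) =
        Additive.ofMul ⟨π (E L W), h'⟩ := by
    intro L W hW
    induction L with
    | nil => exact ⟨hW, rfl⟩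
    | cons p L ih =>
      obtain ⟨h', h2⟩ := ih
      obtain ⟨u, b⟩ := p
      have h3 : EE C ((u, b) :: L) (Additive.ofMul ⟨π W, hW⟩) =
          fac C (u, b) (EE C L (Additive.ofMul ⟨π W, hW⟩)) := by
        simp [EE]
      rw [h2] at h3
      have h4 : π (E ((u, b) :: L) W) = π (E L W) * (if b then π (cw u) * π (E L W) * (π (cw u))⁻¹
          else (π (cw u) * π (E L W) * (π (cw u))⁻¹)⁻¹) := by
        change π (op (u, b) (E L W)) = _
        rw [op]
        cases b <;> simp [mul_assoc]
      have h5 : π (E ((u, b) :: L) W) ∈ AA π := by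
        rw [h4]
        refine mul_mem h' ?_
        split_ifs
        · exact hA _ _ h'
        · exact inv_mem (hA _ _ h')
      refine ⟨h5, ?_⟩
      rw [h3]
      cases b
      · change Additive.ofMul (⟨π (E L W), h'⟩ / act π (cw u) ⟨π (E L W), h'⟩) = _
        congr 1
        apply Subtype.ext
        rw [div_eq_mul_inv]
        change π (E L W) * (π (cw u) * π (E L W) * (π (cw u))⁻¹)⁻¹ = π (E ((u, false) :: L) W)
        rw [h4]
        simp
      · change Additive.ofMul (⟨π (E L W), h'⟩ * act π (cw u) ⟨π (E L W), h'⟩) = _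
        congr 1
        apply Subtype.ext
        change π (E L W) * (π (cw u) * π (E L W) * (π (cw u))⁻¹) = π (E ((u, true) :: L) W)
        rw [h4]
        simp
  -- the basic relation
  have hrel1 : e 1 = ∑ i, EE C (R.L i) (e (g (R.h i))) := by
    have h1 : π s = (Finset.univ.toList.map fun i => π (E (R.L i) (sg (R.h i)))).prod := by
      rw [rel, map_mul, map_inv, mul_inv_eq_one] at hr
      rw [hr, map_list_prod, List.map_map]
      rfl
    have h2 : ∀ l : List ι, ∃ h : (l.map fun i => π (E (R.L i) (sg (R.h i)))).prod ∈ AA π,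
        (l.map fun i => EE C (R.L i) (e (g (R.h i)))).sum = Additive.ofMul ⟨_, h⟩ := by
      intro l
      induction l with
      | nil => exact ⟨one_mem _, rfl⟩
      | cons i l ih =>
        obtain ⟨h3, h4⟩ := ih
        obtain ⟨h5, h6⟩ := key (R.L i) (g (R.h i) * s * (g (R.h i))⁻¹) (hsa _)
        refine ⟨?_, ?_⟩
        · rw [List.map_cons, List.prod_cons]
          exact mul_mem h5 h3
        · rw [List.map_cons, List.sum_cons, h4]
          change EE C (R.L i) (Additive.ofMul ⟨π (g (R.h i) * s * (g (R.h i))⁻¹), _⟩) + _ = _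
          rw [h6]
          rfl
    obtain ⟨h3, h4⟩ := h2 Finset.univ.toList
    rw [Finset.sum_map_toList] at h4
    rw [h4]
    change Additive.ofMul _ = Additive.ofMul _
    congr 1
    apply Subtype.ext
    change π (1 * s * 1⁻¹) =
      (List.map (fun i => π (E (R.L i) (sg (R.h i)))) Finset.univ.toList).prod
    rw [← h1]
    simp
  have hact : ∀ (a : F) (b : F), Additive.ofMul (act π a (e b).toMul) = e (a * b) := by
    intro a b
    change Additive.ofMul _ = Additive.ofMul _
    congr 1
    apply Subtype.ext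
    change π a * π (b * s * b⁻¹) * (π a)⁻¹ = π (a * b * s * (a * b)⁻¹)
    simp [mul_assoc]
  let D : F → AddMonoid.End M := fun a => MonoidHom.toAdditive (act π a)
  have hD : ∀ (a b : F), D a (e b) = e (a * b) := hact
  have hDC : ∀ (a : F) (u : ℤ × ℤ), D a * C u = C ((pos a).toAdd + u) * D a := by
    intro a u
    refine DFunLike.ext _ _ (fun m => ?_)
    change Additive.ofMul (act π a (act π (cw u) m.toMul)) =
      Additive.ofMul (act π (cw ((pos a).toAdd + u)) (act π a m.toMul))
    congr 1
    have h1 : ∀ q : AA π, act π (cw ((pos a).toAdd + u)) q = act π (a * cw u * a⁻¹) q := by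
      intro q
      have h2 : a * cw u * a⁻¹ = (a * g u) * c * (a * g u)⁻¹ := by simp only [cw]; group
      rw [h2]
      apply act_conj π hπ _ _ _ _ c_mem
      rw [pos_g, map_mul, pos_g, ofAdd_add, ofAdd_toAdd]
    rw [h1, ← act_mul, ← act_mul]
    congr 1
    group
  have hDfac : ∀ (a : F) (p : (ℤ × ℤ) × Bool), D a * fac C p =
      fac C ((pos a).toAdd + p.1, p.2) * D a := by
    intro a p
    obtain ⟨u, b⟩ := p
    cases b
    · simp only [fac, Bool.false_eq_true, if_false, mul_sub, sub_mul, hDC, mul_one, one_mul]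
    · simp only [fac, if_true, mul_add, add_mul, hDC, mul_one, one_mul]
  have hDEE : ∀ (a : F) (L : List ((ℤ × ℤ) × Bool)), D a * EE C L =
      EE C (shift (pos a).toAdd L) * D a := by
    intro a L
    induction L with
    | nil => simp [EE, shift]
    | cons p L ih =>
      have h1 : EE C (p :: L) = fac C p * EE C L := by simp [EE]
      have h2 : EE C (shift (pos a).toAdd (p :: L)) =
          fac C ((pos a).toAdd + p.1, p.2) * EE C (shift (pos a).toAdd L) := by simp [EE, shift]
      rw [h1, h2, ← mul_assoc, hDfac, mul_assoc, ih, mul_assoc]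
  have hrel : ∀ a : F, e a = ∑ i, EE C (shift (pos a).toAdd (R.L i)) (e (a * g (R.h i))) := by
    intro a
    have h1 : e a = D a (e 1) := by rw [hD, mul_one]
    rw [h1, hrel1, map_sum]
    apply Finset.sum_congr rfl
    intro i _
    have h2 := DFunLike.congr_fun (hDEE a (R.L i)) (e (g (R.h i)))
    change D a (EE C (R.L i) (e (g (R.h i)))) =
      EE C (shift (pos a).toAdd (R.L i)) (D a (e (g (R.h i)))) at h2
    rw [h2, hD]
  have hv := vanish C hC hC2 R e hrel {p | p ∈ S} v hd S (fun q hq => hq) (g v) (by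
    rw [pos_g, toAdd_ofAdd])
  obtain ⟨h6, h7⟩ := key S (sg v) (hsa (g v))
  have h8 : Additive.ofMul (⟨π (E S (sg v)), h6⟩ : AA π) = 0 := by
    rw [← h7]; exact hv
  have h9 : (⟨π (E S (sg v)), h6⟩ : AA π) = 1 := h8
  exact congrArg Subtype.val h9

end Concrete

/-- The positive direction: if the walker with knowledge `S` at position `v` dies then the word
attached to `S` and `v` is trivial in the group of derived length three with relator `rel R`. -/
theorem E_mem_of_dies {ι : Type} [Fintype ι] (R : Rules ι) (hR : ∀ i, ∃ u, (u, false) ∈ R.L i)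
    (S : List ((ℤ × ℤ) × Bool)) (v : ℤ × ℤ) (hd : Dies R {p | p ∈ S} v) :
    E S (sg v) ∈ derivedSeries F 3 ⊔ Subgroup.normalClosure {rel R} := by
  have hn : (derivedSeries F 3).Normal := derivedSeries_normal F 3
  let N := derivedSeries F 3 ⊔ Subgroup.normalClosure {rel R}
  have hN : N.Normal := Subgroup.sup_normal _ _
  have h1 := E_eq_one_of_dies (QuotientGroup.mk' N) (by
      rw [QuotientGroup.ker_mk']; exact le_sup_left) R hR (by
      rw [← MonoidHom.mem_ker, QuotientGroup.ker_mk']
      exact (le_sup_right : _ ≤ N) (Subgroup.subset_normalClosure rfl)) S v hd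
  rwa [← MonoidHom.mem_ker, QuotientGroup.ker_mk'] at h1

end Pool.Agent.OneRel
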