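import Pool.Agent.OneRel.AllN

/-!
# Rank at most one, and the answer for every derived length and every rank
-/

set_option autoImplicit false

namespace Pool.Agent.OneRel.AllN

/-- The exponent. -/
def sig : FreeGroup (Fin 1) →* Multiplicative ℤ := FreeGroup.lift fun _ => Multiplicative.ofAdd 1

theorem eq_pow (z : FreeGroup (Fin 1)) : z = FreeGroup.of 0 ^ (sig z).toAdd := by
  have h : MonoidHom.id (FreeGroup (Fin 1)) = (zpowersHom _ (FreeGroup.of (0 : Fin 1))).comp sig := by
    ext1 i
    fin_cases i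
    simp [sig]
  have := DFunLike.congr_fun h z
  simpa using this

/-- The elements whose exponent is divisible by `m`. -/
def K (m : ℤ) : Subgroup (FreeGroup (Fin 1)) where
  carrier := {z | m ∣ (sig z).toAdd}
  one_mem' := by simp
  mul_mem' := by
    intro a b ha hb
    simp only [Set.mem_ofPred_eq, map_mul, toAdd_mul] at *
    exact dvd_add ha hb
  inv_mem' := by
    intro a ha
    simp only [Set.mem_ofPred_eq, map_inv, toAdd_inv] at *
    exact (dvd_neg).2 ha

theorem K_normal (m : ℤ) : (K m).Normal := by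
  constructor
  intro z hz g
  change m ∣ (sig (g * z * g⁻¹)).toAdd
  have h : sig (g * z * g⁻¹) = sig z := by
    rw [map_mul, map_mul, map_inv, mul_comm (sig g), mul_inv_cancel_right]
  rw [h]
  exact hz

theorem mem_iff_dvd {n : ℕ} (hn : 1 ≤ n) (r z : FreeGroup (Fin 1)) :
    z ∈ derivedSeries (FreeGroup (Fin 1)) n ⊔ Subgroup.normalClosure {r} ↔
      (sig r).toAdd ∣ (sig z).toAdd := by
  constructor
  · intro h
    have hK := K_normal (sig r).toAdd
    have hle : derivedSeries (FreeGroup (Fin 1)) n ⊔ Subgroup.normalClosure {r} ≤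
        K (sig r).toAdd := by
      apply sup_le
      · intro w hw
        have h1 : w ∈ derivedSeries (FreeGroup (Fin 1)) 1 := derivedSeries_antitone _ hn hw
        rw [derivedSeries_one] at h1
        have h2 : sig w = 1 := Abelianization.commutator_subset_ker sig h1
        change (sig r).toAdd ∣ (sig w).toAdd
        rw [h2, toAdd_one]
        exact dvd_zero _
      · apply Subgroup.normalClosure_le_normal
        intro w hw
        rw [Set.mem_singleton_iff] at hw
        rw [hw]
        exact dvd_refl (sig r).toAdd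
    exact hle h
  · rintro ⟨t, ht⟩
    have h1 : z = r ^ t := by
      have h2 : r ^ t = (FreeGroup.of 0 ^ (sig r).toAdd) ^ t := congrArg (· ^ t) (eq_pow r)
      rw [h2, ← zpow_mul, ← ht]
      exact eq_pow z
    have h3 : r ∈ Subgroup.normalClosure {r} :=
      Subgroup.subset_normalClosure (Set.mem_singleton r)
    rw [h1]
    exact Subgroup.mem_sup_right (Subgroup.zpow_mem _ h3 t)

/-- Numbers of letters. -/
def cnt (w : List (Fin 1 × Bool)) : ℕ × ℕ :=
  w.foldl (fun s p => cond p.2 (s.1 + 1, s.2) (s.1, s.2 + 1)) (0, 0)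

theorem foldl_cnt (w : List (Fin 1 × Bool)) (s : ℕ × ℕ) :
    (((w.foldl (fun s p => cond p.2 (s.1 + 1, s.2) (s.1, s.2 + 1)) s).1 : ℤ) -
      (w.foldl (fun s p => cond p.2 (s.1 + 1, s.2) (s.1, s.2 + 1)) s).2) =
    s.1 - s.2 + (sig (FreeGroup.mk w)).toAdd := by
  induction w generalizing s with
  | nil => simp [← FreeGroup.one_eq_mk]
  | cons p w ih =>
    have h : FreeGroup.mk (p :: w) = FreeGroup.mk [p] * FreeGroup.mk w := by
      rw [FreeGroup.mul_mk, List.singleton_append]
    rw [List.foldl_cons, ih, h, map_mul, toAdd_mul]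
    obtain ⟨i, b⟩ := p
    have h2 : (sig (FreeGroup.mk [(i, b)])).toAdd = cond b 1 (-1) := by
      cases b <;> simp [sig]
    rw [h2]
    cases b
    · simp only [cond_false]
      push_cast
      ring
    · simp only [cond_true]
      push_cast
      ring

theorem sig_cnt (w : List (Fin 1 × Bool)) :
    (sig (FreeGroup.mk w)).toAdd = ((cnt w).1 : ℤ) - (cnt w).2 := by
  have h := foldl_cnt w (0, 0)
  unfold cnt
  rw [h]
  simp

theorem primrec_cnt : Primrec cnt := by
  have h : Primrec₂ (fun (_ : List (Fin 1 × Bool)) (q : (ℕ × ℕ) × (Fin 1 × Bool)) =>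
      cond q.2.2 (q.1.1 + 1, q.1.2) (q.1.1, q.1.2 + 1)) := by
    have a1 : Primrec fun q : List (Fin 1 × Bool) × ((ℕ × ℕ) × (Fin 1 × Bool)) => q.2.1.1 :=
      Primrec.fst.comp (Primrec.fst.comp Primrec.snd)
    have a2 : Primrec fun q : List (Fin 1 × Bool) × ((ℕ × ℕ) × (Fin 1 × Bool)) => q.2.1.2 :=
      Primrec.snd.comp (Primrec.fst.comp Primrec.snd)
    have a3 : Primrec fun q : List (Fin 1 × Bool) × ((ℕ × ℕ) × (Fin 1 × Bool)) => q.2.2.2 :=
      Primrec.snd.comp (Primrec.snd.comp Primrec.snd)
    exact (Primrec.cond a3 ((Primrec.succ.comp a1).pair a2) (a1.pair (Primrec.succ.comp a2))).to₂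
  exact Primrec.list_foldl Primrec.id (Primrec.const (0, 0)) h

theorem computable_one {n : ℕ} (hn : 1 ≤ n) (r : FreeGroup (Fin 1)) :
    ComputablePred (WP n 1 r) := by
  have h : PrimrecPred fun w : List (Fin 1 × Bool) =>
      (cnt w).1 % (sig r).toAdd.natAbs = (cnt w).2 % (sig r).toAdd.natAbs :=
    Primrec.eq.comp
      (Primrec.nat_mod.comp (Primrec.fst.comp primrec_cnt) (Primrec.const _))
      (Primrec.nat_mod.comp (Primrec.snd.comp primrec_cnt) (Primrec.const _))
  refine ComputablePred.of_eq h.computablePred fun w => ?_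
  unfold WP
  rw [mem_iff_dvd hn, sig_cnt, ← Int.natAbs_dvd]
  generalize (sig r).toAdd.natAbs = M
  generalize cnt w = s
  constructor
  · intro h
    have h1 : (s.2 : ℤ) ≡ s.1 [ZMOD M] := by
      rw [Int.natCast_modEq_iff]
      exact h.symm
    exact h1.dvd
  · intro h
    have h1 : (s.2 : ℤ) ≡ s.1 [ZMOD M] := Int.modEq_iff_dvd.2 h
    rw [Int.natCast_modEq_iff] at h1
    exact h1.symm

theorem computable_zero {n : ℕ} (r : FreeGroup (Fin 0)) : ComputablePred (WP n 0 r) := by
  have h : ComputablePred fun _ : List (Fin 0 × Bool) => True :=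
    ⟨fun _ => isTrue trivial, Computable.const _⟩
  refine h.of_eq fun w => ?_
  have h1 : FreeGroup.mk w = 1 := Subsingleton.elim _ _
  unfold WP
  rw [h1]
  exact ⟨fun _ => Subgroup.one_mem _, fun _ => trivial⟩

/-- **The answer for every `n ≥ 3` and every rank.** -/
theorem answer (n k : ℕ) (hn : 3 ≤ n) :
    (∀ r : FreeGroup (Fin k), ComputablePred (WP n k r)) ↔ k ≤ 1 := by
  constructor
  · intro h
    by_contra hk
    obtain ⟨r, hr⟩ := hard_all n k hn (by omega)
    exact not_computable hr (h r)
  · intro hk r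
    interval_cases k
    · exact computable_zero r
    · exact computable_one (by omega) r

end Pool.Agent.OneRel.AllN
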