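import Mathlib

/-!
# A finite Turing machine with an undecidable halting set

We extract from Mathlib a Turing machine (model `TM0`) with finitely many states and symbols
whose halting set is not computable, in a form with an explicit simple input encoding.
-/

namespace Pool.Agent.OneRel

open Turing StateTransition

section bits

theorem trPosNum_eq (n : PosNum) :
    PartrecToTM2.trPosNum n =
      (Nat.bits (n : ℕ)).map (fun b => cond b PartrecToTM2.Γ'.bit1 PartrecToTM2.Γ'.bit0) := by
  induction n with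
  | one => simp [PartrecToTM2.trPosNum]
  | bit0 n ih =>
    have h : ((PosNum.bit0 n : PosNum) : ℕ) = Nat.bit false (n : ℕ) := by
      simp [PosNum.cast_bit0, Nat.bit]; try omega
    rw [PartrecToTM2.trPosNum, h, Nat.bits_append_bit, ih]
    · simp
    · intro h0
      exact absurd h0 (PosNum.cast_pos n).ne'
  | bit1 n ih =>
    have h : ((PosNum.bit1 n : PosNum) : ℕ) = Nat.bit true (n : ℕ) := by
      simp [PosNum.cast_bit1, Nat.bit]; try omega
    rw [PartrecToTM2.trPosNum, h, Nat.bits_append_bit, ih]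
    · simp
    · intro _; rfl

theorem trNat_eq (n : ℕ) :
    PartrecToTM2.trNat n =
      (Nat.bits n).map (fun b => cond b PartrecToTM2.Γ'.bit1 PartrecToTM2.Γ'.bit0) := by
  rw [PartrecToTM2.trNat]
  cases h : (n : Num) with
  | zero =>
    have h0 : n = 0 := by
      have := congrArg (fun m : Num => (m : ℕ)) h
      simpa using this
    subst h0
    simp [PartrecToTM2.trNum]
  | pos p =>
    have h0 : n = (p : ℕ) := by
      have := congrArg (fun m : Num => (m : ℕ)) h
      simpa using this
    rw [h0, PartrecToTM2.trNum, trPosNum_eq]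

end bits

/-- The restriction of a `TM0` machine to a finite supporting set of states. -/
theorem exists_fin_machine {Γ Λ : Type} [Inhabited Γ] [Inhabited Λ] (M : TM0.Machine Γ Λ)
    (S : Finset Λ) (ss : TM0.Supports M (S : Set Λ)) :
    ∃ (Λ' : Type) (_ : Inhabited Λ') (_ : Fintype Λ') (M' : TM0.Machine Γ Λ'),
      ∀ l : List Γ, (StateTransition.eval (TM0.step M') (TM0.init l)).Dom ↔
        (StateTransition.eval (TM0.step M) (TM0.init l)).Dom := by
  classical
  let Λ' : Type := {q : Λ // q ∈ S}
  let i1 : Inhabited Λ' := ⟨⟨default, ss.1⟩⟩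
  let i2 : Fintype Λ' := FinsetCoe.fintype S
  let g1 : PointedMap Λ Λ' := ⟨fun q => if h : q ∈ S then ⟨q, h⟩ else default, by
    have : (default : Λ) ∈ S := ss.1
    simp only [this, dif_pos]
    rfl⟩
  let idm : PointedMap Γ Γ := ⟨id, rfl⟩
  have hr : Function.RightInverse idm idm := fun _ => rfl
  have hg : ∀ q ∈ (S : Set Λ), (g1 q).1 = q := by
    intro q hq
    have hq' : q ∈ S := hq
    change (if h : q ∈ S then (⟨q, h⟩ : Λ') else default).1 = q
    rw [dif_pos hq']
  refine ⟨Λ', i1, i2, M.map idm idm g1 Subtype.val, ?_⟩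
  intro l
  have H := TM0.Machine.map_respects M idm idm g1 Subtype.val ss hr hg
  have aa : (TM0.init l : TM0.Cfg Γ Λ).q ∈ (S : Set Λ) ∧
      TM0.Cfg.map idm g1 (TM0.init l : TM0.Cfg Γ Λ) = TM0.init l := by
    refine ⟨ss.1, ?_⟩
    rw [TM0.map_init]
    congr 1
    exact List.map_id l
  exact StateTransition.tr_eval_dom H aa

open PartrecToTM2 in
/-- The embedding of the input alphabet. -/
def emb (a : PartrecToTM2.Γ') : TM2to1.Γ' K' (fun _ => PartrecToTM2.Γ') :=
  (false, Function.update (fun _ => none) K'.main (some a))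

open PartrecToTM2 in
/-- The first symbol. -/
def emb0 : TM2to1.Γ' K' (fun _ => PartrecToTM2.Γ') :=
  (true, Function.update (fun _ => none) K'.main (some Γ'.cons))

open PartrecToTM2 in
theorem trInit_aux (l : List PartrecToTM2.Γ') :
    TM2to1.trInit (Γ := fun _ => PartrecToTM2.Γ') K'.main (l ++ [Γ'.cons]) =
      emb0 :: l.reverse.map emb := by
  have h : (l ++ [Γ'.cons]).reverse = Γ'.cons :: l.reverse := by simp
  rw [TM2to1.trInit, h]
  rfl

open PartrecToTM2 in
theorem trInit_eq (n : ℕ) :
    TM2to1.trInit (Γ := fun _ => PartrecToTM2.Γ') K'.main (PartrecToTM2.trList [n]) =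
      emb0 :: (Nat.bits n).reverse.map (fun b => emb (cond b Γ'.bit1 Γ'.bit0)) := by
  rw [PartrecToTM2.trList, PartrecToTM2.trList, trInit_aux, trNat_eq, ← List.map_reverse,
    List.map_map]
  rfl

open PartrecToTM2 in
theorem exists_tm (c : ToPartrec.Code) :
    ∃ (Γ Λ : Type) (_ : Inhabited Γ) (_ : Fintype Γ) (_ : DecidableEq Γ) (_ : Inhabited Λ)
      (_ : Fintype Λ) (M : TM0.Machine Γ Λ) (g0 : Γ) (gb : Bool → Γ), ∀ n : ℕ,
      (StateTransition.eval (TM0.step M) (TM0.init (g0 :: (Nat.bits n).reverse.map gb))).Dom ↔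
        (c.eval [n]).Dom := by
  classical
  let iK : Fintype K' := ⟨{K'.main, K'.rev, K'.aux, K'.stack}, by intro x; cases x <;> simp⟩
  let iL : Inhabited PartrecToTM2.Λ' := ⟨PartrecToTM2.trNormal c Cont'.halt⟩
  let M1 := TM2to1.tr (K := K') (Γ := fun _ => PartrecToTM2.Γ') (Λ := PartrecToTM2.Λ')
    (σ := Option PartrecToTM2.Γ') PartrecToTM2.tr
  have s2 : TM2.Supports (K := K') (Γ := fun _ => PartrecToTM2.Γ') (Λ := PartrecToTM2.Λ')
    (σ := Option PartrecToTM2.Γ') PartrecToTM2.tr (codeSupp c Cont'.halt) :=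
    PartrecToTM2.tr_supports c Cont'.halt
  have s1 := TM2to1.tr_supports (K := K') (Γ := fun _ => PartrecToTM2.Γ')
    (Λ := PartrecToTM2.Λ') (σ := Option PartrecToTM2.Γ') PartrecToTM2.tr s2
  have s0 := TM1to0.tr_supports (σ := Option PartrecToTM2.Γ') M1 s1
  obtain ⟨Λ₀, j1, j2, M', hM'⟩ := exists_fin_machine (TM1to0.tr M1) _ s0
  refine ⟨TM2to1.Γ' K' (fun _ => PartrecToTM2.Γ'), Λ₀, inferInstance, inferInstance,
    inferInstance, j1, j2, M', emb0, fun b => emb (cond b Γ'.bit1 Γ'.bit0), ?_⟩
  intro n
  rw [hM', ← trInit_eq]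
  have e2 : (StateTransition.eval (TM0.step (TM1to0.tr M1))
      (TM0.init (TM2to1.trInit K'.main (PartrecToTM2.trList [n])))).Dom ↔
      (TM0.eval (TM1to0.tr M1) (TM2to1.trInit K'.main (PartrecToTM2.trList [n]))).Dom := by
    rw [TM0.eval]
    rfl
  have e3 : (TM2.eval (K := K') (Γ := fun _ => PartrecToTM2.Γ') (Λ := PartrecToTM2.Λ')
      (σ := Option PartrecToTM2.Γ') PartrecToTM2.tr K'.main (PartrecToTM2.trList [n])).Dom ↔
      (StateTransition.eval (TM2.step PartrecToTM2.tr) (PartrecToTM2.init c [n])).Dom := by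
    have : (TM2.init K'.main (PartrecToTM2.trList [n]) :
        TM2.Cfg (fun _ : K' => PartrecToTM2.Γ') PartrecToTM2.Λ' (Option PartrecToTM2.Γ')) =
        PartrecToTM2.init c [n] := by
      rw [TM2.init, PartrecToTM2.init]
      congr 1
      funext k
      cases k <;> rfl
    change (StateTransition.eval (TM2.step PartrecToTM2.tr)
      (TM2.init K'.main (PartrecToTM2.trList [n]))).Dom ↔ _
    rw [this]
  rw [e2, TM1to0.tr_eval]
  refine (TM2to1.tr_eval_dom (K := K') (Γ := fun _ => PartrecToTM2.Γ')
    (Λ := PartrecToTM2.Λ') (σ := Option PartrecToTM2.Γ') PartrecToTM2.tr K'.main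
    (PartrecToTM2.trList [n])).trans (e3.trans ?_)
  rw [PartrecToTM2.tr_eval]
  rfl

/-- The bits of a number are primitive recursive. -/
theorem primrec_bits : Primrec Nat.bits := by
  have hg : Primrec₂ (fun (_ : Unit) (l : List (List Bool)) =>
      (if l.length = 0 then some [] else
        (l[Nat.div2 l.length]?).map (fun t => Nat.bodd l.length :: t) : Option (List Bool))) := by
    have hl : Primrec (fun p : Unit × List (List Bool) => p.2.length) :=
      Primrec.list_length.comp Primrec.snd
    refine Primrec.ite (Primrec.eq.comp hl (Primrec.const 0)) (Primrec.const _) ?_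
    refine Primrec.option_map
      (Primrec.list_getElem?.comp Primrec.snd (Primrec.nat_div2.comp hl)) ?_
    exact Primrec.list_cons.comp (Primrec.nat_bodd.comp (hl.comp Primrec.fst)) Primrec.snd
  have := Primrec.nat_strong_rec (fun (_ : Unit) n => Nat.bits n) hg (by
    intro _ n
    by_cases h : n = 0
    · subst h; simp
    · have h2 : Nat.div2 n < n := Nat.binaryRec_decreasing h
      have h3 : n.bits = n.bodd :: n.div2.bits := by
        conv_lhs => rw [← Nat.bit_bodd_div2 n]
        rw [Nat.bits_append_bit]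
        intro h4
        have := Nat.bit_bodd_div2 n
        rw [h4] at this
        cases h5 : n.bodd
        · rw [h5] at this; simp at this; exact absurd this.symm h
        · rfl
      simp [h, h2, h3])
  exact this.comp (Primrec.const ()) Primrec.id

/-- There is a finite Turing machine with undecidable halting problem. -/
theorem exists_universal :
    ∃ (Γ Λ : Type) (_ : Inhabited Γ) (_ : Fintype Γ) (_ : DecidableEq Γ) (_ : Inhabited Λ)
      (_ : Fintype Λ) (M : TM0.Machine Γ Λ) (g0 : Γ) (gb : Bool → Γ),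
      ¬ ComputablePred fun n : ℕ =>
      (StateTransition.eval (TM0.step M) (TM0.init (g0 :: (Nat.bits n).reverse.map gb))).Dom := by
  let f : ℕ →. ℕ := fun m => (Denumerable.ofNat Nat.Partrec.Code m).eval 0
  have hf : Partrec f :=
    Nat.Partrec.Code.eval_part.comp (Computable.ofNat _) (Computable.const 0)
  obtain ⟨c, hc⟩ := Turing.ToPartrec.Code.exists_code (Nat.Partrec'.part_iff₁.2 hf)
  obtain ⟨Γ, Λ, i1, i2, i3, i4, i5, M, g0, gb, hM⟩ := exists_tm c
  refine ⟨Γ, Λ, i1, i2, i3, i4, i5, M, g0, gb, ?_⟩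
  intro hcomp
  apply ComputablePred.halting_problem 0
  have h1 : ComputablePred fun n : ℕ => (f n).Dom := by
    refine hcomp.of_eq ?_
    intro n
    rw [hM]
    have := hc ⟨[n], rfl⟩
    have h2 : c.eval [n] = pure <$> f n := this
    rw [h2]
    rfl
  have h3 : ComputablePred fun c : Nat.Partrec.Code => (f (Encodable.encode c)).Dom :=
    ComputablePred.computable_of_manyOneReducible
      ⟨Encodable.encode, Computable.encode, fun _ => Iff.rfl⟩ h1
  refine h3.of_eq ?_
  intro c
  simp [f]

end Pool.Agent.OneRel
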