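import Pool.Agent.OneRel.SnakeInf
import Pool.Agent.OneRel.Universal

/-!
# The reduction is computable
-/

set_option autoImplicit false

namespace Pool.Agent.OneRel

open Turing

/-- Words. -/
abbrev RW : Type := List (Fin 2 × Bool)

/-- The inverse word. -/
def rinv (w : RW) : RW := (w.map fun p => (p.1, !p.2)).reverse

/-- Powers of the first generator. -/
def rx (m : ℕ) : RW := (List.range m).map fun _ => (0, true)

/-- The commutator. -/
def rc0 : RW := [(0, true), (1, true), (0, false), (1, false)]

/-- Conjugates. -/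
def rconj (v w : RW) : RW := v ++ w ++ rinv v

/-- The operator on words. -/
def rop (p : ℕ × Bool) (W : RW) : RW :=
  W ++ (bif p.2 then rconj (rconj (rx p.1) rc0) W else rinv (rconj (rconj (rx p.1) rc0) W))

/-- Products of operators on words. -/
def rE (L : List (ℕ × Bool)) (W : RW) : RW := L.foldr rop W

theorem mk_rinv (w : RW) : FreeGroup.mk (rinv w) = (FreeGroup.mk w)⁻¹ := by
  rw [FreeGroup.inv_mk]
  rfl

theorem mk_rx (m : ℕ) : FreeGroup.mk (rx m) = g ((m : ℤ), 0) := by
  have h : FreeGroup.mk (rx m) = x ^ m := by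
    induction m with
    | zero => simp [rx, ← FreeGroup.one_eq_mk]
    | succ m ih =>
      rw [rx, List.range_succ, List.map_append, ← FreeGroup.mul_mk, pow_succ, ← ih]
      rfl
  rw [h, g]
  simp

theorem mk_rconj (v w : RW) :
    FreeGroup.mk (rconj v w) = FreeGroup.mk v * FreeGroup.mk w * (FreeGroup.mk v)⁻¹ := by
  rw [rconj, ← FreeGroup.mul_mk, ← FreeGroup.mul_mk, mk_rinv]

theorem mk_rc0 : FreeGroup.mk rc0 = c := by
  rfl

theorem mk_rop (p : ℕ × Bool) (W : RW) :
    FreeGroup.mk (rop p W) = op (((p.1 : ℤ), 0), p.2) (FreeGroup.mk W) := by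
  rw [rop, op, ← FreeGroup.mul_mk, cw, ← mk_rx, ← mk_rc0, ← mk_rconj]
  cases p.2
  · simp only [cond_false, Bool.false_eq_true, if_false, mk_rinv, mk_rconj]
  · simp only [cond_true, if_true, mk_rconj]

theorem mk_rE (L : List (ℕ × Bool)) (W : RW) :
    FreeGroup.mk (rE L W) = E (L.map fun p => (((p.1 : ℤ), 0), p.2)) (FreeGroup.mk W) := by
  induction L with
  | nil => rfl
  | cons p L ih =>
    change FreeGroup.mk (rop p (rE L W)) = op _ (E _ _)
    rw [mk_rop, ih]

theorem primrec_rinv : Primrec rinv := by
  refine Primrec.list_reverse.comp (Primrec.list_map Primrec.id ?_)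
  exact Primrec.pair (Primrec.fst.comp Primrec.snd) (Primrec.not.comp (Primrec.snd.comp Primrec.snd))

theorem primrec_rx : Primrec rx :=
  Primrec.list_map Primrec.list_range (Primrec.const _).to₂

theorem primrec_rconj : Primrec₂ rconj :=
  Primrec.list_append.comp (Primrec.list_append.comp Primrec.fst Primrec.snd)
    (primrec_rinv.comp Primrec.fst)

theorem primrec_rop : Primrec₂ rop := by
  have h1 : Primrec (fun q : (ℕ × Bool) × RW => rconj (rconj (rx q.1.1) rc0) q.2) :=
    primrec_rconj.comp (primrec_rconj.comp (primrec_rx.comp (Primrec.fst.comp Primrec.fst))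
      (Primrec.const rc0)) Primrec.snd
  refine Primrec.list_append.comp Primrec.snd ?_
  exact Primrec.cond (Primrec.snd.comp Primrec.fst) h1 (primrec_rinv.comp h1)

theorem primrec_rE : Primrec₂ rE := by
  have h : Primrec₂ (fun (_ : List (ℕ × Bool) × RW) (p : (ℕ × Bool) × RW) => rop p.1 p.2) :=
    primrec_rop.comp (Primrec.fst.comp Primrec.snd) (Primrec.snd.comp Primrec.snd)
  exact Primrec.list_foldr Primrec.fst Primrec.snd h

/-! ### The codes of the first row -/

variable (K cE cB cH cL : ℕ) (cb : Bool → ℕ)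

/-- The code of the symbol at `X` for the input `n`. -/
def val (n X : ℕ) : ℕ :=
  if X = 0 then cE else if X = 1 then cB else if X = 2 then cH
  else if X = (Nat.bits n).length + 5 then cL
  else ((Nat.bits n).reverse[X - 3]?).elim cB cb

theorem primrec_val : Primrec₂ (val cE cB cH cL cb) := by
  have hb : Primrec (fun p : ℕ × ℕ => Nat.bits p.1) := primrec_bits.comp Primrec.fst
  refine Primrec.ite (Primrec.eq.comp Primrec.snd (Primrec.const 0)) (Primrec.const _) ?_
  refine Primrec.ite (Primrec.eq.comp Primrec.snd (Primrec.const 1)) (Primrec.const _) ?_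
  refine Primrec.ite (Primrec.eq.comp Primrec.snd (Primrec.const 2)) (Primrec.const _) ?_
  refine Primrec.ite (Primrec.eq.comp Primrec.snd
    (Primrec.nat_add.comp (Primrec.list_length.comp hb) (Primrec.const 5))) (Primrec.const _) ?_
  have h1 : Primrec (fun p : ℕ × ℕ => (Nat.bits p.1).reverse[p.2 - 3]?) :=
    Primrec.list_getElem?.comp (Primrec.list_reverse.comp hb)
      (Primrec.nat_sub.comp Primrec.snd (Primrec.const 3))
  have h2 : Primrec (fun p : ℕ × ℕ => (Option.casesOn ((Nat.bits p.1).reverse[p.2 - 3]?) cB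
      (fun b => cb b) : ℕ)) :=
    Primrec.option_casesOn h1 (Primrec.const cB) (((Primrec.dom_bool cb).comp Primrec.snd).to₂)
  refine h2.of_eq ?_
  intro p
  cases (Nat.bits p.1).reverse[p.2 - 3]? <;> rfl

/-- The list of operators. -/
def rL (n : ℕ) : List (ℕ × Bool) :=
  (List.range ((Nat.bits n).length + 6)).flatMap fun X =>
    (List.range K).map fun j => ((K + 1) * X + 1 + j, !(decide (j = val cE cB cH cL cb n X)))

theorem primrec_rL : Primrec (rL K cE cB cH cL cb) := by
  refine Primrec.list_flatMap (Primrec.list_range.comp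
    (Primrec.nat_add.comp (Primrec.list_length.comp primrec_bits) (Primrec.const 6))) ?_
  refine Primrec.list_map (Primrec.const (List.range K)) ?_
  refine Primrec.pair ?_ ?_
  · exact Primrec.nat_add.comp (Primrec.nat_add.comp (Primrec.nat_mul.comp (Primrec.const (K + 1))
      (Primrec.snd.comp Primrec.fst)) (Primrec.const 1)) Primrec.snd
  · refine Primrec.not.comp ?_
    refine (Primrec.eq (α := ℕ)).decide.comp Primrec.snd ?_
    exact (primrec_val cE cB cH cL cb).comp (Primrec.fst.comp Primrec.fst)
      (Primrec.snd.comp Primrec.fst)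

/-- The word attached to the input `n`. -/
def rword (n : ℕ) : RW :=
  rE (rL K cE cB cH cL cb n) (rconj (rx ((K + 1) * ((Nat.bits n).length + 5))) (rc0 ++ rc0))

theorem primrec_rword : Primrec (rword K cE cB cH cL cb) := by
  refine primrec_rE.comp (primrec_rL K cE cB cH cL cb) ?_
  refine primrec_rconj.comp (primrec_rx.comp ?_) (Primrec.const _)
  exact Primrec.nat_mul.comp (Primrec.const _)
    (Primrec.nat_add.comp (Primrec.list_length.comp primrec_bits) (Primrec.const 5))

end Pool.Agent.OneRel
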