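import Pool.Agent.OneRel.Walker

/-!
# The snake: a walker which follows the space-time diagram of a Turing machine
-/

set_option autoImplicit false

namespace Pool.Agent.OneRel

open Turing

/-- Roles of the cells of a row. -/
inductive Role | F | S | I | J | K | L | D | E
  deriving DecidableEq

namespace Role

instance : Fintype Role := ⟨{F, S, I, J, K, L, D, E}, fun r => by cases r <;> simp⟩

end Role

section Snake

variable {Γ Λ : Type} [Inhabited Γ] [Inhabited Λ]

variable (Γ Λ) in
/-- The content of a cell: a possible head state and a tape symbol. -/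
abbrev Cell : Type := Option Λ × Γ

variable (Γ Λ) in
/-- Symbols: direction of the row (`true` = to the right), role, content. -/
abbrev Sym : Type := Bool × Role × Cell Γ Λ

/-- The blank cell. -/
def blank : Cell Γ Λ := (none, default)

/-- The sign of a direction. -/
def dl (b : Bool) : ℤ := if b then 1 else -1

theorem dl_not (b : Bool) : dl (!b) = - dl b := by cases b <;> simp [dl]

variable (M : TM0.Machine Γ Λ)

/-- The local rule. -/
def G (l c r : Cell Γ Λ) : Option (Cell Γ Λ) :=
  match c.1 with
  | some q => match M q c.2 with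
    | none => none
    | some (q', TM0.Stmt.write b) => some (some q', b)
    | some (_, TM0.Stmt.move _) => some (none, c.2)
  | none => match l.1 with
    | some q => match M q l.2 with
      | some (q', TM0.Stmt.move Dir.right) => some (some q', c.2)
      | _ => some (none, c.2)
    | none => match r.1 with
      | some q => match M q r.2 with
        | some (q', TM0.Stmt.move Dir.left) => some (some q', c.2)
        | _ => some (none, c.2)
      | none => some (none, c.2)

/-- The content of the cell at the absolute position `X` when the head is at `p`. -/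
def cellOf (c : TM0.Cfg Γ Λ) (p X : ℤ) : Cell Γ Λ :=
  (if X = p then some c.q else none, c.Tape.nth (X - p))

/-- The displacement of a statement. -/
def disp : TM0.Stmt Γ → ℤ
  | TM0.Stmt.move Dir.left => -1
  | TM0.Stmt.move Dir.right => 1
  | TM0.Stmt.write _ => 0

/-- The effect of a statement on the tape. -/
def app : TM0.Stmt Γ → Tape Γ → Tape Γ
  | TM0.Stmt.move d, T => T.move d
  | TM0.Stmt.write b, T => T.write b

theorem step_eq_some {c c' : TM0.Cfg Γ Λ} (h : TM0.step M c = some c') :
    ∃ q' st, M c.q c.Tape.head = some (q', st) ∧ c' = ⟨q', app st c.Tape⟩ := by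
  obtain ⟨q, T⟩ := c
  simp only [TM0.step] at h
  rw [Option.map_eq_some_iff] at h
  obtain ⟨⟨q', st⟩, h1, h2⟩ := h
  refine ⟨q', st, h1, ?_⟩
  rw [← h2]
  cases st <;> rfl

theorem step_eq_none {c : TM0.Cfg Γ Λ} (h : TM0.step M c = none) :
    M c.q c.Tape.head = none := by
  obtain ⟨q, T⟩ := c
  simp only [TM0.step, Option.map_eq_none_iff] at h
  exact h

/-- The symbol at `X` after a statement. -/
def newAt (st : TM0.Stmt Γ) (T : Tape Γ) (p X : ℤ) : Γ :=
  match st with
  | TM0.Stmt.write b => if X = p then b else T.nth (X - p)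
  | TM0.Stmt.move _ => T.nth (X - p)

theorem nth_app (st : TM0.Stmt Γ) (T : Tape Γ) (p X : ℤ) :
    (app st T).nth (X - (p + disp st)) = newAt st T p X := by
  cases st with
  | write b =>
    simp only [app, disp, add_zero, Tape.write_nth, newAt]
    by_cases h : X = p
    · simp [h]
    · have : ¬ (X - p = 0) := by omega
      simp [h, this]
  | move d =>
    cases d
    · simp only [app, disp, Tape.move_left_nth]
      congr 1; ring
    · simp only [app, disp, Tape.move_right_nth]
      congr 1; ring

theorem G_step (c : TM0.Cfg Γ Λ) (p : ℤ) (q' : Λ) (st : TM0.Stmt Γ)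
    (h : M c.q c.Tape.head = some (q', st)) (X : ℤ) :
    G M (cellOf c p (X - 1)) (cellOf c p X) (cellOf c p (X + 1)) =
      some (cellOf ⟨q', app st c.Tape⟩ (p + disp st) X) := by
  have hh : c.Tape.nth 0 = c.Tape.head := rfl
  have key : cellOf (⟨q', app st c.Tape⟩ : TM0.Cfg Γ Λ) (p + disp st) X =
      (if X = p + disp st then some q' else none, newAt st c.Tape p X) := by
    rw [← nth_app]; rfl
  rw [key]
  clear key
  by_cases hX : X = p
  · subst hX
    cases st with
    | write b => simp [G, cellOf, hh, h, disp, newAt]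
    | move d =>
      cases d <;> simp [G, cellOf, hh, h, disp, newAt]
  · by_cases h1 : X - 1 = p
    · have h2 : X = p + 1 := by omega
      subst h2
      cases st with
      | write b => simp [G, cellOf, hh, h, disp, newAt]
      | move d =>
        cases d
        · have h4 : ¬ (p + 1 = p + -1) := by omega
          simp [G, cellOf, hh, h, disp, newAt, h4]
        · simp [G, cellOf, hh, h, disp, newAt]
    · by_cases h2 : X + 1 = p
      · have h3 : X = p - 1 := by omega
        subst h3
        have h4 : ¬ (p - 1 - 1 = p) := by omega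
        have h5 : ¬ (p - 1 = p) := by omega
        cases st with
        | write b => simp [G, cellOf, hh, h, disp, newAt, h4, h5]
        | move d =>
          cases d
          · have h6 : p + -1 = p - 1 := by omega
            simp [G, cellOf, hh, h, disp, newAt, h4, h6]
          · have h6 : ¬ (p - 1 = p + 1) := by omega
            simp [G, cellOf, hh, h, disp, newAt, h4, h6]
      · cases st with
        | write b => simp [G, cellOf, hX, h1, h2, disp, newAt]
        | move d =>
          cases d
          · have h6 : ¬ (X = p + -1) := by omega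
            simp [G, cellOf, hX, h1, h2, disp, newAt, h6]
          · have h6 : ¬ (X = p + 1) := by omega
            simp [G, cellOf, hX, h1, h2, disp, newAt, h6]

theorem G_none (c : TM0.Cfg Γ Λ) (p : ℤ) (h : M c.q c.Tape.head = none) :
    G M (cellOf c p (p - 1)) (cellOf c p p) (cellOf c p (p + 1)) = none := by
  have hh : c.Tape.nth 0 = c.Tape.head := rfl
  simp [G, cellOf, hh, h]

theorem G_idle (c : TM0.Cfg Γ Λ) (p : ℤ) (h : M c.q c.Tape.head = none) (X : ℤ) (hX : X ≠ p) :
    G M (cellOf c p (X - 1)) (cellOf c p X) (cellOf c p (X + 1)) = some (cellOf c p X) := by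
  have hh : c.Tape.nth 0 = c.Tape.head := rfl
  by_cases h1 : X - 1 = p
  · have h2 : X = p + 1 := by omega
    subst h2
    simp [G, cellOf, hh, h]
  · by_cases h2 : X + 1 = p
    · have h3 : X = p - 1 := by omega
      subst h3
      have h4 : ¬ (p - 1 - 1 = p) := by omega
      simp [G, cellOf, hh, h, h4]
    · simp [G, cellOf, hX, h1, h2]

/-! ### Rows -/

/-- The direction of row `k`. -/
def dir (k : ℕ) : Bool := k % 2 == 0

theorem dir_succ (k : ℕ) : dir (k + 1) = !dir k := by
  unfold dir
  rcases Nat.mod_two_eq_zero_or_one k with h | h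
  · have : (k + 1) % 2 = 1 := by omega
    simp [h, this]
  · have : (k + 1) % 2 = 0 := by omega
    simp [h, this]

/-- The role of the cell of index `i` in a row whose last index is `n`. -/
def role (n i : ℤ) : Role :=
  if i = 0 then Role.F else if i = 1 then Role.S else if i = n then Role.L
  else if i = n - 1 then Role.K else if i = n - 2 then Role.J else Role.I

/-- The index of the cell at position `X` in a row `[A, B]` with direction `d`. -/
def idx (d : Bool) (A B X : ℤ) : ℤ := if d then X - A else B - X

/-- The symbols of row `k`, occupying `[A, B]`, with contents `cc`. -/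
def rowSym (k : ℕ) (A B : ℤ) (cc : ℤ → Cell Γ Λ) (X : ℤ) : Sym Γ Λ :=
  (dir k, if k = 0 then (if X = A then Role.E else if X = B then Role.L else Role.D)
    else role (B - A) (idx (dir k) A B X), cc X)

/-- Roles marking the far end of the previous row. -/
def isEnd : Role → Bool
  | Role.F => true
  | Role.E => true
  | _ => false

/-- The snake walker. -/
def snake : Walker (Sym Γ Λ) where
  mv a := match a.2.1 with
    | Role.L => (dl a.1, 1)
    | _ => (dl a.1, 0)
  o1 a := match a.2.1 with
    | Role.S => (0, -1)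
    | Role.I => (0, -1)
    | _ => (0, 0)
  o2 a := match a.2.1 with
    | Role.S => (dl a.1, -1)
    | Role.I => (dl a.1, -1)
    | _ => (0, 0)
  o3 a := match a.2.1 with
    | Role.S => (2 * dl a.1, -1)
    | Role.I => (2 * dl a.1, -1)
    | _ => (0, 0)
  nxt a s1 s2 s3 := match a.2.1 with
    | Role.F => some (a.1, Role.S, blank)
    | Role.S => (G M (if a.1 then s1.2.2 else s3.2.2) s2.2.2
        (if a.1 then s3.2.2 else s1.2.2)).map
          fun c' => (a.1, if isEnd s3.2.1 then Role.J else Role.I, c')
    | Role.I => (G M (if a.1 then s1.2.2 else s3.2.2) s2.2.2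
        (if a.1 then s3.2.2 else s1.2.2)).map
          fun c' => (a.1, if isEnd s3.2.1 then Role.J else Role.I, c')
    | Role.J => some (a.1, Role.K, blank)
    | Role.K => some (a.1, Role.L, blank)
    | Role.L => some (!a.1, Role.F, blank)
    | Role.D => none
    | Role.E => none

/-- The horizontal position of the cell with index `i`. -/
def xpos (d : Bool) (A B i : ℤ) : ℤ := if d then A + i else B - i

theorem idx_xpos (d : Bool) (A B i : ℤ) : idx d A B (xpos d A B i) = i := by
  cases d <;> simp [idx, xpos]

theorem xpos_succ (d : Bool) (A B i : ℤ) : xpos d A B (i + 1) = xpos d A B i + dl d := by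
  cases d <;> simp [xpos, dl] <;> ring

theorem isEnd_role (n j : ℤ) (hn : 4 ≤ n) : isEnd (role n j) = decide (j = 0) := by
  unfold role
  split_ifs with h1 h2 h3 h4 h5 <;> simp [isEnd, h1]

theorem isEnd_prev (k : ℕ) (A B : ℤ) (hAB : A + 6 ≤ B) (cp : ℤ → Cell Γ Λ) (i : ℤ)
    (h1 : 1 ≤ i) (hi : i ≤ B - A - 3) :
    isEnd (rowSym k (A + 1) (B - 1) cp (xpos (dir (k + 1)) A B (i + 2))).2.1 =
      decide (i = B - A - 3) := by
  simp only [rowSym]
  by_cases hk : k = 0
  · subst hk
    have hd : dir (0 + 1) = false := by decide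
    simp only [if_true, hd, xpos, Bool.false_eq_true, if_false]
    by_cases h2 : i = B - A - 3
    · have h3 : B - (i + 2) = A + 1 := by omega
      rw [if_pos h3, h2]
      simp [isEnd]
    · have h3 : ¬ (B - (i + 2) = A + 1) := by omega
      have h4 : ¬ (B - (i + 2) = B - 1) := by omega
      simp [h3, h4, isEnd, h2]
  · simp only [hk, if_false]
    rw [isEnd_role _ _ (by omega), dir_succ]
    apply decide_eq_decide.mpr
    cases hd : dir k
    · simp only [idx, xpos, Bool.false_eq_true, if_false, Bool.not_false, if_true]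
      omega
    · simp only [idx, xpos, Bool.not_true, Bool.false_eq_true, if_false, if_true]
      omega

theorem rowSym_succ (k : ℕ) (A B : ℤ) (cc : ℤ → Cell Γ Λ) (i : ℤ) :
    rowSym (k + 1) A B cc (xpos (dir (k + 1)) A B i) =
      (dir (k + 1), role (B - A) i, cc (xpos (dir (k + 1)) A B i)) := by
  simp [rowSym, idx_xpos]

/-- The reading steps. -/
theorem snake_read (k : ℕ) (A B : ℤ) (hAB : A + 6 ≤ B) (cp cn : ℤ → Cell Γ Λ) (i : ℤ)
    (h1 : 1 ≤ i) (hi : i ≤ B - A - 3) :
    (snake M).nxt (rowSym (k + 1) A B cn (xpos (dir (k + 1)) A B i))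
      (rowSym k (A + 1) (B - 1) cp (xpos (dir (k + 1)) A B i))
      (rowSym k (A + 1) (B - 1) cp (xpos (dir (k + 1)) A B (i + 1)))
      (rowSym k (A + 1) (B - 1) cp (xpos (dir (k + 1)) A B (i + 2))) =
    (G M (cp (xpos (dir (k + 1)) A B (i + 1) - 1)) (cp (xpos (dir (k + 1)) A B (i + 1)))
      (cp (xpos (dir (k + 1)) A B (i + 1) + 1))).map
        (fun c' => (dir (k + 1), role (B - A) (i + 1), c')) := by
  have hr : role (B - A) i = Role.S ∨ role (B - A) i = Role.I := by
    unfold role
    by_cases h : i = 1
    · left; simp [h]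
    · right
      have e1 : ¬ (i = 0) := by omega
      have e2 : ¬ (i = B - A) := by omega
      have e3 : ¬ (i = B - A - 1) := by omega
      have e4 : ¬ (i = B - A - 2) := by omega
      simp [h, e1, e2, e3, e4]
  have hr2 : (if isEnd (rowSym k (A + 1) (B - 1) cp (xpos (dir (k + 1)) A B (i + 2))).2.1
      then Role.J else Role.I) = role (B - A) (i + 1) := by
    rw [isEnd_prev k A B hAB cp i h1 hi]
    unfold role
    have e1 : ¬ (i + 1 = 0) := by omega
    have e2 : ¬ (i + 1 = 1) := by omega
    have e3 : ¬ (i + 1 = B - A) := by omega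
    have e4 : ¬ (i + 1 = B - A - 1) := by omega
    by_cases h : i = B - A - 3
    · have e5 : i + 1 = B - A - 2 := by omega
      rw [if_neg e1, if_neg e2, if_neg e3, if_neg e4, if_pos e5, if_pos (by simp [h])]
    · have e5 : ¬ (i + 1 = B - A - 2) := by omega
      simp [e1, e2, e3, e4, e5, h]
  have hx : (if dir (k + 1) then cp (xpos (dir (k + 1)) A B i) else
      cp (xpos (dir (k + 1)) A B (i + 2))) = cp (xpos (dir (k + 1)) A B (i + 1) - 1) := by
    cases dir (k + 1)
    · simp only [xpos, Bool.false_eq_true, if_false]; congr 1; ring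
    · simp only [xpos, if_true]; congr 1; ring
  have hy : (if dir (k + 1) then cp (xpos (dir (k + 1)) A B (i + 2)) else
      cp (xpos (dir (k + 1)) A B i)) = cp (xpos (dir (k + 1)) A B (i + 1) + 1) := by
    cases dir (k + 1)
    · simp only [xpos, Bool.false_eq_true, if_false]; congr 1; ring
    · simp only [xpos, if_true]; congr 1; ring
  rw [rowSym_succ]
  have hc : ∀ X, (rowSym k (A + 1) (B - 1) cp X).2.2 = cp X := fun X => rfl
  rcases hr with hr | hr
  · simp only [snake, hr, hc, hx, hy, hr2]
  · simp only [snake, hr, hc, hx, hy, hr2]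

/-- One step inside a new row. -/
theorem snake_row (k : ℕ) (A B : ℤ) (hAB : A + 6 ≤ B) (cp cn : ℤ → Cell Γ Λ) (i : ℤ) (h0 : 0 ≤ i)
    (hi : i < B - A)
    (hG : ∀ X, X = xpos (dir (k + 1)) A B (i + 1) → A + 2 ≤ X → X ≤ B - 2 →
      G M (cp (X - 1)) (cp X) (cp (X + 1)) = some (cn X))
    (hA : cn A = blank) (hA1 : cn (A + 1) = blank) (hB : cn B = blank) (hB1 : cn (B - 1) = blank)
    (Kn : ℤ × ℤ → Sym Γ Λ → Prop)
    (hKp : ∀ X, A + 1 ≤ X → X ≤ B - 1 → Kn (X, k) (rowSym k (A + 1) (B - 1) cp X))
    (hKn : Kn (xpos (dir (k + 1)) A B i, (k : ℤ) + 1)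
      (rowSym (k + 1) A B cn (xpos (dir (k + 1)) A B i))) :
    ∃ a s1 s2 s3 : Sym Γ Λ, a = rowSym (k + 1) A B cn (xpos (dir (k + 1)) A B i) ∧
      Kn ((xpos (dir (k + 1)) A B i, (k : ℤ) + 1) + (snake M).o1 a) s1 ∧
      Kn ((xpos (dir (k + 1)) A B i, (k : ℤ) + 1) + (snake M).o2 a) s2 ∧
      Kn ((xpos (dir (k + 1)) A B i, (k : ℤ) + 1) + (snake M).o3 a) s3 ∧
      (snake M).nxt a s1 s2 s3 = some (rowSym (k + 1) A B cn (xpos (dir (k + 1)) A B (i + 1))) ∧
      (xpos (dir (k + 1)) A B i, (k : ℤ) + 1) + (snake M).mv a =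
        (xpos (dir (k + 1)) A B (i + 1), (k : ℤ) + 1) := by
  have hz : ∀ Z : ℤ × ℤ, Z + (0, 0) = Z := fun Z => by ext <;> simp
  have hmv : (xpos (dir (k + 1)) A B i, (k : ℤ) + 1) + (dl (dir (k + 1)), (0 : ℤ)) =
      (xpos (dir (k + 1)) A B (i + 1), (k : ℤ) + 1) := by
    rw [xpos_succ]; ext <;> simp
  by_cases hr1 : 1 ≤ i ∧ i ≤ B - A - 3
  · obtain ⟨h1, h2⟩ := hr1
    have hr : role (B - A) i = Role.S ∨ role (B - A) i = Role.I := by
      unfold role
      by_cases h : i = 1
      · left; simp [h]
      · right
        have e1 : ¬ (i = 0) := by omega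
        have e2 : ¬ (i = B - A) := by omega
        have e3 : ¬ (i = B - A - 1) := by omega
        have e4 : ¬ (i = B - A - 2) := by omega
        simp [h, e1, e2, e3, e4]
    have hbd : ∀ j, 1 ≤ j → j ≤ B - A - 1 → A + 1 ≤ xpos (dir (k + 1)) A B j ∧
        xpos (dir (k + 1)) A B j ≤ B - 1 := by
      intro j hj hj2
      cases dir (k + 1) <;> simp only [xpos, Bool.false_eq_true, if_false, if_true] <;> omega
    refine ⟨_, _, _, _, rfl, ?_, ?_, ?_, (snake_read M k A B hAB cp cn i h1 h2).trans ?_, ?_⟩
    · have := hKp (xpos (dir (k + 1)) A B i) (hbd i (by omega) (by omega)).1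
        (hbd i (by omega) (by omega)).2
      convert this using 1
      rw [rowSym_succ]
      rcases hr with hr | hr <;> simp [snake, hr]
    · have := hKp (xpos (dir (k + 1)) A B (i + 1)) (hbd (i + 1) (by omega) (by omega)).1
        (hbd (i + 1) (by omega) (by omega)).2
      convert this using 1
      rw [rowSym_succ, xpos_succ]
      rcases hr with hr | hr <;> simp [snake, hr]
    · have := hKp (xpos (dir (k + 1)) A B (i + 2)) (hbd (i + 2) (by omega) (by omega)).1
        (hbd (i + 2) (by omega) (by omega)).2
      convert this using 1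
      have h5 : xpos (dir (k + 1)) A B (i + 2) = xpos (dir (k + 1)) A B i +
          2 * dl (dir (k + 1)) := by
        have : i + 2 = i + 1 + 1 := by ring
        rw [this, xpos_succ, xpos_succ]; ring
      rw [rowSym_succ, h5]
      rcases hr with hr | hr <;> simp [snake, hr]
    · have h6 : A + 2 ≤ xpos (dir (k + 1)) A B (i + 1) ∧
          xpos (dir (k + 1)) A B (i + 1) ≤ B - 2 := by
        cases dir (k + 1) <;> simp only [xpos, Bool.false_eq_true, if_false, if_true] <;> omega
      rw [hG _ rfl h6.1 h6.2, rowSym_succ]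
      rfl
    · rw [rowSym_succ, ← hmv]
      rcases hr with hr | hr <;> simp [snake, hr]
  · have hcase : i = 0 ∨ i = B - A - 2 ∨ i = B - A - 1 := by omega
    have hbl : cn (xpos (dir (k + 1)) A B (i + 1)) = blank := by
      cases dir (k + 1)
      · simp only [xpos, Bool.false_eq_true, if_false]
        rcases hcase with h | h | h
        · rw [show B - (i + 1) = B - 1 by omega]; exact hB1
        · rw [show B - (i + 1) = A + 1 by omega]; exact hA1
        · rw [show B - (i + 1) = A by omega]; exact hA
      · simp only [xpos, if_true]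
        rcases hcase with h | h | h
        · rw [show A + (i + 1) = A + 1 by omega]; exact hA1
        · rw [show A + (i + 1) = B - 1 by omega]; exact hB1
        · rw [show A + (i + 1) = B by omega]; exact hB
    have hr : role (B - A) i = Role.F ∨ role (B - A) i = Role.J ∨ role (B - A) i = Role.K := by
      unfold role
      rcases hcase with h | h | h
      · left; simp [h]
      · right; left
        rw [if_neg (by omega), if_neg (by omega), if_neg (by omega), if_neg (by omega),
          if_pos (by omega)]
      · right; right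
        rw [if_neg (by omega), if_neg (by omega), if_neg (by omega), if_pos (by omega)]
    have ho : (snake M).o1 (rowSym (k + 1) A B cn (xpos (dir (k + 1)) A B i)) = (0, 0) ∧
        (snake M).o2 (rowSym (k + 1) A B cn (xpos (dir (k + 1)) A B i)) = (0, 0) ∧
        (snake M).o3 (rowSym (k + 1) A B cn (xpos (dir (k + 1)) A B i)) = (0, 0) := by
      rw [rowSym_succ]
      rcases hr with hr | hr | hr <;> simp [snake, hr]
    refine ⟨rowSym (k + 1) A B cn (xpos (dir (k + 1)) A B i),
      rowSym (k + 1) A B cn (xpos (dir (k + 1)) A B i),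
      rowSym (k + 1) A B cn (xpos (dir (k + 1)) A B i),
      rowSym (k + 1) A B cn (xpos (dir (k + 1)) A B i), rfl, ?_, ?_, ?_, ?_, ?_⟩
    · rw [ho.1, hz]; exact hKn
    · rw [ho.2.1, hz]; exact hKn
    · rw [ho.2.2, hz]; exact hKn
    · rw [rowSym_succ, rowSym_succ, hbl]
      rcases hcase with h | h | h
      · have e1 : role (B - A) i = Role.F := by simp [role, h]
        have e2 : role (B - A) (i + 1) = Role.S := by simp [role, h]
        simp [snake, e1, e2]
      · have e1 : role (B - A) i = Role.J := by
          unfold role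
          rw [if_neg (by omega), if_neg (by omega), if_neg (by omega), if_neg (by omega),
            if_pos (by omega)]
        have e2 : role (B - A) (i + 1) = Role.K := by
          unfold role
          rw [if_neg (by omega), if_neg (by omega), if_neg (by omega), if_pos (by omega)]
        simp [snake, e1, e2]
      · have e1 : role (B - A) i = Role.K := by
          unfold role
          rw [if_neg (by omega), if_neg (by omega), if_neg (by omega), if_pos (by omega)]
        have e2 : role (B - A) (i + 1) = Role.L := by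
          unfold role
          rw [if_neg (by omega), if_neg (by omega), if_pos (by omega)]
        simp [snake, e1, e2]
    · rw [← hmv, rowSym_succ]
      rcases hr with hr | hr | hr <;> simp [snake, hr]

/-- The step from the last cell of row `k` to the first cell of row `k + 1`. -/
theorem snake_turn (k : ℕ) (A B : ℤ) (hAB : A + 4 ≤ B) (cp cn : ℤ → Cell Γ Λ)
    (hA : cn (A - 1) = blank) (hB : cn (B + 1) = blank)
    (Kn : ℤ × ℤ → Sym Γ Λ → Prop)
    (hK : Kn (xpos (dir k) A B (B - A), (k : ℤ)) (rowSym k A B cp (xpos (dir k) A B (B - A)))) :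
    ∃ a s1 s2 s3 : Sym Γ Λ, a = rowSym k A B cp (xpos (dir k) A B (B - A)) ∧
      Kn ((xpos (dir k) A B (B - A), (k : ℤ)) + (snake M).o1 a) s1 ∧
      Kn ((xpos (dir k) A B (B - A), (k : ℤ)) + (snake M).o2 a) s2 ∧
      Kn ((xpos (dir k) A B (B - A), (k : ℤ)) + (snake M).o3 a) s3 ∧
      (snake M).nxt a s1 s2 s3 =
        some (rowSym (k + 1) (A - 1) (B + 1) cn (xpos (dir (k + 1)) (A - 1) (B + 1) 0)) ∧
      (xpos (dir k) A B (B - A), (k : ℤ)) + (snake M).mv a =
        (xpos (dir (k + 1)) (A - 1) (B + 1) 0, (k : ℤ) + 1) := by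
  have hz : ∀ Z : ℤ × ℤ, Z + (0, 0) = Z := fun Z => by ext <;> simp
  have hr : (rowSym k A B cp (xpos (dir k) A B (B - A))).2.1 = Role.L := by
    simp only [rowSym]
    by_cases hk : k = 0
    · subst hk
      have hd : dir 0 = true := by decide
      simp only [if_true, hd, xpos]
      rw [if_neg (by omega), if_pos (by omega)]
    · simp only [hk, if_false, idx_xpos]
      unfold role
      rw [if_neg (by omega), if_neg (by omega), if_pos rfl]
  have ho : (snake M).o1 (rowSym k A B cp (xpos (dir k) A B (B - A))) = (0, 0) ∧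
      (snake M).o2 (rowSym k A B cp (xpos (dir k) A B (B - A))) = (0, 0) ∧
      (snake M).o3 (rowSym k A B cp (xpos (dir k) A B (B - A))) = (0, 0) := by
    simp [snake, hr]
  refine ⟨rowSym k A B cp (xpos (dir k) A B (B - A)),
    rowSym k A B cp (xpos (dir k) A B (B - A)),
    rowSym k A B cp (xpos (dir k) A B (B - A)),
    rowSym k A B cp (xpos (dir k) A B (B - A)), rfl, ?_, ?_, ?_, ?_, ?_⟩
  · rw [ho.1, hz]; exact hK
  · rw [ho.2.1, hz]; exact hK
  · rw [ho.2.2, hz]; exact hK
  · rw [rowSym_succ]
    have hbl : cn (xpos (dir (k + 1)) (A - 1) (B + 1) 0) = blank := by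
      cases dir (k + 1)
      · simp only [xpos, Bool.false_eq_true, if_false, sub_zero]; exact hB
      · simp only [xpos, if_true, add_zero]; exact hA
    rw [hbl]
    have e2 : role (B + 1 - (A - 1)) 0 = Role.F := by simp [role]
    rw [e2, dir_succ]
    simp only [snake, hr]
    rfl
  · have h1 : (snake M).mv (rowSym k A B cp (xpos (dir k) A B (B - A))) = (dl (dir k), 1) := by
      simp only [snake, hr]
      rfl
    rw [h1, dir_succ]
    ext
    · cases dir k
      · simp [xpos, dl]; omega
      · simp [xpos, dl]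
    · simp

/-- The walker dies in a new row when the local rule is undefined. -/
theorem snake_stop (k : ℕ) (A B : ℤ) (hAB : A + 6 ≤ B) (cp cn : ℤ → Cell Γ Λ) (i : ℤ)
    (h1 : 1 ≤ i) (hi : i ≤ B - A - 3)
    (hG : G M (cp (xpos (dir (k + 1)) A B (i + 1) - 1)) (cp (xpos (dir (k + 1)) A B (i + 1)))
      (cp (xpos (dir (k + 1)) A B (i + 1) + 1)) = none)
    (Kn : ℤ × ℤ → Sym Γ Λ → Prop)
    (hKp : ∀ X, A + 1 ≤ X → X ≤ B - 1 → Kn (X, k) (rowSym k (A + 1) (B - 1) cp X)) :
    ∃ a s1 s2 s3 : Sym Γ Λ, a = rowSym (k + 1) A B cn (xpos (dir (k + 1)) A B i) ∧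
      Kn ((xpos (dir (k + 1)) A B i, (k : ℤ) + 1) + (snake M).o1 a) s1 ∧
      Kn ((xpos (dir (k + 1)) A B i, (k : ℤ) + 1) + (snake M).o2 a) s2 ∧
      Kn ((xpos (dir (k + 1)) A B i, (k : ℤ) + 1) + (snake M).o3 a) s3 ∧
      (snake M).nxt a s1 s2 s3 = none := by
  have hr : role (B - A) i = Role.S ∨ role (B - A) i = Role.I := by
    unfold role
    by_cases h : i = 1
    · left; simp [h]
    · right
      have e1 : ¬ (i = 0) := by omega
      have e2 : ¬ (i = B - A) := by omega
      have e3 : ¬ (i = B - A - 1) := by omega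
      have e4 : ¬ (i = B - A - 2) := by omega
      simp [h, e1, e2, e3, e4]
  have hbd : ∀ j, 1 ≤ j → j ≤ B - A - 1 → A + 1 ≤ xpos (dir (k + 1)) A B j ∧
      xpos (dir (k + 1)) A B j ≤ B - 1 := by
    intro j hj hj2
    cases dir (k + 1) <;> simp only [xpos, Bool.false_eq_true, if_false, if_true] <;> omega
  refine ⟨_, _, _, _, rfl, ?_, ?_, ?_, (snake_read M k A B hAB cp cn i h1 hi).trans ?_⟩
  · have := hKp (xpos (dir (k + 1)) A B i) (hbd i (by omega) (by omega)).1
      (hbd i (by omega) (by omega)).2
    convert this using 1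
    rw [rowSym_succ]
    rcases hr with hr | hr <;> simp [snake, hr]
  · have := hKp (xpos (dir (k + 1)) A B (i + 1)) (hbd (i + 1) (by omega) (by omega)).1
      (hbd (i + 1) (by omega) (by omega)).2
    convert this using 1
    rw [rowSym_succ, xpos_succ]
    rcases hr with hr | hr <;> simp [snake, hr]
  · have := hKp (xpos (dir (k + 1)) A B (i + 2)) (hbd (i + 2) (by omega) (by omega)).1
      (hbd (i + 2) (by omega) (by omega)).2
    convert this using 1
    have h5 : xpos (dir (k + 1)) A B (i + 2) = xpos (dir (k + 1)) A B i +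
        2 * dl (dir (k + 1)) := by
      have : i + 2 = i + 1 + 1 := by ring
      rw [this, xpos_succ, xpos_succ]; ring
    rw [rowSym_succ, h5]
    rcases hr with hr | hr <;> simp [snake, hr]
  · rw [hG]
    rfl

end Snake

end Pool.Agent.OneRel
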