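import Pool.Agent.OneRel.SnakeRun

/-!
# Infinite runs of the snake
-/

set_option autoImplicit false

namespace Pool.Agent.OneRel

open Turing

section Inf

variable {Γ Λ : Type} [Inhabited Γ] [Inhabited Λ] (M : TM0.Machine Γ Λ)

/-- The next configuration with the position of the head. -/
def nx (z : TM0.Cfg Γ Λ × ℤ) : TM0.Cfg Γ Λ × ℤ :=
  match M z.1.q z.1.Tape.head with
  | none => z
  | some (q', st) => (⟨q', app st z.1.Tape⟩, z.2 + disp st)

/-- The configurations of the run. -/
def conf (z : TM0.Cfg Γ Λ × ℤ) (n : ℕ) : TM0.Cfg Γ Λ × ℤ := (nx M)^[n] z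

theorem conf_succ (z : TM0.Cfg Γ Λ × ℤ) (n : ℕ) : conf M z (n + 1) = nx M (conf M z n) := by
  simp [conf, Function.iterate_succ_apply']

theorem conf_reaches (z : TM0.Cfg Γ Λ × ℤ)
    (hinf : ∀ b, StateTransition.Reaches (TM0.step M) z.1 b → TM0.step M b ≠ none) (n : ℕ) :
    StateTransition.Reaches (TM0.step M) z.1 (conf M z n).1 ∧
    ∃ q' st, M (conf M z n).1.q (conf M z n).1.Tape.head = some (q', st) ∧
      conf M z (n + 1) = (⟨q', app st (conf M z n).1.Tape⟩, (conf M z n).2 + disp st) := by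
  have key : ∀ w : TM0.Cfg Γ Λ × ℤ, TM0.step M w.1 ≠ none →
      ∃ q' st, M w.1.q w.1.Tape.head = some (q', st) ∧
        nx M w = (⟨q', app st w.1.Tape⟩, w.2 + disp st) ∧ TM0.step M w.1 = some (nx M w).1 := by
    intro w hw
    obtain ⟨c', hc'⟩ := Option.ne_none_iff_exists'.mp hw
    obtain ⟨q', st, h1, h2⟩ := step_eq_some M hc'
    have h3 : nx M w = (⟨q', app st w.1.Tape⟩, w.2 + disp st) := by
      simp only [nx, h1]
    refine ⟨q', st, h1, h3, ?_⟩
    rw [hc', h2, h3]
  induction n with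
  | zero =>
    refine ⟨Relation.ReflTransGen.refl, ?_⟩
    obtain ⟨q', st, h1, h2, _⟩ := key z (hinf _ Relation.ReflTransGen.refl)
    exact ⟨q', st, h1, h2⟩
  | succ n ih =>
    obtain ⟨h1, _⟩ := ih
    obtain ⟨_, _, _, _, h4⟩ := key (conf M z n) (hinf _ h1)
    have h5 : StateTransition.Reaches (TM0.step M) z.1 (conf M z (n + 1)).1 := by
      rw [conf_succ]
      exact h1.tail h4
    refine ⟨h5, ?_⟩
    obtain ⟨q', st, h6, h7, _⟩ := key (conf M z (n + 1)) (hinf _ h5)
    refine ⟨q', st, h6, ?_⟩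
    rw [conf_succ]
    exact h7

variable (z : TM0.Cfg Γ Λ × ℤ) (A B : ℤ)

/-- The contents of row `k`. -/
def rc (k : ℕ) (X : ℤ) : Cell Γ Λ := cellOf (conf M z k).1 (conf M z k).2 X

/-- The space-time diagram. -/
def diag (v : ℤ × ℤ) : Option (Sym Γ Λ) :=
  if 0 ≤ v.2 ∧ A - v.2 ≤ v.1 ∧ v.1 ≤ B + v.2 then
    some (rowSym v.2.toNat (A - v.2) (B + v.2) (rc M z v.2.toNat) v.1)
  else none

theorem diag_row (k : ℕ) (X : ℤ) (h1 : A - k ≤ X) (h2 : X ≤ B + k) :
    diag M z A B (X, (k : ℤ)) = some (rowSym k (A - k) (B + k) (rc M z k) X) := by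
  have h3 : (0 : ℤ) ≤ (k : ℤ) ∧ A - (k : ℤ) ≤ X ∧ X ≤ B + (k : ℤ) := ⟨by omega, h1, h2⟩
  simp only [diag]
  rw [if_pos h3]
  simp

/-- The next state: row and index. -/
def nst (n0 : ℕ) (w : ℕ × ℕ) : ℕ × ℕ :=
  if w.2 < n0 + 2 * w.1 then (w.1, w.2 + 1) else (w.1 + 1, 0)

/-- The states of the path. -/
def stt (n0 : ℕ) (m : ℕ) : ℕ × ℕ := (nst n0)^[m] (0, n0)

theorem stt_succ (n0 m : ℕ) : stt n0 (m + 1) = nst n0 (stt n0 m) := by
  simp [stt, Function.iterate_succ_apply']

theorem stt_valid (n0 m : ℕ) :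
    (stt n0 m).2 ≤ n0 + 2 * (stt n0 m).1 ∧ ((stt n0 m).1 = 0 → (stt n0 m).2 = n0) := by
  induction m with
  | zero => simp [stt]
  | succ m ih =>
    rw [stt_succ]
    unfold nst
    split_ifs with h
    · refine ⟨by simp only; omega, ?_⟩
      intro h0
      simp only at h0 ⊢
      have := ih.2 h0
      rw [h0, this] at h
      omega
    · refine ⟨by simp only; omega, ?_⟩
      intro h0
      simp at h0

theorem stt_injective (n0 : ℕ) : Function.Injective (stt n0) := by
  have h : StrictMono (fun m => toLex (stt n0 m)) := by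
    apply strictMono_nat_of_lt_succ
    intro m
    rw [Prod.Lex.lt_iff]
    rw [stt_succ]
    simp only [ofLex_toLex]
    unfold nst
    split_ifs with h
    · right; simp
    · left; simp
  intro m m' hm
  exact h.injective (congrArg toLex hm)

theorem stt_cover (n0 k i : ℕ) (hi : i ≤ n0 + 2 * (k + 1)) : ∃ m, stt n0 m = (k + 1, i) := by
  induction k generalizing i with
  | zero =>
    induction i with
    | zero => exact ⟨1, by simp [stt, nst]⟩
    | succ i ih =>
      obtain ⟨m, hm⟩ := ih (by omega)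
      refine ⟨m + 1, ?_⟩
      rw [stt_succ, hm, nst, if_pos (by simp only; omega)]
  | succ k ihk =>
    induction i with
    | zero =>
      obtain ⟨m, hm⟩ := ihk (n0 + 2 * (k + 1)) le_rfl
      refine ⟨m + 1, ?_⟩
      rw [stt_succ, hm, nst, if_neg (by simp only; omega)]
    | succ i ih =>
      obtain ⟨m, hm⟩ := ih (by omega)
      refine ⟨m + 1, ?_⟩
      rw [stt_succ, hm, nst, if_pos (by simp only; omega)]

/-- The cell of a state. -/
def pst (A B : ℤ) (w : ℕ × ℕ) : ℤ × ℤ := (xpos (dir w.1) (A - w.1) (B + w.1) w.2, (w.1 : ℤ))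

theorem pst_injective (A B : ℤ) : Function.Injective (pst A B) := by
  rintro ⟨k, i⟩ ⟨k', i'⟩ h
  simp only [pst, Prod.mk.injEq] at h
  obtain ⟨h1, h2⟩ := h
  have h3 : k = k' := by omega
  subst h3
  have h4 := congrArg (idx (dir k) (A - k) (B + k)) h1
  rw [idx_xpos, idx_xpos] at h4
  have h5 : i = i' := by omega
  rw [h5]

theorem pst_range (A B : ℤ) (n0 : ℕ) (hn : (n0 : ℤ) = B - A) (k i : ℕ) (hi : i ≤ n0 + 2 * k) :
    A - k ≤ (pst A B (k, i)).1 ∧ (pst A B (k, i)).1 ≤ B + k := by
  simp only [pst]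
  cases dir k <;> simp only [xpos, Bool.false_eq_true, if_false, if_true] <;> omega

theorem exists_state (A B : ℤ) (n0 : ℕ) (hn : (n0 : ℤ) = B - A) (k : ℕ) (X : ℤ)
    (h1 : A - k ≤ X) (h2 : X ≤ B + k) : ∃ i, i ≤ n0 + 2 * k ∧ pst A B (k, i) = (X, (k : ℤ)) := by
  refine ⟨(idx (dir k) (A - k) (B + k) X).toNat, ?_, ?_⟩
  · cases dir k <;> simp only [idx, Bool.false_eq_true, if_false, if_true] <;> omega
  · have h3 : (((idx (dir k) (A - k) (B + k) X).toNat : ℕ) : ℤ) =
        idx (dir k) (A - k) (B + k) X := by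
      have : 0 ≤ idx (dir k) (A - k) (B + k) X := by
        cases dir k <;> simp only [idx, Bool.false_eq_true, if_false, if_true] <;> omega
      omega
    simp only [pst, h3, Prod.mk.injEq, and_true]
    cases dir k <;> simp [xpos, idx]

variable (hinf : ∀ b, StateTransition.Reaches (TM0.step M) z.1 b → TM0.step M b ≠ none)
  (hI : Inv z.1 A B z.2)

include hinf hI in
theorem Inv_conf (k : ℕ) : Inv (conf M z k).1 (A - k) (B + k) (conf M z k).2 := by
  induction k with
  | zero => simpa [conf] using hI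
  | succ k ih =>
    obtain ⟨_, q', st, _, h2⟩ := conf_reaches M z hinf k
    rw [h2]
    have := Inv_step _ _ _ _ ih q' st
    have e1 : A - ((k + 1 : ℕ) : ℤ) = A - k - 1 := by push_cast; ring
    have e2 : B + ((k + 1 : ℕ) : ℤ) = B + k + 1 := by push_cast; ring
    rw [e1, e2]
    exact this

include hinf hI in
theorem rc_blank (k : ℕ) (X : ℤ) (hX : X < A - k + 2 ∨ B + k - 2 < X) : rc M z k X = blank :=
  Inv_blank _ _ _ _ (Inv_conf M z A B hinf hI k) X hX

include hinf hI in
theorem run_state (n0 : ℕ) (hn : (n0 : ℤ) = B - A) (w : ℕ × ℕ) (hw : w.2 ≤ n0 + 2 * w.1)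
    (hw0 : w.1 = 0 → w.2 = n0) :
    ∃ a s1 s2 s3 a', diag M z A B (pst A B w) = some a ∧
      diag M z A B (pst A B w + (snake M).o1 a) = some s1 ∧
      diag M z A B (pst A B w + (snake M).o2 a) = some s2 ∧
      diag M z A B (pst A B w + (snake M).o3 a) = some s3 ∧
      (snake M).nxt a s1 s2 s3 = some a' ∧
      diag M z A B (pst A B w + (snake M).mv a) = some a' ∧
      pst A B (nst n0 w) = pst A B w + (snake M).mv a := by
  obtain ⟨k, i⟩ := w
  simp only at hw hw0
  have hIk := Inv_conf M z A B hinf hI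
  have hAB : A + 4 ≤ B := by
    have := hI.1; have := hI.2.1; omega
  by_cases hlt : i < n0 + 2 * k
  · -- inside a row
    obtain ⟨k', rfl⟩ : ∃ k', k = k' + 1 := by
      refine ⟨k - 1, ?_⟩
      rcases Nat.eq_zero_or_pos k with h | h
      · subst h
        have := hw0 rfl
        omega
      · omega
    have e1 : A - ((k' + 1 : ℕ) : ℤ) + 1 = A - k' := by push_cast; ring
    have e2 : B + ((k' + 1 : ℕ) : ℤ) - 1 = B + k' := by push_cast; ring
    have e3 : ((k' + 1 : ℕ) : ℤ) = (k' : ℤ) + 1 := by push_cast; ring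
    obtain ⟨_, q', st, h1, h2⟩ := conf_reaches M z hinf k'
    have hr := pst_range A B n0 hn (k' + 1) i (by omega)
    have hr2 := pst_range A B n0 hn (k' + 1) (i + 1) (by omega)
    have hcell : pst A B (k' + 1, i) = (xpos (dir (k' + 1)) (A - ((k' + 1 : ℕ) : ℤ))
        (B + ((k' + 1 : ℕ) : ℤ)) i, (k' : ℤ) + 1) := by
      simp [pst]
    obtain ⟨a, s1, s2, s3, ha, g1, g2, g3, gn, gm⟩ := snake_row M k' (A - ((k' + 1 : ℕ) : ℤ))
      (B + ((k' + 1 : ℕ) : ℤ)) (by push_cast; omega) (rc M z k') (rc M z (k' + 1)) i (by omega)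
      (by push_cast; omega)
      (by
        intro X _ _ _
        have := G_step M (conf M z k').1 (conf M z k').2 q' st h1 X
        rw [rc, rc, rc, this]
        simp only [rc, h2])
      (rc_blank M z A B hinf hI _ _ (by omega)) (rc_blank M z A B hinf hI _ _ (by omega))
      (rc_blank M z A B hinf hI _ _ (by omega)) (rc_blank M z A B hinf hI _ _ (by omega))
      (fun Z s => diag M z A B Z = some s)
      (by
        intro X hX hX'
        rw [e1, e2]
        exact diag_row M z A B k' X (by omega) (by omega))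
      (by
        rw [← e3]
        exact diag_row M z A B (k' + 1) _ hr.1 hr.2)
    refine ⟨a, s1, s2, s3, _, ?_, ?_, ?_, ?_, gn, ?_, ?_⟩
    · rw [hcell, ← e3, ha]
      exact diag_row M z A B (k' + 1) _ hr.1 hr.2
    · rw [hcell]; exact g1
    · rw [hcell]; exact g2
    · rw [hcell]; exact g3
    · rw [hcell, gm, ← e3]
      have h5 := diag_row M z A B (k' + 1) _ hr2.1 hr2.2
      simp only [pst] at h5
      push_cast at h5 ⊢
      exact h5
    · rw [hcell, gm, nst, if_pos hlt]
      simp [pst]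
  · -- the last cell of the row
    have hi : i = n0 + 2 * k := by omega
    subst hi
    have e1 : A - ((k + 1 : ℕ) : ℤ) = A - k - 1 := by push_cast; ring
    have e2 : B + ((k + 1 : ℕ) : ℤ) = B + k + 1 := by push_cast; ring
    have e3 : ((k + 1 : ℕ) : ℤ) = (k : ℤ) + 1 := by push_cast; ring
    have e4 : B + (k : ℤ) - (A - k) = ((n0 + 2 * k : ℕ) : ℤ) := by push_cast; omega
    have hr := pst_range A B n0 hn k (n0 + 2 * k) (by omega)
    have hr2 := pst_range A B n0 hn (k + 1) 0 (by omega)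
    have hcell : pst A B (k, n0 + 2 * k) = (xpos (dir k) (A - k) (B + k) (B + k - (A - k)),
        (k : ℤ)) := by
      simp only [pst, e4]
    obtain ⟨a, s1, s2, s3, ha, g1, g2, g3, gn, gm⟩ := snake_turn M k (A - k) (B + k) (by omega)
      (rc M z k) (rc M z (k + 1))
      (rc_blank M z A B hinf hI _ _ (by push_cast; omega))
      (rc_blank M z A B hinf hI _ _ (by push_cast; omega))
      (fun Z s => diag M z A B Z = some s)
      (by
        rw [e4]
        exact diag_row M z A B k _ hr.1 hr.2)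
    refine ⟨a, s1, s2, s3, _, ?_, ?_, ?_, ?_, gn, ?_, ?_⟩
    · rw [hcell, ha, e4]
      exact diag_row M z A B k _ hr.1 hr.2
    · rw [hcell]; exact g1
    · rw [hcell]; exact g2
    · rw [hcell]; exact g3
    · rw [hcell, gm, ← e3, ← e1, ← e2]
      have h5 := diag_row M z A B (k + 1) _ hr2.1 hr2.2
      simp only [pst] at h5
      exact_mod_cast h5
    · rw [hcell, gm, nst, if_neg (by simp)]
      simp only [pst, e1, e2]
      push_cast
      rfl

include hinf hI in
/-- The word attached to an infinite run is not trivial. -/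
theorem snake_word_not_mem [Fintype (Sym Γ Λ)] [Fintype (snake M).Idx] {K : ℕ}
    (e : Sym Γ Λ ≃ Fin K)
    (S : List ((ℤ × ℤ) × Fin K)) (hS : ∀ q ∈ S, (diag M z A B q.1).map e = some q.2) :
    word S (B, 0) ∉ derivedSeries F 3 ⊔
      Subgroup.normalClosure {rel ((snake M).rules e).toRules} := by
  have hAB : A + 4 ≤ B := by
    have := hI.1; have := hI.2.1; omega
  obtain ⟨n0, hn⟩ : ∃ n0 : ℕ, (n0 : ℤ) = B - A := ⟨(B - A).toNat, by omega⟩
  have h0 : pst A B (stt n0 0) = (B, 0) := by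
    have hd : dir 0 = true := by decide
    simp [pst, stt, hd, xpos, hn]
  rw [← h0]
  refine Walker.word_not_mem (snake M) e (diag M z A B) (fun m => pst A B (stt n0 m)) ?_ ?_ ?_ S hS
  · exact (pst_injective A B).comp (stt_injective n0)
  · intro m
    obtain ⟨h1, h2⟩ := stt_valid n0 m
    have := run_state M z A B hinf hI n0 hn (stt n0 m) h1 h2
    rw [← stt_succ] at this
    exact this
  · rintro ⟨X, Y⟩ hZ a ha s1 s2 s3
    simp only [diag] at ha
    split_ifs at ha with hc
    obtain ⟨hc1, hc2, hc3⟩ := hc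
    obtain ⟨k, hk⟩ : ∃ k : ℕ, (k : ℤ) = Y := ⟨Y.toNat, by omega⟩
    subst hk
    rw [Int.toNat_natCast] at ha
    obtain ⟨i, hi, hi2⟩ := exists_state A B n0 hn k X hc2 hc3
    rcases Nat.eq_zero_or_pos k with hk | hk
    · subst hk
      have hXB : X ≠ B := by
        rintro rfl
        apply hZ
        refine ⟨0, ?_⟩
        exact h0
      have h5 := Option.some.inj ha
      have hrole : a.2.1 = Role.E ∨ a.2.1 = Role.D := by
        rw [← h5]
        simp only [rowSym, if_true]
        by_cases hXA : X = A - ((0 : ℕ) : ℤ)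
        · left; rw [if_pos hXA]
        · right
          rw [if_neg hXA, if_neg (by simpa using hXB)]
      rcases hrole with hrole | hrole <;> simp only [snake, hrole]
    · exfalso
      apply hZ
      obtain ⟨k', rfl⟩ : ∃ k', k = k' + 1 := ⟨k - 1, by omega⟩
      obtain ⟨m, hm⟩ := stt_cover n0 k' i hi
      exact ⟨m, by simp only [hm]; exact hi2⟩

end Inf

end Pool.Agent.OneRel
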