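import Pool.Agent.OneRel.Snake

/-!
# Runs of the snake
-/

set_option autoImplicit false

namespace Pool.Agent.OneRel

open Turing

section Run

variable {Γ Λ : Type} [Inhabited Γ] [Inhabited Λ] (M : TM0.Machine Γ Λ)

/-- The head and all non-blank symbols lie well inside `[A, B]`. -/
def Inv (c : TM0.Cfg Γ Λ) (A B p : ℤ) : Prop :=
  A + 2 ≤ p ∧ p ≤ B - 2 ∧ ∀ X, (X < A + 2 ∨ B - 2 < X) → c.Tape.nth (X - p) = default

theorem disp_abs (st : TM0.Stmt Γ) : -1 ≤ disp st ∧ disp st ≤ 1 := by
  cases st with
  | write b => simp [disp]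
  | move d => cases d <;> simp [disp]

theorem Inv_step (c : TM0.Cfg Γ Λ) (A B p : ℤ) (h : Inv c A B p) (q' : Λ) (st : TM0.Stmt Γ) :
    Inv (⟨q', app st c.Tape⟩ : TM0.Cfg Γ Λ) (A - 1) (B + 1) (p + disp st) := by
  obtain ⟨h1, h2, h3⟩ := h
  obtain ⟨h4, h5⟩ := disp_abs st
  refine ⟨by omega, by omega, fun X hX => ?_⟩
  change (app st c.Tape).nth (X - (p + disp st)) = default
  rw [nth_app]
  cases st with
  | write b =>
    simp only [newAt]
    rw [if_neg (by omega)]
    exact h3 X (by omega)
  | move d => exact h3 X (by omega)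

theorem Inv_blank (c : TM0.Cfg Γ Λ) (A B p : ℤ) (h : Inv c A B p) (X : ℤ)
    (hX : X < A + 2 ∨ B - 2 < X) : cellOf c p X = blank := by
  obtain ⟨h1, h2, h3⟩ := h
  unfold cellOf blank
  rw [if_neg (by omega), h3 X hX]

variable {K : ℕ} (e : Sym Γ Λ ≃ Fin K)

/-- Running along a new row. -/
theorem run_row (k : ℕ) (A B : ℤ) (hAB : A + 6 ≤ B) (cp cn : ℤ → Cell Γ Λ) (m : ℕ)
    (hm : (m : ℤ) ≤ B - A)
    (hG : ∀ i : ℕ, i < m → ∀ X, X = xpos (dir (k + 1)) A B ((i : ℤ) + 1) → A + 2 ≤ X → X ≤ B - 2 →
      G M (cp (X - 1)) (cp X) (cp (X + 1)) = some (cn X))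
    (hA : cn A = blank) (hA1 : cn (A + 1) = blank) (hB : cn B = blank) (hB1 : cn (B - 1) = blank)
    (S0 : Set ((ℤ × ℤ) × Fin K))
    (hS0 : ∀ X, A + 1 ≤ X → X ≤ B - 1 → ((X, (k : ℤ)), e (rowSym k (A + 1) (B - 1) cp X)) ∈ S0)
    (hfin : ∀ S : Set ((ℤ × ℤ) × Fin K), S0 ⊆ S → (∀ j : ℕ, j ≤ m →
        ((xpos (dir (k + 1)) A B j, (k : ℤ) + 1),
          e (rowSym (k + 1) A B cn (xpos (dir (k + 1)) A B j))) ∈ S) →
      DiesM ((snake M).rules e) S (xpos (dir (k + 1)) A B m, (k : ℤ) + 1)) :
    ∀ d : ℕ, ∀ i : ℕ, i + d = m → ∀ S : Set ((ℤ × ℤ) × Fin K), S0 ⊆ S → (∀ j : ℕ, j ≤ i →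
        ((xpos (dir (k + 1)) A B j, (k : ℤ) + 1),
          e (rowSym (k + 1) A B cn (xpos (dir (k + 1)) A B j))) ∈ S) →
      DiesM ((snake M).rules e) S (xpos (dir (k + 1)) A B i, (k : ℤ) + 1) := by
  intro d
  induction d with
  | zero =>
    intro i hi S hS hj
    have : i = m := by omega
    subst this
    exact hfin S hS hj
  | succ d ih =>
    intro i hi S hS hj
    obtain ⟨a, s1, s2, s3, ha, h1, h2, h3, hn, hmv⟩ := snake_row M k A B hAB cp cn i (by omega)
      (by omega) (fun X hX => hG i (by omega) X hX) hA hA1 hB hB1 (fun Z s => (Z, e s) ∈ S)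
      (fun X hX hX' => hS (hS0 X hX hX')) (hj i le_rfl)
    have hji := hj i le_rfl
    rw [← ha] at hji
    refine Walker.dies_some (snake M) e S _ a s1 s2 s3 _ hji h1 h2 h3 hn ?_
    intro S' hSS' hnew
    rw [hmv] at hnew ⊢
    have := ih (i + 1) (by omega) S' (hS.trans hSS') (by
      intro j hj'
      rcases Nat.lt_or_ge j (i + 1) with hlt | hge
      · exact hSS' (hj j (by omega))
      · have : j = i + 1 := by omega
        subst this
        push_cast
        exact hnew)
    push_cast at this
    exact this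

/-- If the machine halts from the configuration `c`, the snake dies after the row of `c`. -/
theorem dies_of_halts (c b : TM0.Cfg Γ Λ) (hr : StateTransition.Reaches (TM0.step M) c b)
    (hb : TM0.step M b = none) : ∀ (k : ℕ) (A B p : ℤ) (S : Set ((ℤ × ℤ) × Fin K)), Inv c A B p →
      (∀ X, A ≤ X → X ≤ B → ((X, (k : ℤ)), e (rowSym k A B (cellOf c p) X)) ∈ S) →
      DiesM ((snake M).rules e) S (xpos (dir k) A B (B - A), (k : ℤ)) := by
  induction hr using Relation.ReflTransGen.head_induction_on with
  | refl =>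
    intro k A B p S hI hS
    have hM := step_eq_none M hb
    have hI' := hI
    obtain ⟨hp1, hp2, _⟩ := hI'
    -- the new row is a copy of the old one
    obtain ⟨a, s1, s2, s3, ha, h1, h2, h3, hn, hmv⟩ := snake_turn M k A B (by omega)
      (cellOf b p) (cellOf b p) (Inv_blank b A B p hI _ (by omega))
      (Inv_blank b A B p hI _ (by omega)) (fun Z s => (Z, e s) ∈ S) (hS _ (by
        cases dir k <;> simp only [xpos, Bool.false_eq_true, if_false, if_true] <;> omega) (by
        cases dir k <;> simp only [xpos, Bool.false_eq_true, if_false, if_true] <;> omega))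
    have h0 : ((xpos (dir k) A B (B - A), (k : ℤ)), e a) ∈ S := by
      rw [ha]
      exact hS _ (by
        cases dir k <;> simp only [xpos, Bool.false_eq_true, if_false, if_true] <;> omega) (by
        cases dir k <;> simp only [xpos, Bool.false_eq_true, if_false, if_true] <;> omega)
    refine Walker.dies_some (snake M) e S _ a s1 s2 s3 _ h0 h1 h2 h3 hn ?_
    intro S' hSS' hnew
    rw [hmv] at hnew ⊢
    -- index of the cell before the head
    obtain ⟨m, hm⟩ : ∃ m : ℕ, (m : ℤ) + 1 = idx (dir (k + 1)) (A - 1) (B + 1) p := by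
      refine ⟨(idx (dir (k + 1)) (A - 1) (B + 1) p - 1).toNat, ?_⟩
      have : 1 ≤ idx (dir (k + 1)) (A - 1) (B + 1) p := by
        cases dir (k + 1) <;> simp only [idx, Bool.false_eq_true, if_false, if_true] <;> omega
      omega
    have hxp : xpos (dir (k + 1)) (A - 1) (B + 1) ((m : ℤ) + 1) = p := by
      rw [hm]
      cases dir (k + 1) <;> simp [xpos, idx]
    have hm1 : 1 ≤ (m : ℤ) ∧ (m : ℤ) ≤ (B + 1) - (A - 1) - 3 := by
      have : 3 ≤ idx (dir (k + 1)) (A - 1) (B + 1) p ∧
          idx (dir (k + 1)) (A - 1) (B + 1) p ≤ (B + 1) - (A - 1) - 3 := by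
        cases dir (k + 1) <;> simp only [idx, Bool.false_eq_true, if_false, if_true] <;> omega
      omega
    have e1 : A - 1 + 1 = A := by ring
    have e2 : B + 1 - 1 = B := by ring
    have key := run_row M e k (A - 1) (B + 1) (by omega) (cellOf b p) (cellOf b p) m (by omega)
      (by
        intro i hi X hX _ _
        apply G_idle M b p hM X
        intro hXp
        rw [hXp, ← hxp] at hX
        have h5 := congrArg (idx (dir (k + 1)) (A - 1) (B + 1)) hX
        rw [idx_xpos, idx_xpos] at h5
        omega)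
      (Inv_blank b A B p hI _ (by omega)) (Inv_blank b A B p hI _ (by omega))
      (Inv_blank b A B p hI _ (by omega)) (Inv_blank b A B p hI _ (by omega)) S
      (by
        intro X hX hX'
        rw [e1, e2]
        exact hS X (by omega) (by omega))
      (by
        intro S'' hSS'' hj
        obtain ⟨a', t1, t2, t3, ha', g1, g2, g3, gn⟩ := snake_stop M k (A - 1) (B + 1) (by omega)
          (cellOf b p) (cellOf b p) m hm1.1 hm1.2 (by
            rw [hxp]; exact G_none M b p hM) (fun Z s => (Z, e s) ∈ S'') (by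
            intro X hX hX'
            rw [e1, e2]
            exact hSS'' (hS X (by omega) (by omega)))
        have h0' := hj m le_rfl
        rw [← ha'] at h0'
        exact Walker.dies_none (snake M) e S'' _ a' t1 t2 t3 h0' g1 g2 g3 gn)
      m 0 (by omega) S' hSS' (by
        intro j hj
        have : j = 0 := by omega
        subst this
        simpa using hnew)
    simpa using key
  | @head c c' hstep _ ih =>
    intro k A B p S hI hS
    obtain ⟨q', st, hM, rfl⟩ := step_eq_some M hstep
    have hI' := hI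
    obtain ⟨hp1, hp2, _⟩ := hI'
    have hI2 := Inv_step c A B p hI q' st
    obtain ⟨a, s1, s2, s3, ha, h1, h2, h3, hn, hmv⟩ := snake_turn M k A B (by omega)
      (cellOf c p) (cellOf ⟨q', app st c.Tape⟩ (p + disp st)) (Inv_blank _ _ _ _ hI2 _ (by omega))
      (Inv_blank _ _ _ _ hI2 _ (by omega)) (fun Z s => (Z, e s) ∈ S) (hS _ (by
        cases dir k <;> simp only [xpos, Bool.false_eq_true, if_false, if_true] <;> omega) (by
        cases dir k <;> simp only [xpos, Bool.false_eq_true, if_false, if_true] <;> omega))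
    have h0 : ((xpos (dir k) A B (B - A), (k : ℤ)), e a) ∈ S := by
      rw [ha]
      exact hS _ (by
        cases dir k <;> simp only [xpos, Bool.false_eq_true, if_false, if_true] <;> omega) (by
        cases dir k <;> simp only [xpos, Bool.false_eq_true, if_false, if_true] <;> omega)
    refine Walker.dies_some (snake M) e S _ a s1 s2 s3 _ h0 h1 h2 h3 hn ?_
    intro S' hSS' hnew
    rw [hmv] at hnew ⊢
    have e1 : A - 1 + 1 = A := by ring
    have e2 : B + 1 - 1 = B := by ring
    obtain ⟨m, hm⟩ : ∃ m : ℕ, (m : ℤ) = (B + 1) - (A - 1) :=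
      ⟨((B + 1) - (A - 1)).toNat, by omega⟩
    have key := run_row M e k (A - 1) (B + 1) (by omega) (cellOf c p)
      (cellOf ⟨q', app st c.Tape⟩ (p + disp st)) m (by omega)
      (by
        intro i hi X hX _ _
        exact G_step M c p q' st hM X)
      (Inv_blank _ _ _ _ hI2 _ (by omega)) (Inv_blank _ _ _ _ hI2 _ (by omega))
      (Inv_blank _ _ _ _ hI2 _ (by omega)) (Inv_blank _ _ _ _ hI2 _ (by omega)) S
      (by
        intro X hX hX'
        rw [e1, e2]
        exact hS X (by omega) (by omega))
      (by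
        intro S'' hSS'' hj
        have := ih (k + 1) (A - 1) (B + 1) (p + disp st) S'' hI2 (by
          intro X hX hX'
          obtain ⟨j, hj'⟩ : ∃ j : ℕ, (j : ℤ) = idx (dir (k + 1)) (A - 1) (B + 1) X := by
            refine ⟨(idx (dir (k + 1)) (A - 1) (B + 1) X).toNat, ?_⟩
            have : 0 ≤ idx (dir (k + 1)) (A - 1) (B + 1) X := by
              cases dir (k + 1) <;> simp only [idx, Bool.false_eq_true, if_false, if_true] <;> omega
            omega
          have hxj : xpos (dir (k + 1)) (A - 1) (B + 1) (j : ℤ) = X := by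
            rw [hj']
            cases dir (k + 1) <;> simp [xpos, idx]
          have h5 := hj j (by
            have : idx (dir (k + 1)) (A - 1) (B + 1) X ≤ (B + 1) - (A - 1) := by
              cases dir (k + 1) <;> simp only [idx, Bool.false_eq_true, if_false, if_true] <;> omega
            omega)
          rw [hxj] at h5
          push_cast
          exact h5)
        push_cast at this
        rw [hm]
        exact this)
      m 0 (by omega) S' hSS' (by
        intro j hj
        have : j = 0 := by omega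
        subst this
        simpa using hnew)
    simpa using key

end Run

end Pool.Agent.OneRel
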