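import Pool.Agent.OneRel.Macro

/-!
# Deterministic walkers
-/

set_option autoImplicit false

namespace Pool.Agent.OneRel

/-- A deterministic walker: standing on a cell with symbol `a` it observes three cells, at offsets
`o1 a`, `o2 a`, `o3 a`, and checks that the cell at offset `mv a` carries the symbol
`nxt a s1 s2 s3`; then it moves to that cell. -/
structure Walker (A : Type) where
  mv : A → ℤ × ℤ
  o1 : A → ℤ × ℤ
  o2 : A → ℤ × ℤ
  o3 : A → ℤ × ℤ
  nxt : A → A → A → A → Option A

namespace Walker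

variable {A : Type} (W : Walker A)

/-- The index type of the rules. -/
abbrev Idx : Type := {q : A × A × A × A // (W.nxt q.1 q.2.1 q.2.2.1 q.2.2.2).isSome}

variable {K : ℕ} (e : A ≃ Fin K)

/-- The requirements of a rule. -/
def reqs (i : W.Idx) : List ((ℤ × ℤ) × Fin K) :=
  [((0, 0), e i.1.1), (W.o1 i.1.1, e i.1.2.1), (W.o2 i.1.1, e i.1.2.2.1),
    (W.o3 i.1.1, e i.1.2.2.2),
    (W.mv i.1.1, e ((W.nxt i.1.1 i.1.2.1 i.1.2.2.1 i.1.2.2.2).get i.2))]

/-- The rules of the walker. -/
def rules : MRules W.Idx K where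
  reqs := W.reqs e
  mv i := W.mv i.1.1

theorem dies_none (S : Set ((ℤ × ℤ) × Fin K)) (Z : ℤ × ℤ) (a s1 s2 s3 : A)
    (h0 : (Z, e a) ∈ S) (h1 : (Z + W.o1 a, e s1) ∈ S) (h2 : (Z + W.o2 a, e s2) ∈ S)
    (h3 : (Z + W.o3 a, e s3) ∈ S) (hn : W.nxt a s1 s2 s3 = none) : DiesM (W.rules e) S Z := by
  refine DiesM.intro _ _ (fun _ => True) ?_ (fun i h => absurd trivial h)
  rintro ⟨⟨a', t1, t2, t3⟩, hi⟩ _
  by_cases ha : a = a'
  · subst ha
    by_cases h1' : s1 = t1
    · subst h1'
      by_cases h2' : s2 = t2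
      · subst h2'
        by_cases h3' : s3 = t3
        · subst h3'
          simp only [hn] at hi
          simp at hi
        · exact ⟨Z + W.o3 a, e s3, e t3, fun h => h3' (e.injective h), h3, by
            simp [shiftM, rules, reqs]⟩
      · exact ⟨Z + W.o2 a, e s2, e t2, fun h => h2' (e.injective h), h2, by
          simp [shiftM, rules, reqs]⟩
    · exact ⟨Z + W.o1 a, e s1, e t1, fun h => h1' (e.injective h), h1, by
        simp [shiftM, rules, reqs]⟩
  · refine ⟨Z, e a, e a', fun h => ha (e.injective h), h0, ?_⟩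
    simp only [shiftM, rules, reqs, List.map_cons, List.mem_cons]
    left
    ext <;> simp

theorem dies_some (S : Set ((ℤ × ℤ) × Fin K)) (Z : ℤ × ℤ) (a s1 s2 s3 a' : A)
    (h0 : (Z, e a) ∈ S) (h1 : (Z + W.o1 a, e s1) ∈ S) (h2 : (Z + W.o2 a, e s2) ∈ S)
    (h3 : (Z + W.o3 a, e s3) ∈ S) (hn : W.nxt a s1 s2 s3 = some a')
    (hd : ∀ S' : Set ((ℤ × ℤ) × Fin K), S ⊆ S' → (Z + W.mv a, e a') ∈ S' →
      DiesM (W.rules e) S' (Z + W.mv a)) : DiesM (W.rules e) S Z := by
  refine DiesM.intro _ _ (fun i => i.1 ≠ (a, s1, s2, s3)) ?_ ?_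
  · rintro ⟨⟨b, t1, t2, t3⟩, hi⟩ hne
    by_cases ha : a = b
    · subst ha
      by_cases h1' : s1 = t1
      · subst h1'
        by_cases h2' : s2 = t2
        · subst h2'
          by_cases h3' : s3 = t3
          · subst h3'
            exact absurd rfl hne
          · exact ⟨Z + W.o3 a, e s3, e t3, fun h => h3' (e.injective h), h3, by
              simp [shiftM, rules, reqs]⟩
        · exact ⟨Z + W.o2 a, e s2, e t2, fun h => h2' (e.injective h), h2, by
            simp [shiftM, rules, reqs]⟩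
      · exact ⟨Z + W.o1 a, e s1, e t1, fun h => h1' (e.injective h), h1, by
          simp [shiftM, rules, reqs]⟩
    · refine ⟨Z, e a, e b, fun h => ha (e.injective h), h0, ?_⟩
      simp only [shiftM, rules, reqs, List.map_cons, List.mem_cons]
      left
      ext <;> simp
  · rintro ⟨i, hi⟩ hnc
    simp only [ne_eq, not_not] at hnc
    subst hnc
    refine hd _ Set.subset_union_left (Or.inr ?_)
    have h5 : (W.nxt a s1 s2 s3).get hi = a' := by
      simp [hn]
    change (Z + W.mv a, e a') ∈ shiftM Z (W.reqs e ⟨(a, s1, s2, s3), hi⟩)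
    simp only [shiftM, reqs, List.map_cons, List.mem_cons, List.map_nil]
    right; right; right; right; left
    rw [h5]

theorem reqs_ne (i : W.Idx) : (W.rules e).reqs i ≠ [] := by
  simp [rules, reqs]

/-- Negative direction for walkers. -/
theorem word_not_mem [Fintype A] [Fintype W.Idx] (X : ℤ × ℤ → Option A) (path : ℕ → ℤ × ℤ)
    (hinj : Function.Injective path)
    (hrun : ∀ n, ∃ a s1 s2 s3 a', X (path n) = some a ∧ X (path n + W.o1 a) = some s1 ∧
      X (path n + W.o2 a) = some s2 ∧ X (path n + W.o3 a) = some s3 ∧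
      W.nxt a s1 s2 s3 = some a' ∧ X (path n + W.mv a) = some a' ∧
      path (n + 1) = path n + W.mv a)
    (hoff : ∀ Z, Z ∉ Set.range path → ∀ a, X Z = some a → ∀ s1 s2 s3, W.nxt a s1 s2 s3 = none)
    (S : List ((ℤ × ℤ) × Fin K)) (hS : ∀ q ∈ S, (X q.1).map e = some q.2) :
    word S (path 0) ∉ derivedSeries F 3 ⊔ Subgroup.normalClosure {rel (W.rules e).toRules} := by
  choose a s1 s2 s3 a' hX h1 h2 h3 hn hm hp using hrun
  let rule : ℕ → W.Idx := fun n => ⟨(a n, s1 n, s2 n, s3 n), by simp [hn]⟩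
  have hzero : ∀ Z : ℤ × ℤ, Z + (0, 0) = Z := fun Z => by ext <;> simp
  refine Pool.Agent.OneRel.word_not_mem (W.rules e) (fun Z => (X Z).map e) path rule hinj
    (fun n => hp n) ?_ ?_ ?_ S hS
  · intro n q hq
    have h5 : (W.nxt (a n) (s1 n) (s2 n) (s3 n)).get (by simp [hn]) = a' n := by
      simp [hn]
    simp only [rule, rules, reqs, List.mem_cons, List.not_mem_nil, or_false] at hq
    rcases hq with rfl | rfl | rfl | rfl | rfl
    · simp [hzero, hX]
    · simp [h1]
    · simp [h2]
    · simp [h3]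
    · simp [hm, h5]
  · rintro n ⟨⟨b, t1, t2, t3⟩, hi⟩ hne
    by_contra hcon
    push Not at hcon
    have hb : b = a n := by
      have := hcon ((0, 0), e b) (by simp [rules, reqs])
      simpa [hzero, hX, eq_comm] using this
    subst hb
    have g1 : t1 = s1 n := by
      have := hcon (W.o1 (a n), e t1) (by simp [rules, reqs])
      simpa [h1, eq_comm] using this
    have g2 : t2 = s2 n := by
      have := hcon (W.o2 (a n), e t2) (by simp [rules, reqs])
      simpa [h2, eq_comm] using this
    have g3 : t3 = s3 n := by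
      have := hcon (W.o3 (a n), e t3) (by simp [rules, reqs])
      simpa [h3, eq_comm] using this
    subst g1 g2 g3
    exact hne rfl
  · rintro Z hZ ⟨⟨b, t1, t2, t3⟩, hi⟩
    by_contra hcon
    push Not at hcon
    have hb : X Z = some b := by
      have := hcon ((0, 0), e b) (by simp [rules, reqs])
      simpa [hzero] using this
    have := hoff Z hZ b hb t1 t2 t3
    simp [this] at hi

end Walker

end Pool.Agent.OneRel
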